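import Pool.Agent.LC.Defs

/-!
# Basic facts on cyclic lists
-/

set_option autoImplicit false

namespace Pool.Agent.LC

variable {α : Type*}

@[simp] theorem lnk_nil (z : α) : lnk ([] : List α) z = [] := by simp [lnk]

@[simp] theorem lnk_single (x z : α) : lnk [x] z = [(x, z)] := by simp [lnk]

@[simp] theorem lnk_cons_cons (x y : α) (t : List α) (z : α) :
    lnk (x :: y :: t) z = (x, y) :: lnk (y :: t) z := by simp [lnk]

@[simp] theorem length_lnk (l : List α) (z : α) : (lnk l z).length = l.length := by
  induction l with
  | nil => simp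
  | cons x t ih =>
    cases t with
    | nil => simp
    | cons y t => rw [lnk_cons_cons, List.length_cons, ih, List.length_cons (as := y :: t)]

/-- splitting the links of a list -/
theorem lnk_append (l₁ : List α) (b : α) (l₂ : List α) (z : α) :
    lnk (l₁ ++ b :: l₂) z = lnk l₁ b ++ lnk (b :: l₂) z := by
  induction l₁ with
  | nil => simp
  | cons x t ih =>
    cases t with
    | nil => simp
    | cons y t =>
      simp only [List.cons_append, lnk_cons_cons, List.cons.injEq, true_and] at ih ⊢
      exact ih

@[simp] theorem clnk_nil : clnk ([] : List α) = [] := rfl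

@[simp] theorem clnk_cons (x : α) (t : List α) : clnk (x :: t) = lnk (x :: t) x := rfl

@[simp] theorem length_clnk (l : List α) : (clnk l).length = l.length := by
  cases l with
  | nil => simp
  | cons x t => simp

/-- the links of a rotated list -/
theorem clnk_append_comm (l₁ l₂ : List α) : (clnk (l₁ ++ l₂)).Perm (clnk (l₂ ++ l₁)) := by
  cases l₁ with
  | nil => simp
  | cons a s =>
    cases l₂ with
    | nil => simp
    | cons b t =>
      have h1 : clnk (a :: s ++ b :: t) = lnk (a :: s) b ++ lnk (b :: t) a := by
        rw [List.cons_append, clnk_cons, ← List.cons_append, lnk_append]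
      have h2 : clnk (b :: t ++ a :: s) = lnk (b :: t) a ++ lnk (a :: s) b := by
        rw [List.cons_append, clnk_cons, ← List.cons_append, lnk_append]
      rw [h1, h2]
      exact List.perm_append_comm

theorem clnk_rotate (l : List α) (k : ℕ) : (clnk (l.rotate k)).Perm (clnk l) := by
  rcases Nat.lt_or_ge l.length 1 with h | h
  · have : l = [] := List.length_eq_zero_iff.mp (by omega)
    subst this; simp
  · rw [List.rotate_eq_drop_append_take_mod]
    refine (clnk_append_comm _ _).trans ?_
    rw [List.take_append_drop]

/-- every element of a cyclic list can be rotated to the front -/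
theorem exists_rotate_cons (l : List α) (a : α) (ha : a ∈ l) :
    ∃ (k : ℕ) (t : List α), l.rotate k = a :: t := by
  obtain ⟨s, t, rfl⟩ := List.append_of_mem ha
  refine ⟨s.length, t ++ s, ?_⟩
  rw [List.rotate_append_length_eq]
  simp

theorem mem_lnk {l : List α} {z : α} {q : α × α} (h : q ∈ lnk l z) :
    q.1 ∈ l ∧ (q.2 ∈ l ∨ q.2 = z) := by
  induction l with
  | nil => simp at h
  | cons x t ih =>
    cases t with
    | nil => simp at h; subst h; simp
    | cons y t =>
      rw [lnk_cons_cons, List.mem_cons] at h
      rcases h with h | h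
      · subst h; simp
      · obtain ⟨h1, h2⟩ := ih h
        refine ⟨List.mem_cons_of_mem _ h1, ?_⟩
        rcases h2 with h2 | h2
        · exact Or.inl (List.mem_cons_of_mem _ h2)
        · exact Or.inr h2

theorem mem_clnk {l : List α} {q : α × α} (h : q ∈ clnk l) : q.1 ∈ l ∧ q.2 ∈ l := by
  cases l with
  | nil => simp at h
  | cons x t =>
    rw [clnk_cons] at h
    obtain ⟨h1, h2⟩ := mem_lnk h
    refine ⟨h1, ?_⟩
    rcases h2 with h2 | h2
    · exact h2
    · rw [h2]; simp

theorem IsCyc.rotate {R : α → α → Prop} {l : List α} (h : IsCyc R l) (k : ℕ) :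
    IsCyc R (l.rotate k) := by
  refine ⟨List.nodup_rotate.mpr h.1, by rw [List.length_rotate]; exact h.2.1, ?_⟩
  intro q hq
  exact h.2.2 q ((clnk_rotate l k).mem_iff.mp hq)

theorem lset_rotate (l : List ℕ) (k : ℕ) : lset (l.rotate k) = lset l := by
  unfold lset
  ext e
  simp only [List.mem_toFinset, List.mem_map]
  constructor
  · rintro ⟨q, hq, rfl⟩
    exact ⟨q, (clnk_rotate l k).mem_iff.mp hq, rfl⟩
  · rintro ⟨q, hq, rfl⟩
    exact ⟨q, (clnk_rotate l k).mem_iff.mpr hq, rfl⟩

theorem wt_rotate (w : ℕ → ℕ → ℕ) (l : List ℕ) (k : ℕ) : wt w (l.rotate k) = wt w l := by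
  unfold wt
  exact ((clnk_rotate l k).map _).sum_eq

/-- the closed form of the links of a cons list -/
theorem clnk_cons_append_single (a : α) (t : List α) (b : α) :
    clnk (a :: t ++ [b]) = lnk (a :: t) b ++ [(b, a)] := by
  rw [List.cons_append, clnk_cons, ← List.cons_append, lnk_append]
  simp

end Pool.Agent.LC
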