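import Pool.Agent.LC.Defs

/-!
# The blow-up is chordal
-/

set_option autoImplicit false

namespace Pool.Agent.LC

open SimpleGraph

/-- a path of length at least two does not use the edge between its ends -/
theorem bchordAux_path {V : Type*} {G : SimpleGraph V} {a b : V} (q : G.Walk a b) (hq : q.IsPath)
    (h2 : 2 ≤ q.length) : s(a, b) ∉ q.edges := by
  cases q with
  | nil => simp at h2
  | cons h q' =>
    rw [Walk.cons_isPath_iff] at hq
    rw [Walk.length_cons] at h2
    rw [Walk.edges_cons, List.mem_cons]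
    rintro (h3 | h3)
    · rw [Sym2.eq_iff] at h3
      rcases h3 with ⟨_, h3⟩ | ⟨_, h3⟩
      · subst h3
        have := Walk.length_eq_zero_iff.2 (Walk.isPath_iff_nil.1 hq.1)
        omega
      · subst h3
        exact hq.2 q'.end_mem_support
    · exact hq.2 (q'.fst_mem_support_of_mem_edges h3)

/-- the two neighbours on a cycle of length at least four -/
theorem bchordAux_nbr {V : Type*} [DecidableEq V] {G : SimpleGraph V} {u : V} (c : G.Walk u u)
    (hc : c.IsCycle) (h4 : 4 ≤ c.length) (v : V) (hv : v ∈ c.support) :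
    ∃ a b, a ∈ c.support ∧ b ∈ c.support ∧ G.Adj v a ∧ G.Adj v b ∧ a ≠ b ∧ s(a, b) ∉ c.edges := by
  have hc' : (c.rotate v hv).IsCycle := (Walk.isCycle_rotate hv).2 hc
  have hlen : (c.rotate v hv).length = c.length := Walk.length_rotate c v hv
  have hsup : ∀ x, x ∈ (c.rotate v hv).support → x ∈ c.support := fun x hx =>
    (Walk.mem_support_rotate_iff c v hv).1 hx
  have hedg : ∀ e, e ∈ c.edges → e ∈ (c.rotate v hv).edges := fun e he =>
    (c.rotate_edges v hv).perm.mem_iff.2 he
  generalize c.rotate v hv = c' at hc' hlen hsup hedg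
  cases c' with
  | nil => simp at hlen; omega
  | @cons _ a _ h p =>
    rw [Walk.cons_isCycle_iff] at hc'
    rw [Walk.length_cons] at hlen
    cases p with
    | nil => simp at hlen; omega
    | cons h1 p1 =>
      obtain ⟨b, q, h', hq⟩ := Walk.exists_cons_eq_concat h1 p1
      rw [hq] at hc' hsup hedg hlen
      rw [Walk.concat_isPath_iff] at hc'
      rw [Walk.length_concat] at hlen
      have hq2 : 2 ≤ q.length := by omega
      refine ⟨a, b, hsup _ ?_, hsup _ ?_, h, h'.symm, ?_, ?_⟩
      · rw [Walk.support_cons, List.mem_cons]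
        right
        exact Walk.start_mem_support _
      · rw [Walk.support_cons, List.mem_cons]
        right
        rw [Walk.support_concat]
        simp
      · intro hab
        subst hab
        have := Walk.length_eq_zero_iff.2 (Walk.isPath_iff_nil.1 hc'.1.1)
        omega
      · intro he
        have h5 := hedg _ he
        rw [Walk.edges_cons, List.mem_cons, Walk.edges_concat] at h5
        rcases h5 with h5 | h5
        · rw [Sym2.eq_iff] at h5
          rcases h5 with ⟨h5, _⟩ | ⟨_, h5⟩
          · exact h.ne h5.symm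
          · exact h'.ne h5
        · simp only [List.concat_eq_append, List.mem_append, List.mem_singleton] at h5
          rcases h5 with h5 | h5
          · exact bchordAux_path q hc'.1.1 hq2 h5
          · rw [Sym2.eq_iff] at h5
            rcases h5 with ⟨_, h5⟩ | ⟨h5, _⟩
            · exact h'.ne h5
            · exact h.ne h5.symm

theorem blow_chordal (n : ℕ) (w : ℕ → ℕ → ℕ) (hw : ∀ x y, w x y = w y x)
    (hpeo : ∀ x < n, ∀ a < x, ∀ b < x, (a ≠ b ∧ 0 < w x a ∧ 0 < w x b) → 0 < w a b)
    (u : BV n w) (c : (BG n w hw).Walk u u) (hc : c.IsCycle) (h4 : 4 ≤ c.length) :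
    ∃ x ∈ c.support, ∃ y ∈ c.support, (BG n w hw).Adj x y ∧ s(x, y) ∉ c.edges := by
  classical
  by_cases hs : ∃ s, Sum.inr s ∈ c.support
  · obtain ⟨s, hs⟩ := hs
    obtain ⟨a, b, ha, hb, hva, hvb, hab, he⟩ := bchordAux_nbr c hc h4 (Sum.inr s) hs
    refine ⟨a, ha, b, hb, ?_, he⟩
    change BAdj n w (Sum.inr s) a at hva
    change BAdj n w (Sum.inr s) b at hvb
    change BAdj n w a b
    have hpos : 0 < bsz w s.1.1 s.1.2 := lt_of_le_of_lt (Nat.zero_le _) s.2.2
    have hlt : ((s.1.2 : Fin n) : ℕ) < s.1.1 ∧ 0 < w s.1.1 s.1.2 := by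
      unfold bsz at hpos
      split_ifs at hpos with h
      · exact ⟨h, by omega⟩
      · exact absurd hpos (lt_irrefl 0)
    have hne : s.1.1 ≠ s.1.2 := by
      intro h
      rw [h] at hlt
      exact lt_irrefl _ hlt.1
    rcases a with x | t <;> rcases b with y | t'
    · have hxy : x ≠ y := fun h => hab (by rw [h])
      refine ⟨hxy, ?_⟩
      rcases hva with hx | hx <;> rcases hvb with hy | hy
      · exact absurd (hx.trans hy.symm) hxy
      · rw [hx, hy]
        exact hlt.2
      · rw [hx, hy, hw]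
        exact hlt.2
      · exact absurd (hx.trans hy.symm) hxy
    · have h1 : s.1 = t'.1 := hvb.1
      change x = t'.1.1 ∨ x = t'.1.2
      rw [← h1]
      exact hva
    · have h1 : s.1 = t.1 := hva.1
      change y = t.1.1 ∨ y = t.1.2
      rw [← h1]
      exact hvb
    · exact ⟨hva.1.symm.trans hvb.1, fun h => hab (by rw [h])⟩
  · push Not at hs
    -- all vertices are old
    have hold : ∀ v ∈ c.support, ∃ x : Fin n, v = Sum.inl x := by
      intro v hv
      rcases v with x | s
      · exact ⟨x, rfl⟩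
      · exact absurd hv (hs s)
    obtain ⟨u0, hu0⟩ := hold u c.start_mem_support
    have hne : (Finset.univ.filter (fun x : Fin n => (Sum.inl x : BV n w) ∈ c.support)).Nonempty :=
      ⟨u0, by
        rw [Finset.mem_filter]
        refine ⟨Finset.mem_univ _, ?_⟩
        rw [← hu0]
        exact c.start_mem_support⟩
    obtain ⟨x, hx, hmax⟩ := Finset.exists_max_image _ (fun x : Fin n => x) hne
    rw [Finset.mem_filter] at hx
    obtain ⟨a, b, ha, hb, hva, hvb, hab, he⟩ := bchordAux_nbr c hc h4 (Sum.inl x) hx.2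
    refine ⟨a, ha, b, hb, ?_, he⟩
    obtain ⟨a', rfl⟩ := hold a ha
    obtain ⟨b', rfl⟩ := hold b hb
    change x ≠ a' ∧ 0 < w x a' at hva
    change x ≠ b' ∧ 0 < w x b' at hvb
    have ha' : a' ≤ x := hmax a' (Finset.mem_filter.2 ⟨Finset.mem_univ _, ha⟩)
    have hb' : b' ≤ x := hmax b' (Finset.mem_filter.2 ⟨Finset.mem_univ _, hb⟩)
    have ha2 : (a' : ℕ) < x := lt_of_le_of_ne ha' (fun h => hva.1 (Fin.ext h.symm))
    have hb2 : (b' : ℕ) < x := lt_of_le_of_ne hb' (fun h => hvb.1 (Fin.ext h.symm))
    have hab' : a' ≠ b' := fun h => hab (by rw [h])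
    refine ⟨hab', ?_⟩
    exact hpeo x x.2 a' ha2 b' hb2 ⟨fun h => hab' (Fin.ext h), hva.2, hvb.2⟩

end Pool.Agent.LC
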