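import Pool.Agent.LC.Defs

/-!
# The blow-up of a weighted graph with two smaller neighbours everywhere is 2-connected
-/

set_option autoImplicit false

namespace Pool.Agent.LC

/-- distinct ends of the pair carrying a new vertex -/
private theorem inr_ends_ne (n : ℕ) (w : ℕ → ℕ → ℕ)
    (s : Σ e : Fin n × Fin n, Fin (bsz w e.1 e.2)) : s.1.1 ≠ s.1.2 := by
  intro h
  obtain ⟨e, i⟩ := s
  have h' : e.1 = e.2 := h
  have hb : bsz w e.1 e.2 = 0 := by
    unfold bsz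
    rw [if_neg]
    rw [h']
    exact lt_irrefl _
  have := i.2
  omega

/-- every vertex that is not removed reaches one of the two base vertices -/
private theorem reach_base (n : ℕ) (w : ℕ → ℕ → ℕ) (hw : ∀ x y, w x y = w y x) (hn : 3 ≤ n)
    (h2 : ∀ x < n, 2 ≤ x → ∃ a < x, ∃ b < x, a ≠ b ∧ 0 < w x a ∧ 0 < w x b)
    (P : Set (BV n w)) (hP : ∀ a b, a ∉ P → b ∉ P → a = b) :
    ∀ x : ℕ, ∀ hx : x < n, ∀ hm : (Sum.inl ⟨x, hx⟩ : BV n w) ∈ P,
      ∃ y : Fin n, (y : ℕ) < 2 ∧ ∃ hy : (Sum.inl y : BV n w) ∈ P,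
        ((BG n w hw).induce P).Reachable ⟨Sum.inl ⟨x, hx⟩, hm⟩ ⟨Sum.inl y, hy⟩ := by
  intro x
  induction x using Nat.strong_induction_on with
  | _ x ih =>
    intro hx hm
    by_cases hx2 : x < 2
    · exact ⟨⟨x, hx⟩, hx2, hm, SimpleGraph.Reachable.refl _⟩
    · obtain ⟨a, ha, b, hb, hab, hwa, hwb⟩ := h2 x hx (by omega)
      have han : a < n := by omega
      have hbn : b < n := by omega
      have step : ∀ c, ∀ hc : c < x, ∀ hcn : c < n, 0 < w x c →
          (Sum.inl ⟨c, hcn⟩ : BV n w) ∈ P →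
          ∃ y : Fin n, (y : ℕ) < 2 ∧ ∃ hy : (Sum.inl y : BV n w) ∈ P,
          ((BG n w hw).induce P).Reachable ⟨Sum.inl ⟨x, hx⟩, hm⟩ ⟨Sum.inl y, hy⟩ := by
        intro c hc hcn hwc hcP
        obtain ⟨y, hy2, hyP, hr⟩ := ih c hc hcn hcP
        refine ⟨y, hy2, hyP, SimpleGraph.Reachable.trans (SimpleGraph.Adj.reachable ?_) hr⟩
        show (BG n w hw).Adj (Sum.inl ⟨x, hx⟩) (Sum.inl ⟨c, hcn⟩)
        refine ⟨?_, hwc⟩
        intro h
        have := congrArg Fin.val h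
        simp only at this
        omega
      by_cases haP : (Sum.inl ⟨a, han⟩ : BV n w) ∈ P
      · exact step a ha han hwa haP
      · by_cases hbP : (Sum.inl ⟨b, hbn⟩ : BV n w) ∈ P
        · exact step b hb hbn hwb hbP
        · exfalso
          have h := hP _ _ haP hbP
          have h' := Sum.inl.inj h
          exact hab (congrArg Fin.val h')

private theorem conn_aux (n : ℕ) (w : ℕ → ℕ → ℕ) (hw : ∀ x y, w x y = w y x) (hn : 3 ≤ n)
    (h01 : 0 < w 1 0)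
    (h2 : ∀ x < n, 2 ≤ x → ∃ a < x, ∃ b < x, a ≠ b ∧ 0 < w x a ∧ 0 < w x b)
    (P : Set (BV n w)) (hP : ∀ a b, a ∉ P → b ∉ P → a = b) :
    ((BG n w hw).induce P).Connected := by
  have key : ∀ v : P, ∃ y : Fin n, (y : ℕ) < 2 ∧ ∃ hy : (Sum.inl y : BV n w) ∈ P,
        ((BG n w hw).induce P).Reachable v ⟨Sum.inl y, hy⟩ := by
    rintro ⟨v, hv⟩
    rcases v with x | s
    · exact reach_base n w hw hn h2 P hP x x.2 hv
    · have hne := inr_ends_ne n w s
      have step : ∀ c : Fin n, (c = s.1.1 ∨ c = s.1.2) → (Sum.inl c : BV n w) ∈ P →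
          ∃ y : Fin n, (y : ℕ) < 2 ∧ ∃ hy : (Sum.inl y : BV n w) ∈ P,
          ((BG n w hw).induce P).Reachable ⟨Sum.inr s, hv⟩ ⟨Sum.inl y, hy⟩ := by
        intro c hc hcP
        obtain ⟨y, hy2, hyP, hr⟩ := reach_base n w hw hn h2 P hP c c.2 hcP
        refine ⟨y, hy2, hyP, SimpleGraph.Reachable.trans (SimpleGraph.Adj.reachable ?_) hr⟩
        show (BG n w hw).Adj (Sum.inr s) (Sum.inl c)
        exact hc
      by_cases h1 : (Sum.inl s.1.1 : BV n w) ∈ P
      · exact step _ (Or.inl rfl) h1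
      · by_cases h2' : (Sum.inl s.1.2 : BV n w) ∈ P
        · exact step _ (Or.inr rfl) h2'
        · exact absurd (Sum.inl.inj (hP _ _ h1 h2')) hne
  have base : ∀ y z : Fin n, (y : ℕ) < 2 → (z : ℕ) < 2 → ∀ hy : (Sum.inl y : BV n w) ∈ P,
      ∀ hz : (Sum.inl z : BV n w) ∈ P,
      ((BG n w hw).induce P).Reachable ⟨Sum.inl y, hy⟩ ⟨Sum.inl z, hz⟩ := by
    intro y z hy2 hz2 hy hz
    by_cases hyz : y = z
    · subst hyz
      exact SimpleGraph.Reachable.refl _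
    · refine SimpleGraph.Adj.reachable ?_
      show (BG n w hw).Adj (Sum.inl y) (Sum.inl z)
      refine ⟨hyz, ?_⟩
      have hv : (y : ℕ) ≠ z := fun h => hyz (Fin.ext h)
      rcases Nat.lt_or_ge (y : ℕ) 1 with h | h
      · have e1 : (y : ℕ) = 0 := by omega
        have e2 : (z : ℕ) = 1 := by omega
        rw [e1, e2, hw]
        exact h01
      · have e1 : (y : ℕ) = 1 := by omega
        have e2 : (z : ℕ) = 0 := by omega
        rw [e1, e2]
        exact h01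
  have hne : Nonempty P := by
    by_cases h0 : (Sum.inl ⟨0, by omega⟩ : BV n w) ∈ P
    · exact ⟨⟨_, h0⟩⟩
    · by_cases h1 : (Sum.inl ⟨1, by omega⟩ : BV n w) ∈ P
      · exact ⟨⟨_, h1⟩⟩
      · exfalso
        have h := Sum.inl.inj (hP _ _ h0 h1)
        have h' := congrArg Fin.val h
        simp at h'
  rw [SimpleGraph.connected_iff]
  refine ⟨?_, hne⟩
  intro a b
  obtain ⟨y, hy2, hyP, hr⟩ := key a
  obtain ⟨z, hz2, hzP, hs⟩ := key b
  exact (hr.trans (base y z hy2 hz2 hyP hzP)).trans hs.symm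

theorem blow_conn (n : ℕ) (w : ℕ → ℕ → ℕ) (hw : ∀ x y, w x y = w y x) (hn : 3 ≤ n)
    (h01 : 0 < w 1 0)
    (h2 : ∀ x < n, 2 ≤ x → ∃ a < x, ∃ b < x, a ≠ b ∧ 0 < w x a ∧ 0 < w x b) :
    (BG n w hw).Connected ∧ ∀ v : BV n w, ((BG n w hw).induce ({v}ᶜ : Set (BV n w))).Connected := by
  refine ⟨?_, ?_⟩
  · have h := conn_aux n w hw hn h01 h2 Set.univ (fun a b ha _ => absurd (Set.mem_univ a) ha)
    rw [SimpleGraph.connected_iff] at h ⊢
    refine ⟨?_, h.2.map Subtype.val⟩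
    intro a b
    have hr := h.1 ⟨a, Set.mem_univ a⟩ ⟨b, Set.mem_univ b⟩
    exact hr.map (SimpleGraph.Embedding.induce Set.univ).toHom
  · intro v
    refine conn_aux n w hw hn h01 h2 _ ?_
    intro a b ha hb
    rw [Set.notMem_compl_iff, Set.mem_singleton_iff] at ha hb
    rw [ha, hb]

end Pool.Agent.LC
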