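import Pool.Agent.LC.SymN

/-!
# Lower bound: a cyclic list of old vertices lifts to a cycle of the blow-up graph
-/

set_option autoImplicit false

namespace Pool.Agent.LC

/-- links of a duplicate free list of pairwise related elements, all related to the closing one -/
theorem bl_lnk_clique {α : Type*} (R : α → α → Prop) (s : List α) (z : α) (hn : s.Nodup)
    (h : ∀ a ∈ s, ∀ b ∈ s, a ≠ b → R a b) (hz : ∀ a ∈ s, R a z) :
    ∀ q ∈ lnk s z, R q.1 q.2 := by
  induction s with
  | nil => intro q hq; simp at hq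
  | cons x t ih =>
    cases t with
    | nil =>
      intro q hq
      rw [lnk_single, List.mem_singleton] at hq
      subst hq
      exact hz x (by simp)
    | cons y t =>
      intro q hq
      rw [lnk_cons_cons, List.mem_cons] at hq
      rcases hq with hq | hq
      · subst hq
        refine h x (by simp) y (by simp) ?_
        intro hxy
        exact (List.nodup_cons.mp hn).1 (by rw [hxy]; simp)
      · refine ih (List.nodup_cons.mp hn).2 ?_ ?_ q hq
        · intro a ha b hb hab
          exact h a (List.mem_cons_of_mem _ ha) b (List.mem_cons_of_mem _ hb) hab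
        · intro a ha
          exact hz a (List.mem_cons_of_mem _ ha)

/-- links of the image of a list -/
theorem bl_lnk_map {α β : Type*} (f : α → β) (l : List α) (z : α) :
    lnk (l.map f) (f z) = (lnk l z).map (fun q => (f q.1, f q.2)) := by
  induction l with
  | nil => simp
  | cons x t ih =>
    cases t with
    | nil => simp
    | cons y t =>
      simp only [List.map_cons, lnk_cons_cons, List.cons.injEq, true_and] at ih ⊢
      exact ih

theorem bl_clnk_map {α β : Type*} (f : α → β) (l : List α) :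
    clnk (l.map f) = (clnk l).map (fun q => (f q.1, f q.2)) := by
  cases l with
  | nil => simp
  | cons x t =>
    rw [List.map_cons, clnk_cons, clnk_cons, ← List.map_cons, bl_lnk_map]

/-- the new vertices on the pair `x, y` -/
def bl_inn (n : ℕ) (w : ℕ → ℕ → ℕ) (x y : Fin n) : List (BV n w) :=
  (List.finRange (bsz w (max x y : Fin n) (min x y : Fin n))).map
    (fun i => Sum.inr ⟨(max x y, min x y), i⟩)

/-- the segment of the lifted cycle belonging to the link `x, y` -/
def bl_seg (n : ℕ) (w : ℕ → ℕ → ℕ) (x y : Fin n) : List (BV n w) :=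
  Sum.inl x :: bl_inn n w x y

theorem bl_mem_inn {n : ℕ} {w : ℕ → ℕ → ℕ} {x y : Fin n} {v : BV n w}
    (h : v ∈ bl_inn n w x y) : ∃ s, v = Sum.inr s ∧ s.1 = (max x y, min x y) := by
  unfold bl_inn at h
  rw [List.mem_map] at h
  obtain ⟨i, _, rfl⟩ := h
  exact ⟨_, rfl, rfl⟩

theorem bl_inn_nodup (n : ℕ) (w : ℕ → ℕ → ℕ) (x y : Fin n) : (bl_inn n w x y).Nodup := by
  unfold bl_inn
  refine List.Nodup.map ?_ (List.nodup_finRange _)
  intro i j hij
  have h1 := Sum.inr_injective hij
  exact eq_of_heq (Sigma.mk.inj h1).2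

theorem bl_seg_nodup (n : ℕ) (w : ℕ → ℕ → ℕ) (x y : Fin n) : (bl_seg n w x y).Nodup := by
  unfold bl_seg
  rw [List.nodup_cons]
  refine ⟨?_, bl_inn_nodup n w x y⟩
  intro h
  obtain ⟨s, hs, _⟩ := bl_mem_inn h
  cases hs

theorem bl_seg_length (n : ℕ) (w : ℕ → ℕ → ℕ) (hw : ∀ x y, w x y = w y x) (x y : Fin n)
    (hxy : x ≠ y) (hp : 0 < w x y) : (bl_seg n w x y).length = w x y := by
  unfold bl_seg bl_inn
  rw [List.length_cons, List.length_map, List.length_finRange]
  rcases lt_or_gt_of_ne hxy with h | h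
  · rw [max_eq_right h.le, min_eq_left h.le]
    unfold bsz
    rw [if_pos (show (x : ℕ) < (y : ℕ) from h), hw]
    have := hw x y
    omega
  · rw [max_eq_left h.le, min_eq_right h.le]
    unfold bsz
    rw [if_pos (show (y : ℕ) < (x : ℕ) from h)]
    omega

/-- the links of a segment, closed with the second end, are edges -/
theorem bl_seg_lnk (n : ℕ) (w : ℕ → ℕ → ℕ) (hw : ∀ x y, w x y = w y x) (x y : Fin n)
    (hxy : x ≠ y) (hp : 0 < w x y) :
    ∀ q ∈ lnk (bl_seg n w x y) (Sum.inl y), (BG n w hw).Adj q.1 q.2 := by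
  have hmx : (x = max x y ∨ x = min x y) ∧ (y = max x y ∨ y = min x y) := by
    rcases lt_or_gt_of_ne hxy with h | h
    · rw [max_eq_right h.le, min_eq_left h.le]
      exact ⟨Or.inr rfl, Or.inl rfl⟩
    · rw [max_eq_left h.le, min_eq_right h.le]
      exact ⟨Or.inl rfl, Or.inr rfl⟩
  have h1 : ∀ v ∈ bl_inn n w x y, (BG n w hw).Adj (Sum.inl x) v := by
    intro v hv
    obtain ⟨s, rfl, hs⟩ := bl_mem_inn hv
    show x = s.1.1 ∨ x = s.1.2
    rw [hs]
    exact hmx.1
  have h2 : ∀ v ∈ bl_inn n w x y, (BG n w hw).Adj v (Sum.inl y) := by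
    intro v hv
    obtain ⟨s, rfl, hs⟩ := bl_mem_inn hv
    show y = s.1.1 ∨ y = s.1.2
    rw [hs]
    exact hmx.2
  have h3 : ∀ v ∈ bl_inn n w x y, ∀ v' ∈ bl_inn n w x y, v ≠ v' → (BG n w hw).Adj v v' := by
    intro v hv v' hv' hne
    obtain ⟨s, rfl, hs⟩ := bl_mem_inn hv
    obtain ⟨s', rfl, hs'⟩ := bl_mem_inn hv'
    show s.1 = s'.1 ∧ s ≠ s'
    refine ⟨by rw [hs, hs'], ?_⟩
    intro h
    exact hne (by rw [h])
  have h4 := bl_lnk_clique (BG n w hw).Adj (bl_inn n w x y) (Sum.inl y) (bl_inn_nodup n w x y)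
    h3 h2
  unfold bl_seg
  generalize bl_inn n w x y = s at h1 h2 h3 h4
  intro q hq
  cases s with
  | nil =>
    rw [lnk_single, List.mem_singleton] at hq
    subst hq
    exact ⟨hxy, hp⟩
  | cons a s =>
    rw [lnk_cons_cons, List.mem_cons] at hq
    rcases hq with hq | hq
    · subst hq
      exact h1 a (by simp)
    · exact h4 q hq

/-- the lifted list starts with the old vertex -/
theorem bl_flat_cons (n : ℕ) (w : ℕ → ℕ → ℕ) (x : Fin n) (t : List (Fin n)) (z : Fin n) :
    ∃ r : List (BV n w), (lnk (x :: t) z).flatMap (fun q => bl_seg n w q.1 q.2) =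
      Sum.inl x :: r := by
  cases t with
  | nil => exact ⟨bl_inn n w x z, by simp [bl_seg]⟩
  | cons y t =>
    refine ⟨bl_inn n w x y ++ (lnk (y :: t) z).flatMap (fun q => bl_seg n w q.1 q.2), ?_⟩
    rw [lnk_cons_cons, List.flatMap_cons]
    rfl

theorem bl_flat_lnk (n : ℕ) (w : ℕ → ℕ → ℕ) (hw : ∀ x y, w x y = w y x) (t : List (Fin n)) :
    ∀ (x z : Fin n), (∀ q ∈ lnk (x :: t) z, q.1 ≠ q.2 ∧ 0 < w q.1 q.2) →
    ∀ q ∈ lnk ((lnk (x :: t) z).flatMap (fun q => bl_seg n w q.1 q.2)) (Sum.inl z),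
      (BG n w hw).Adj q.1 q.2 := by
  induction t with
  | nil =>
    intro x z h q hq
    have h1 := h (x, z) (by simp)
    rw [lnk_single] at hq
    simp only [List.flatMap_cons, List.flatMap_nil, List.append_nil] at hq
    exact bl_seg_lnk n w hw x z h1.1 h1.2 q hq
  | cons y t ih =>
    intro x z h q hq
    have h1 := h (x, y) (by simp)
    obtain ⟨r, hr⟩ := bl_flat_cons n w y t z
    have h2 := ih y z (fun q hq => h q (by rw [lnk_cons_cons]; exact List.mem_cons_of_mem _ hq))
    rw [lnk_cons_cons, List.flatMap_cons, hr, lnk_append, List.mem_append] at hq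
    rcases hq with hq | hq
    · exact bl_seg_lnk n w hw x y h1.1 h1.2 q hq
    · rw [hr] at h2
      exact h2 q hq

theorem bl_disjoint (n : ℕ) (w : ℕ → ℕ → ℕ) (a b c d : Fin n) (h1 : a ≠ c)
    (h2 : s((a : ℕ), (b : ℕ)) ≠ s((c : ℕ), (d : ℕ))) :
    List.Disjoint (bl_seg n w a b) (bl_seg n w c d) := by
  intro v hv hv'
  unfold bl_seg at hv hv'
  rw [List.mem_cons] at hv hv'
  rcases hv with hv | hv
  · rcases hv' with hv' | hv'
    · rw [hv] at hv'
      exact h1 (Sum.inl_injective hv')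
    · obtain ⟨s, hs, _⟩ := bl_mem_inn hv'
      rw [hv] at hs
      cases hs
  · obtain ⟨s, hs, hs1⟩ := bl_mem_inn hv
    rcases hv' with hv' | hv'
    · rw [hv'] at hs
      cases hs
    · obtain ⟨s', hs', hs1'⟩ := bl_mem_inn hv'
      rw [hs] at hs'
      have h3 : s = s' := Sum.inr_injective hs'
      rw [h3, hs1'] at hs1
      have h4 : max c d = max a b := congrArg Prod.fst hs1
      have h5 : min c d = min a b := congrArg Prod.snd hs1
      apply h2
      rw [Sym2.eq_iff]
      rcases le_total a b with hab | hab <;> rcases le_total c d with hcd | hcd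
      · rw [max_eq_right hcd, max_eq_right hab] at h4
        rw [min_eq_left hcd, min_eq_left hab] at h5
        left
        rw [h4, h5]
        exact ⟨rfl, rfl⟩
      · rw [max_eq_left hcd, max_eq_right hab] at h4
        rw [min_eq_right hcd, min_eq_left hab] at h5
        right
        rw [h4, h5]
        exact ⟨rfl, rfl⟩
      · rw [max_eq_right hcd, max_eq_left hab] at h4
        rw [min_eq_left hcd, min_eq_right hab] at h5
        right
        rw [h4, h5]
        exact ⟨rfl, rfl⟩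
      · rw [max_eq_left hcd, max_eq_left hab] at h4
        rw [min_eq_right hcd, min_eq_right hab] at h5
        left
        rw [h4, h5]
        exact ⟨rfl, rfl⟩

/-- lifting a cyclic list of old vertices to a cycle of the blow-up of length its weight -/
theorem blow_lower (n : ℕ) (w : ℕ → ℕ → ℕ) (hw : ∀ x y, w x y = w y x) (L : List ℕ)
    (hL : IsCyc (fun x y => 0 < w x y) L) (hn : ∀ x ∈ L, x < n) :
    ∃ l : List (BV n w), IsCyc (BG n w hw).Adj l ∧ l.length = wt w L ∧
      (∀ x : Fin n, Sum.inl x ∈ l → (x : ℕ) ∈ L) ∧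
      (∀ s, Sum.inr s ∈ l → ((s.1.1 : Fin n) : ℕ) ∈ L ∧ ((s.1.2 : Fin n) : ℕ) ∈ L) := by
  obtain ⟨K, hK⟩ : ∃ K : List (Fin n), K.map (fun x : Fin n => (x : ℕ)) = L := by
    refine ⟨L.pmap (fun x h => ⟨x, h⟩) hn, ?_⟩
    rw [List.map_pmap]
    simp
  obtain ⟨hnd, h3, hadj⟩ := hL
  have hmem : ∀ x : Fin n, x ∈ K → (x : ℕ) ∈ L := by
    intro x hx
    rw [← hK]
    exact List.mem_map_of_mem hx
  have hclnk : clnk L = (clnk K).map (fun q => ((q.1 : ℕ), (q.2 : ℕ))) := by
    rw [← hK, bl_clnk_map]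
  have hpos : ∀ q ∈ clnk K, 0 < w q.1 q.2 := by
    intro q hq
    exact hadj ((q.1 : ℕ), (q.2 : ℕ)) (by rw [hclnk]; exact List.mem_map_of_mem hq)
  have hne : ∀ q ∈ clnk K, q.1 ≠ q.2 := by
    intro q hq h
    refine symn_opp L hnd h3 (q.1 : ℕ) (q.2 : ℕ) ?_ ?_
    · rw [hclnk]; exact List.mem_map_of_mem hq
    · have : ((q.1 : ℕ), (q.2 : ℕ)) ∈ clnk L := by rw [hclnk]; exact List.mem_map_of_mem hq
      rw [← h] at this ⊢
      exact this
  have hfst : ((clnk K).map (fun q => (q.1 : ℕ))).Nodup := by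
    have h1 := symn_clnk_fst L
    rw [hclnk, List.map_map] at h1
    have h2 : (clnk K).map (fun q => (q.1 : ℕ)) = L := h1
    rw [h2]
    exact hnd
  have hsym : ((clnk K).map (fun q => s((q.1 : ℕ), (q.2 : ℕ)))).Nodup := by
    have h1 := sym_nodup L hnd h3
    rw [hclnk, List.map_map] at h1
    exact h1
  have hlen : ((clnk K).flatMap (fun q => bl_seg n w q.1 q.2)).length = wt w L := by
    unfold wt
    rw [List.length_flatMap, hclnk, List.map_map]
    congr 1
    refine List.map_congr_left ?_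
    intro q hq
    exact bl_seg_length n w hw q.1 q.2 (hne q hq) (hpos q hq)
  refine ⟨(clnk K).flatMap (fun q => bl_seg n w q.1 q.2), ⟨?_, ?_, ?_⟩, hlen, ?_, ?_⟩
  · rw [List.nodup_flatMap]
    refine ⟨fun q _ => bl_seg_nodup n w q.1 q.2, ?_⟩
    have h1 : (clnk K).Pairwise (fun q q' => (q.1 : ℕ) ≠ (q'.1 : ℕ)) := List.pairwise_map.mp hfst
    have h2 : (clnk K).Pairwise
        (fun q q' => s((q.1 : ℕ), (q.2 : ℕ)) ≠ s((q'.1 : ℕ), (q'.2 : ℕ))) :=
      List.pairwise_map.mp hsym
    refine (h1.and h2).imp ?_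
    intro q q' h
    exact bl_disjoint n w q.1 q.2 q'.1 q'.2 (fun e => h.1 (by rw [e])) h.2
  · rw [hlen]
    have h1 : ((clnk L).map (fun _ => 1)).sum ≤ ((clnk L).map (fun q => w q.1 q.2)).sum := by
      refine List.sum_le_sum ?_
      intro q hq
      exact hadj q hq
    have h2 : ((clnk L).map (fun _ => 1)).sum = L.length := by
      simp
    unfold wt
    omega
  · cases K with
    | nil => intro q hq; simp at hq
    | cons x t =>
      intro q hq
      obtain ⟨r, hr⟩ := bl_flat_cons n w x t x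
      have h1 := bl_flat_lnk n w hw t x x
        (fun q hq => ⟨hne q hq, hpos q hq⟩)
      rw [clnk_cons, hr, clnk_cons] at hq
      rw [hr] at h1
      exact h1 q hq
  · intro x hx
    rw [List.mem_flatMap] at hx
    obtain ⟨q, hq, hx⟩ := hx
    unfold bl_seg at hx
    rw [List.mem_cons] at hx
    rcases hx with hx | hx
    · rw [Sum.inl_injective hx]
      exact hmem _ (mem_clnk hq).1
    · obtain ⟨s, hs, _⟩ := bl_mem_inn hx
      cases hs
  · intro s hs
    rw [List.mem_flatMap] at hs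
    obtain ⟨q, hq, hx⟩ := hs
    unfold bl_seg at hx
    rw [List.mem_cons] at hx
    rcases hx with hx | hx
    · cases hx
    · obtain ⟨s', hs', h1⟩ := bl_mem_inn hx
      rw [Sum.inr_injective hs', h1]
      have h2 := hmem _ (mem_clnk hq).1
      have h3 := hmem _ (mem_clnk hq).2
      show ((max q.1 q.2 : Fin n) : ℕ) ∈ L ∧ ((min q.1 q.2 : Fin n) : ℕ) ∈ L
      rcases le_total q.1 q.2 with h | h
      · rw [max_eq_right h, min_eq_left h]
        exact ⟨h3, h2⟩
      · rw [max_eq_left h, min_eq_right h]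
        exact ⟨h2, h3⟩

end Pool.Agent.LC
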