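import Pool.Agent.LC.Basic

/-!
# Upper bound for the cycles of the blow-up
-/

set_option autoImplicit false

namespace Pool.Agent.LC

section

variable {n : ℕ} {w : ℕ → ℕ → ℕ}

/-- new vertices of the blow-up -/
abbrev bup_NV (n : ℕ) (w : ℕ → ℕ → ℕ) : Type := Σ e : Fin n × Fin n, Fin (bsz w e.1 e.2)

/-- the old vertex, as a number -/
def bup_old : BV n w → Option ℕ
  | Sum.inl x => some (x : ℕ)
  | Sum.inr _ => none

theorem bup_count (C : List (bup_NV n w)) (hC : C.Nodup) (e : Fin n × Fin n)
    (h : ∀ t ∈ C, t.1 = e) : C.length ≤ bsz w e.1 e.2 := by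
  rw [← List.toFinset_card_of_nodup hC]
  have hsub : C.toFinset ⊆ (Finset.univ : Finset (Fin (bsz w e.1 e.2))).image
      (fun i => (⟨e, i⟩ : bup_NV n w)) := by
    intro t ht
    rw [List.mem_toFinset] at ht
    have h1 := h t ht
    obtain ⟨e', i⟩ := t
    have h2 : e' = e := h1
    subst h2
    exact Finset.mem_image.mpr ⟨i, Finset.mem_univ _, rfl⟩
  refine le_trans (Finset.card_le_card hsub) (le_trans Finset.card_image_le ?_)
  simp

theorem bup_chain (hw : ∀ x y, w x y = w y x) (A : List (bup_NV n w)) :
    ∀ (s : bup_NV n w) (z : BV n w),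
      (∀ q ∈ lnk ((Sum.inr s : BV n w) :: A.map Sum.inr) z, (BG n w hw).Adj q.1 q.2) →
      (∀ t ∈ s :: A, t.1 = s.1) ∧ ∃ t : bup_NV n w, t.1 = s.1 ∧ (BG n w hw).Adj (Sum.inr t) z := by
  induction A with
  | nil =>
    intro s z h
    refine ⟨fun t ht => ?_, s, rfl, ?_⟩
    · rw [List.mem_singleton.mp ht]
    · exact h (Sum.inr s, z) (by simp)
  | cons a A ih =>
    intro s z h
    rw [List.map_cons, lnk_cons_cons] at h
    have h1 : (BG n w hw).Adj (Sum.inr s) (Sum.inr a) := h _ (List.mem_cons_self ..)
    have h2 : s.1 = a.1 ∧ s ≠ a := h1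
    obtain ⟨h3, t, ht, h4⟩ := ih a z (fun q hq => h q (List.mem_cons_of_mem _ hq))
    refine ⟨fun u hu => ?_, t, ht.trans h2.1.symm, h4⟩
    rcases List.mem_cons.mp hu with rfl | hu
    · rfl
    · exact (h3 u hu).trans h2.1.symm

/-- the ordered pair -/
def bup_pr (x y : Fin n) : Fin n × Fin n := if y < x then (x, y) else (y, x)

theorem bup_pos (s : bup_NV n w) : s.1.2 < s.1.1 ∧ 2 ≤ w s.1.1 s.1.2 ∧
    bsz w s.1.1 s.1.2 = w s.1.1 s.1.2 - 1 := by
  have h1 : 0 < bsz w s.1.1 s.1.2 := lt_of_le_of_lt (Nat.zero_le _) s.2.isLt
  unfold bsz at h1 ⊢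
  split_ifs at h1 ⊢ with h2
  · exact ⟨h2, by omega, rfl⟩
  · omega

theorem bup_pr_eq (s : bup_NV n w) {x y : Fin n} (hxy : x ≠ y) (hx : x = s.1.1 ∨ x = s.1.2)
    (hy : y = s.1.1 ∨ y = s.1.2) : s.1 = bup_pr x y := by
  have hp := (bup_pos s).1
  unfold bup_pr
  rcases hx with hx | hx <;> rcases hy with hy | hy
  · exact absurd (hx.trans hy.symm) hxy
  · rw [if_pos (by rw [hx, hy]; exact hp), hx, hy]
  · rw [if_neg (by rw [hx, hy]; exact not_lt.mpr hp.le), hx, hy]
  · exact absurd (hx.trans hy.symm) hxy

theorem bup_pr_w (hw : ∀ x y, w x y = w y x) (x y : Fin n) :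
    w (bup_pr x y).1 (bup_pr x y).2 = w x y := by
  unfold bup_pr
  split_ifs
  · rfl
  · exact hw _ _

theorem bup_run (hw : ∀ x y, w x y = w y x) (A : List (bup_NV n w)) (hA : A.Nodup)
    {x y : Fin n} (hxy : x ≠ y)
    (h : ∀ q ∈ lnk ((Sum.inl x : BV n w) :: A.map Sum.inr) (Sum.inl y),
      (BG n w hw).Adj q.1 q.2) :
    (∀ t ∈ A, t.1 = bup_pr x y) ∧ 1 + A.length ≤ w x y := by
  cases A with
  | nil =>
    refine ⟨fun t ht => absurd ht (List.not_mem_nil), ?_⟩
    have h1 : (BG n w hw).Adj (Sum.inl x) (Sum.inl y) := h (Sum.inl x, Sum.inl y) (by simp)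
    have h2 : x ≠ y ∧ 0 < w x y := h1
    have h3 := h2.2
    rw [List.length_nil]
    omega
  | cons s A =>
    rw [List.map_cons, lnk_cons_cons] at h
    have h1 : (BG n w hw).Adj (Sum.inl x) (Sum.inr s) := h _ (List.mem_cons_self ..)
    have h2 : x = s.1.1 ∨ x = s.1.2 := h1
    obtain ⟨h3, t, ht, h4⟩ := bup_chain hw A s (Sum.inl y)
      (fun q hq => h q (List.mem_cons_of_mem _ hq))
    have h5 : y = t.1.1 ∨ y = t.1.2 := h4
    rw [ht] at h5
    have h6 := bup_pr_eq s hxy h2 h5
    have h7 : ∀ u ∈ s :: A, u.1 = bup_pr x y := fun u hu => (h3 u hu).trans h6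
    refine ⟨h7, ?_⟩
    have h8 := bup_count (s :: A) hA s.1 h3
    obtain ⟨-, h9, h10⟩ := bup_pos s
    have h11 : w s.1.1 s.1.2 = w x y := by
      rw [h6]; exact bup_pr_w hw x y
    rw [h10, h11] at h8
    rw [h11] at h9
    omega

theorem bup_nodup {A : List (bup_NV n w)} {t : List (BV n w)}
    (h : (A.map (Sum.inr : bup_NV n w → BV n w) ++ t).Nodup) : A.Nodup :=
  List.Nodup.of_map _ (List.nodup_append.mp h).1

/-- the weight of the list of old vertices -/
theorem bup_claim (hw : ∀ x y, w x y = w y x) (t : List (BV n w)) :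
    ∀ (x z : Fin n) (A : List (bup_NV n w)),
      ((Sum.inl x : BV n w) :: (A.map Sum.inr ++ t)).Nodup →
      (∀ q ∈ lnk ((Sum.inl x : BV n w) :: (A.map Sum.inr ++ t)) (Sum.inl z),
        (BG n w hw).Adj q.1 q.2) →
      (Sum.inl z : BV n w) ∉ t → (t.filterMap bup_old = [] → x ≠ z) →
      1 + A.length + t.length ≤
        ((lnk ((x : ℕ) :: t.filterMap bup_old) (z : ℕ)).map (fun q => w q.1 q.2)).sum ∧
      ∀ q ∈ lnk ((x : ℕ) :: t.filterMap bup_old) (z : ℕ), 0 < w q.1 q.2 := by
  induction t with
  | nil =>
    intro x z A hnd h _ hne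
    rw [List.append_nil] at hnd h
    have hxz : x ≠ z := hne (by simp)
    have hA : A.Nodup := List.Nodup.of_map _ (List.nodup_cons.mp hnd).2
    obtain ⟨-, h2⟩ := bup_run hw A hA hxz h
    refine ⟨by simpa using h2, ?_⟩
    intro q hq
    have : q = ((x : ℕ), (z : ℕ)) := by simpa using hq
    rw [this]
    show 0 < w x z
    omega
  | cons v t ih =>
    intro x z A hnd h hz hne
    rcases v with y | s
    · have hf : (Sum.inl y :: t : List (BV n w)).filterMap bup_old =
          (y : ℕ) :: t.filterMap bup_old := rfl
      rw [← List.cons_append] at hnd h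
      rw [lnk_append] at h
      have hxy : x ≠ y := by
        rintro rfl
        rw [List.cons_append] at hnd
        exact (List.nodup_cons.mp hnd).1 (by simp)
      have hA : A.Nodup := by
        rw [List.cons_append] at hnd
        exact bup_nodup (List.nodup_cons.mp hnd).2
      obtain ⟨-, h2⟩ := bup_run hw A hA hxy (fun q hq => h q (List.mem_append_left _ hq))
      have hnd2 : ((Sum.inl y : BV n w) :: t).Nodup := (List.nodup_append.mp hnd).2.1
      obtain ⟨h3, h4⟩ := ih y z [] (by simpa using hnd2)
        (by simpa using fun q hq => h q (List.mem_append_right _ hq))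
        (fun hm => hz (List.mem_cons_of_mem _ hm)) (by
          intro _ hyz
          exact hz (by rw [hyz]; exact List.mem_cons_self ..))
      rw [hf, lnk_cons_cons]
      refine ⟨?_, ?_⟩
      · rw [List.map_cons, List.sum_cons, List.length_cons]
        simp only [List.length_nil] at h3
        have h5 : w ((x : ℕ), (y : ℕ)).1 ((x : ℕ), (y : ℕ)).2 = w x y := rfl
        rw [h5]
        omega
      · intro q hq
        rcases List.mem_cons.mp hq with rfl | hq
        · show 0 < w x y
          omega
        · exact h4 q hq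
    · have hf : (Sum.inr s :: t : List (BV n w)).filterMap bup_old = t.filterMap bup_old := rfl
      have he : A.map Sum.inr ++ (Sum.inr s :: t : List (BV n w)) =
          (A ++ [s]).map Sum.inr ++ t := by simp
      rw [he] at hnd h
      obtain ⟨h3, h4⟩ := ih x z (A ++ [s]) hnd h
        (fun hm => hz (List.mem_cons_of_mem _ hm)) (by rw [← hf]; exact hne)
      rw [hf]
      refine ⟨?_, h4⟩
      rw [List.length_append, List.length_singleton] at h3
      rw [List.length_cons]
      omega

/-- a list with new vertices only -/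
theorem bup_allnew (t : List (BV n w)) (h : t.filterMap bup_old = []) :
    ∃ A : List (bup_NV n w), t = A.map Sum.inr := by
  induction t with
  | nil => exact ⟨[], rfl⟩
  | cons v t ih =>
    rcases v with y | s
    · have hf : (Sum.inl y :: t : List (BV n w)).filterMap bup_old =
          (y : ℕ) :: t.filterMap bup_old := rfl
      rw [hf] at h
      exact absurd h (List.cons_ne_nil _ _)
    · have hf : (Sum.inr s :: t : List (BV n w)).filterMap bup_old = t.filterMap bup_old := rfl
      rw [hf] at h
      obtain ⟨A, rfl⟩ := ih h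
      exact ⟨s :: A, rfl⟩

/-- the first old vertex of a list -/
theorem bup_first (t : List (BV n w)) (h : t.filterMap bup_old ≠ []) :
    ∃ (A : List (bup_NV n w)) (y : Fin n) (t' : List (BV n w)),
      t = A.map Sum.inr ++ Sum.inl y :: t' := by
  induction t with
  | nil => exact absurd rfl h
  | cons v t ih =>
    rcases v with y | s
    · exact ⟨[], y, t, rfl⟩
    · have hf : (Sum.inr s :: t : List (BV n w)).filterMap bup_old = t.filterMap bup_old := rfl
      rw [hf] at h
      obtain ⟨A, y, t', rfl⟩ := ih h
      exact ⟨s :: A, y, t', rfl⟩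

theorem bup_fm (A : List (bup_NV n w)) (t : List (BV n w)) :
    (A.map Sum.inr ++ t : List (BV n w)).filterMap bup_old = t.filterMap bup_old := by
  induction A with
  | nil => rfl
  | cons a A ih => exact ih

end

theorem blow_upper (n : ℕ) (w : ℕ → ℕ → ℕ) (hw : ∀ x y, w x y = w y x) (M : ℕ)
    (hM : ∀ x < n, ∀ y < n, w x y + 1 ≤ M)
    (hH : ∀ L : List ℕ, IsCyc (fun x y => 0 < w x y) L → (∀ x ∈ L, x < n) → wt w L ≤ M)
    (l : List (BV n w)) (hl : IsCyc (BG n w hw).Adj l) : l.length ≤ M := by
  have hMe : ∀ s : bup_NV n w, bsz w s.1.1 s.1.2 + 2 ≤ M := by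
    intro s
    obtain ⟨-, h9, h10⟩ := bup_pos s
    have := hM s.1.1 s.1.1.isLt s.1.2 s.1.2.isLt
    omega
  by_cases hold : l.filterMap bup_old = []
  · -- no old vertex
    obtain ⟨A, rfl⟩ := bup_allnew l hold
    obtain ⟨hnd, hlen, hadj⟩ := hl
    cases A with
    | nil => simp at hlen
    | cons s A =>
      rw [List.map_cons, clnk_cons] at hadj
      obtain ⟨h3, -⟩ := bup_chain hw A s _ hadj
      have h8 := bup_count (s :: A) (List.Nodup.of_map _ hnd) s.1 h3
      rw [List.length_map]
      have := hMe s
      omega
  · obtain ⟨A0, x, t0, hl0⟩ := bup_first l hold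
    obtain ⟨k, t, hk⟩ := exists_rotate_cons l (Sum.inl x) (by rw [hl0]; simp)
    have hl' := hl.rotate k
    rw [hk] at hl'
    have hlenk : l.length = (Sum.inl x :: t : List (BV n w)).length := by
      rw [← hk, List.length_rotate]
    rw [hlenk]
    obtain ⟨hnd, hlen, hadj⟩ := hl'
    rw [clnk_cons] at hadj
    have hxt : (Sum.inl x : BV n w) ∉ t := (List.nodup_cons.mp hnd).1
    by_cases hold1 : t.filterMap bup_old = []
    · -- one old vertex
      obtain ⟨A, rfl⟩ := bup_allnew t hold1
      cases A with
      | nil => simp at hlen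
      | cons s A =>
        rw [List.map_cons, lnk_cons_cons] at hadj
        obtain ⟨h3, -⟩ := bup_chain hw A s _ (fun q hq => hadj q (List.mem_cons_of_mem _ hq))
        have h8 := bup_count (s :: A) (List.Nodup.of_map _ (List.nodup_cons.mp hnd).2) s.1 h3
        rw [List.length_cons, List.length_map]
        have := hMe s
        omega
    · obtain ⟨A, y, t', rfl⟩ := bup_first t hold1
      have hxy : x ≠ y := by
        rintro rfl
        exact hxt (by simp)
      by_cases hold2 : t'.filterMap bup_old = []
      · -- two old vertices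
        obtain ⟨B, rfl⟩ := bup_allnew t' hold2
        rw [← List.cons_append, lnk_append] at hadj
        have hndA : (A.map (Sum.inr : bup_NV n w → BV n w) ++
            Sum.inl y :: B.map Sum.inr).Nodup := (List.nodup_cons.mp hnd).2
        have hndB : (Sum.inl y :: B.map Sum.inr : List (BV n w)).Nodup :=
          (List.nodup_append.mp hndA).2.1
        have hAB : (A ++ B).Nodup := by
          apply List.Nodup.of_map (Sum.inr : bup_NV n w → BV n w)
          rw [List.map_append]
          exact hndA.sublist (List.Sublist.append_left (List.sublist_cons_self _ _) _)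
        obtain ⟨a1, a2⟩ := bup_run hw A (bup_nodup hndA) hxy
          (fun q hq => hadj q (List.mem_append_left _ hq))
        obtain ⟨b1, b2⟩ := bup_run hw B (List.Nodup.of_map _ (List.nodup_cons.mp hndB).2)
          (Ne.symm hxy) (fun q hq => hadj q (List.mem_append_right _ hq))
        have hpr : bup_pr y x = bup_pr x y := by
          unfold bup_pr
          rcases lt_trichotomy x y with h | h | h
          · rw [if_pos h, if_neg (not_lt.mpr h.le)]
          · exact absurd h hxy
          · rw [if_neg (not_lt.mpr h.le), if_pos h]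
        have h8 := bup_count (A ++ B) hAB (bup_pr x y) (by
          intro u hu
          rcases List.mem_append.mp hu with hu | hu
          · exact a1 u hu
          · rw [← hpr]; exact b1 u hu)
        have h9 : bsz w (bup_pr x y).1 (bup_pr x y).2 ≤ w x y - 1 := by
          have h10 := bup_pr_w hw x y
          unfold bsz
          split_ifs
          · rw [h10]
          · exact Nat.zero_le _
        have h11 := hM x x.isLt y y.isLt
        rw [List.length_append] at h8
        simp only [List.length_cons, List.length_append, List.length_map]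
        omega
      · -- at least three old vertices
        obtain ⟨C, z, t'', rfl⟩ := bup_first t' hold2
        set T : List (BV n w) := A.map Sum.inr ++ Sum.inl y :: (C.map Sum.inr ++ Sum.inl z :: t'')
          with hT
        obtain ⟨h3, h4⟩ := bup_claim hw T x x [] (by simpa using hnd) (by simpa using hadj)
          hxt (fun h => absurd h hold1)
        set L : List ℕ := (x : ℕ) :: T.filterMap bup_old with hL
        have hcyc : IsCyc (fun x y => 0 < w x y) L := by
          refine ⟨?_, ?_, ?_⟩
          · have hLe : L = (Sum.inl x :: T : List (BV n w)).filterMap bup_old := rfl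
            rw [hLe]
            refine hnd.filterMap ?_
            intro a a' b hb hb'
            rcases a with a | a <;> rcases a' with a' | a'
            · have h5 : (a : ℕ) = b := by simpa [bup_old] using hb
              have h6 : (a' : ℕ) = b := by simpa [bup_old] using hb'
              rw [Fin.ext (h5.trans h6.symm)]
            · simp [bup_old] at hb'
            · simp [bup_old] at hb
            · simp [bup_old] at hb
          · have h5 : T.filterMap bup_old = (y : ℕ) :: (z : ℕ) :: t''.filterMap bup_old := by
              rw [hT, bup_fm]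
              have h6 : (Sum.inl y :: (C.map Sum.inr ++ Sum.inl z :: t'') :
                  List (BV n w)).filterMap bup_old =
                  (y : ℕ) :: (C.map Sum.inr ++ Sum.inl z :: t'' :
                    List (BV n w)).filterMap bup_old := rfl
              rw [h6, bup_fm]
              rfl
            rw [hL, h5]
            simp
          · intro q hq
            exact h4 q hq
        have hlt : ∀ v ∈ L, v < n := by
          intro v hv
          rcases List.mem_cons.mp hv with rfl | hv
          · exact x.isLt
          · obtain ⟨u, -, hu⟩ := List.mem_filterMap.mp hv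
            rcases u with u | u
            · have h5 : (u : ℕ) = v := by simpa [bup_old] using hu
              rw [← h5]; exact u.isLt
            · simp [bup_old] at hu
        have h7 := hH L hcyc hlt
        have h8 : wt w L = ((lnk L (x : ℕ)).map (fun q => w q.1 q.2)).sum := rfl
        rw [h8] at h7
        rw [List.length_cons]
        simp only [List.length_nil] at h3
        omega

end Pool.Agent.LC
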