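import Pool.Agent.LC.Basic

/-!
# Every vertex of a cyclic list has at most two links
-/

set_option autoImplicit false

namespace Pool.Agent.LC

private theorem map_fst_lnk {α : Type*} (l : List α) (z : α) :
    (lnk l z).map Prod.fst = l := by
  induction l with
  | nil => simp
  | cons x t ih =>
    cases t with
    | nil => simp
    | cons y t =>
      rw [lnk_cons_cons, List.map_cons, ih]

private theorem map_snd_lnk {α : Type*} (x : α) (t : List α) (z : α) :
    (lnk (x :: t) z).map Prod.snd = t ++ [z] := by
  induction t generalizing x with
  | nil => simp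
  | cons y t ih =>
    rw [lnk_cons_cons, List.map_cons, ih]
    simp

private theorem map_fst_clnk {α : Type*} (l : List α) : (clnk l).map Prod.fst = l := by
  cases l with
  | nil => simp
  | cons x t => rw [clnk_cons, map_fst_lnk]

private theorem map_snd_clnk_nodup {α : Type*} (l : List α) (h : l.Nodup) :
    ((clnk l).map Prod.snd).Nodup := by
  cases l with
  | nil => simp
  | cons x t =>
    rw [clnk_cons, map_snd_lnk]
    have hp : (x :: t).Perm (t ++ [x]) := (List.perm_append_singleton x t).symm
    exact hp.nodup_iff.mp h

private theorem filter_length_le_one {β : Type*} (f : β → ℕ) (L : List β)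
    (h : (L.map f).Nodup) (x : ℕ) : (L.filter (fun q => decide (f q = x))).length ≤ 1 := by
  have h1 := List.nodup_iff_count_le_one.mp h x
  rw [List.count, List.countP_map, List.countP_eq_length_filter] at h1
  refine le_trans (le_of_eq ?_) h1
  congr 1

theorem dg_le (l : List ℕ) (h : l.Nodup) (h3 : 3 ≤ l.length) (x : ℕ) : dg (lset l) x ≤ 2 := by
  have _ := h3
  have hf : ((clnk l).map Prod.fst).Nodup := by rw [map_fst_clnk]; exact h
  have hs := map_snd_clnk_nodup l h
  have h1 := filter_length_le_one Prod.fst (clnk l) hf x
  have h2 := filter_length_le_one Prod.snd (clnk l) hs x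
  have hsub : (lset l).filter (fun e => x ∈ e) ⊆
      (((clnk l).filter (fun q => decide (q.1 = x))).map (fun q => s(q.1, q.2))).toFinset ∪
      (((clnk l).filter (fun q => decide (q.2 = x))).map (fun q => s(q.1, q.2))).toFinset := by
    intro e he
    rw [Finset.mem_filter] at he
    obtain ⟨he, hx⟩ := he
    unfold lset at he
    rw [List.mem_toFinset, List.mem_map] at he
    obtain ⟨q, hq, rfl⟩ := he
    rw [Sym2.mem_iff] at hx
    rw [Finset.mem_union, List.mem_toFinset, List.mem_toFinset, List.mem_map, List.mem_map]
    rcases hx with hx | hx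
    · left
      exact ⟨q, by simp [List.mem_filter, hq, hx], rfl⟩
    · right
      exact ⟨q, by simp [List.mem_filter, hq, hx], rfl⟩
  unfold dg
  refine le_trans (Finset.card_le_card hsub) ?_
  refine le_trans (Finset.card_union_le _ _) ?_
  have c1 := List.toFinset_card_le
    (((clnk l).filter (fun q => decide (q.1 = x))).map (fun q => s(q.1, q.2)))
  have c2 := List.toFinset_card_le
    (((clnk l).filter (fun q => decide (q.2 = x))).map (fun q => s(q.1, q.2)))
  rw [List.length_map] at c1 c2
  omega

end Pool.Agent.LC
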