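import Pool.Agent.LC.Basic

/-!
# Removing a vertex from a cyclic list
-/

set_option autoImplicit false

namespace Pool.Agent.LC

/-- `remove` for a list in normal position -/
theorem remove_aux (i x y a : ℕ) (m : List ℕ)
    (h : (i :: x :: a :: (m ++ [y])).Nodup) :
    x ≠ y ∧ s(i, x) ∈ lset (i :: x :: a :: (m ++ [y])) ∧
      s(i, y) ∈ lset (i :: x :: a :: (m ++ [y])) ∧
      s(x, y) ∉ lset (i :: x :: a :: (m ++ [y])) ∧
      (∀ e ∈ lset (i :: x :: a :: (m ++ [y])), i ∈ e → e = s(i, x) ∨ e = s(i, y)) ∧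
      lset (x :: a :: (m ++ [y])) = insert s(x, y)
        (((lset (i :: x :: a :: (m ++ [y]))).erase s(i, x)).erase s(i, y)) := by
  have hc1 : clnk (i :: x :: a :: (m ++ [y])) =
      (i, x) :: (x, a) :: (lnk (a :: m) y ++ [(y, i)]) := by
    rw [clnk_cons, lnk_cons_cons, lnk_cons_cons,
      show a :: (m ++ [y]) = (a :: m) ++ y :: [] from rfl, lnk_append, lnk_single]
  have hc2 : clnk (x :: a :: (m ++ [y])) = (x, a) :: (lnk (a :: m) y ++ [(y, x)]) := by
    rw [clnk_cons, lnk_cons_cons,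
      show a :: (m ++ [y]) = (a :: m) ++ y :: [] from rfl, lnk_append, lnk_single]
  simp only [List.nodup_cons, List.mem_cons, List.mem_append, not_or,
    List.not_mem_nil, or_false] at h
  obtain ⟨⟨hix, hia, him, hiy⟩, ⟨hxa, hxm, hxy⟩, ⟨ham, hay⟩, hmy⟩ := h
  have hmy' : ∀ z ∈ m, z ≠ y := by
    intro z hz e
    rw [List.nodup_append] at hmy
    exact hmy.2.2 z hz y (by simp) e
  -- the inner links
  have hin : ∀ q ∈ lnk (a :: m) y, (q.1 = a ∨ q.1 ∈ m) ∧ (q.2 = a ∨ q.2 ∈ m ∨ q.2 = y) := by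
    intro q hq
    obtain ⟨h1, h2⟩ := mem_lnk hq
    refine ⟨by simpa using h1, ?_⟩
    rcases h2 with h2 | h2
    · rcases List.mem_cons.1 h2 with h3 | h3
      · exact Or.inl h3
      · exact Or.inr (Or.inl h3)
    · exact Or.inr (Or.inr h2)
  have hA : ∀ q ∈ lnk (a :: m) y, i ∉ s(q.1, q.2) ∧ s(q.1, q.2) ≠ s(x, y) := by
    intro q hq
    obtain ⟨h1, h2⟩ := hin q hq
    have e1 : q.1 ≠ i := by
      rintro rfl
      rcases h1 with h1 | h1
      · exact hia h1
      · exact him h1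
    have e2 : q.2 ≠ i := by
      rintro rfl
      rcases h2 with h2 | h2 | h2
      · exact hia h2
      · exact him h2
      · exact hiy h2
    have e3 : q.1 ≠ x := by
      rintro rfl
      rcases h1 with h1 | h1
      · exact hxa h1
      · exact hxm h1
    have e4 : q.1 ≠ y := by
      intro e
      rcases h1 with h1 | h1
      · exact hay (h1.symm.trans e)
      · exact hmy' _ h1 e
    refine ⟨?_, ?_⟩
    · rw [Sym2.mem_iff]
      rintro (e | e)
      · exact e1 e.symm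
      · exact e2 e.symm
    · intro e
      rcases Sym2.eq_iff.1 e with ⟨e5, _⟩ | ⟨e5, _⟩
      · exact e3 e5
      · exact e4 e5
  -- membership in the sets of links
  have hm1 : ∀ e, e ∈ lset (i :: x :: a :: (m ++ [y])) ↔
      e = s(i, x) ∨ e = s(x, a) ∨ (∃ q ∈ lnk (a :: m) y, s(q.1, q.2) = e) ∨ e = s(i, y) := by
    intro e
    rw [lset, hc1, List.mem_toFinset]
    simp only [List.map_cons, List.map_append, List.map_nil, List.mem_cons, List.mem_append,
      List.mem_map, List.not_mem_nil, or_false]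
    rw [Sym2.eq_swap (a := y) (b := i)]
  have hm2 : ∀ e, e ∈ lset (x :: a :: (m ++ [y])) ↔
      e = s(x, a) ∨ (∃ q ∈ lnk (a :: m) y, s(q.1, q.2) = e) ∨ e = s(x, y) := by
    intro e
    rw [lset, hc2, List.mem_toFinset]
    simp only [List.map_cons, List.map_append, List.map_nil, List.mem_cons, List.mem_append,
      List.mem_map, List.not_mem_nil, or_false]
    rw [Sym2.eq_swap (a := y) (b := x)]
  have hxai : i ∉ s(x, a) := by
    rw [Sym2.mem_iff]
    rintro (e | e)
    · exact hix e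
    · exact hia e
  have hxaxy : s(x, y) ≠ s(x, a) := by
    intro e
    rcases Sym2.eq_iff.1 e with ⟨_, e5⟩ | ⟨e4, e5⟩
    · exact hay e5.symm
    · exact hxa e4
  have hixy : i ∉ s(x, y) := by
    rw [Sym2.mem_iff]
    rintro (e | e)
    · exact hix e
    · exact hiy e
  have hi1 : ∀ z, i ∈ s(i, z) := fun z => Sym2.mem_mk_left i z
  refine ⟨hxy, (hm1 _).2 (Or.inl rfl), (hm1 _).2 (Or.inr (Or.inr (Or.inr rfl))), ?_, ?_, ?_⟩
  · rw [hm1]
    rintro (e | e | ⟨q, hq, e⟩ | e)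
    · exact hixy (e ▸ hi1 x)
    · exact hxaxy e
    · exact (hA q hq).2 e
    · exact hixy (e ▸ hi1 y)
  · intro e he hie
    rcases (hm1 e).1 he with h1 | h1 | ⟨q, hq, h1⟩ | h1
    · exact Or.inl h1
    · exact absurd (h1 ▸ hie) hxai
    · exact absurd (h1 ▸ hie) (hA q hq).1
    · exact Or.inr h1
  · ext e
    rw [hm2, Finset.mem_insert, Finset.mem_erase, Finset.mem_erase, hm1]
    constructor
    · rintro (h1 | ⟨q, hq, h1⟩ | h1)
      · refine Or.inr ⟨?_, ?_, Or.inr (Or.inl h1)⟩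
        · intro e1
          exact hxai (h1 ▸ e1 ▸ hi1 y)
        · intro e1
          exact hxai (h1 ▸ e1 ▸ hi1 x)
      · refine Or.inr ⟨?_, ?_, Or.inr (Or.inr (Or.inl ⟨q, hq, h1⟩))⟩
        · intro e1
          exact (hA q hq).1 (h1.symm ▸ e1 ▸ hi1 y)
        · intro e1
          exact (hA q hq).1 (h1.symm ▸ e1 ▸ hi1 x)
      · exact Or.inl h1
    · rintro (h1 | ⟨h1, h2, h3⟩)
      · exact Or.inr (Or.inr h1)
      · rcases h3 with h3 | h3 | h3 | h3
        · exact absurd h3 h2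
        · exact Or.inl h3
        · exact Or.inr (Or.inl h3)
        · exact absurd h3 h1

theorem remove (l : List ℕ) (h : l.Nodup) (h4 : 4 ≤ l.length) (i : ℕ) (hi : i ∈ l) :
    ∃ (l' : List ℕ) (x y : ℕ), l'.Nodup ∧ l'.length + 1 = l.length ∧
      (∀ z, z ∈ l' ↔ z ∈ l ∧ z ≠ i) ∧ x ≠ y ∧ x ∈ l' ∧ y ∈ l' ∧
      s(i, x) ∈ lset l ∧ s(i, y) ∈ lset l ∧ s(x, y) ∉ lset l ∧
      (∀ e ∈ lset l, i ∈ e → e = s(i, x) ∨ e = s(i, y)) ∧
      lset l' = insert s(x, y) (((lset l).erase s(i, x)).erase s(i, y)) := by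
  obtain ⟨k, t, hk⟩ := exists_rotate_cons l i hi
  have hnd : (i :: t).Nodup := by
    rw [← hk]; exact List.nodup_rotate.mpr h
  have hlen : (i :: t).length = l.length := by
    rw [← hk]; exact List.length_rotate _ _
  have hmem : ∀ z, z ∈ i :: t ↔ z ∈ l := by
    intro z
    rw [← hk]; exact List.mem_rotate
  have hls : lset (i :: t) = lset l := by
    rw [← hk]; exact lset_rotate l k
  rcases t with _ | ⟨x, _ | ⟨a, t⟩⟩
  · simp at hlen; omega
  · simp at hlen; omega
  rcases List.eq_nil_or_concat t with rfl | ⟨m, y, rfl⟩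
  · simp at hlen; omega
  rw [List.concat_eq_append] at hnd hlen hmem hls
  obtain ⟨h1, h2, h3, h5, h6, h7⟩ := remove_aux i x y a m hnd
  rw [hls] at h2 h3 h5 h6 h7
  refine ⟨x :: a :: (m ++ [y]), x, y, (List.nodup_cons.1 hnd).2, ?_, ?_, h1, ?_, ?_, h2, h3, h5,
    h6, h7⟩
  · rw [← hlen]; rfl
  · intro z
    rw [← hmem z]
    constructor
    · intro hz
      refine ⟨List.mem_cons_of_mem _ hz, ?_⟩
      rintro rfl
      exact (List.nodup_cons.1 hnd).1 hz
    · rintro ⟨hz, hzi⟩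
      exact (List.mem_cons.1 hz).resolve_left hzi
  · simp
  · simp

end Pool.Agent.LC
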