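import Pool.Agent.LC.Basic

/-!
# The links of a triangle
-/

set_option autoImplicit false

namespace Pool.Agent.LC

theorem triangle (l : List ℕ) (h : l.Nodup) (h3 : l.length = 3) (i : ℕ) (hi : i ∈ l) :
    ∃ x y : ℕ, x ≠ y ∧ x ≠ i ∧ y ≠ i ∧ x ∈ l ∧ y ∈ l ∧
      lset l = {s(i, x), s(i, y), s(x, y)} := by
  obtain ⟨k, t, hk⟩ := exists_rotate_cons l i hi
  have hlen : (i :: t).length = 3 := by rw [← hk, List.length_rotate, h3]
  have hnd : (i :: t).Nodup := by rw [← hk]; exact List.nodup_rotate.mpr h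
  match t, hlen, hnd, hk with
  | [x, y], _, hnd, hk =>
    have hmem : ∀ z, z ∈ l ↔ z ∈ [i, x, y] := by
      intro z
      rw [← hk, List.mem_rotate]
    simp only [List.nodup_cons, List.mem_cons, List.not_mem_nil, or_false, not_or,
      List.nodup_nil, and_true, not_false_eq_true] at hnd
    obtain ⟨⟨h1, h2⟩, h4⟩ := hnd
    refine ⟨x, y, h4, fun e => h1 e.symm, fun e => h2 e.symm, ?_, ?_, ?_⟩
    · rw [hmem]; simp
    · rw [hmem]; simp
    · rw [← lset_rotate l k, hk]
      unfold lset
      ext e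
      simp only [clnk_cons, lnk_cons_cons, lnk_single, List.map_cons, List.map_nil,
        List.mem_toFinset, List.mem_cons, List.not_mem_nil, or_false, Finset.mem_insert,
        Finset.mem_singleton]
      rw [Sym2.eq_swap (a := y) (b := i)]
      tauto

end Pool.Agent.LC
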