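import Pool.Agent.LC.SymN
import Pool.Agent.LC.Deg
import Pool.Agent.LC.Rem
import Pool.Agent.LC.Tri

/-!
# Soundness of the abstract dynamic programme
-/

set_option autoImplicit false

namespace Pool.Agent.LC

/-- links with the label `r` -/
def dpabs_P (lab : Sym2 ℕ → Option ℕ) (S : Finset (Sym2 ℕ)) (r : ℕ) : Finset (Sym2 ℕ) :=
  S.filter (fun e => lab e = some r)

/-- live labels at stage `k` -/
def dpabs_LV (D : DP) (k : ℕ) : Finset ℕ := (Finset.range D.n).filter (fun r => k ≤ r ∧ D.p r < k)

/-- labels which are alive but not merged at step `k` -/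
def dpabs_OUT (D : DP) (k : ℕ) : Finset ℕ :=
  (Finset.range D.n).filter (fun r => k + 1 ≤ r ∧ D.p r < k)

/-- a state at stage `k` -/
structure dpabs_St (D : DP) (ws : Sym2 ℕ → ℕ) (k W : ℕ) (l : List ℕ) (lab : Sym2 ℕ → Option ℕ)
    (t : ℕ → ℕ) : Prop where
  nd : l.Nodup
  len : 3 ≤ l.length
  lt : ∀ x ∈ l, x < k
  raw : ∀ e ∈ lset l, lab e = none → 0 < ws e
  lv : ∀ e ∈ lset l, ∀ r, lab e = some r → k ≤ r ∧ r < D.n ∧ D.p r < k
  emp : ∀ r, k ≤ r → r < D.n → D.p r < k → dpabs_P lab (lset l) r = ∅ → t r = 0
  bb : ∀ r, k ≤ r → r < D.n → D.p r < k → dpabs_P lab (lset l) r ≠ ∅ →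
    D.B r (dpabs_P lab (lset l) r) (t r)
  sum : W ≤ ∑ r ∈ dpabs_LV D k, t r + ∑ e ∈ (lset l).filter (fun e => lab e = none), ws e

theorem dpabs_dg_mono {U S : Finset (Sym2 ℕ)} (h : U ⊆ S) (x : ℕ) : dg U x ≤ dg S x :=
  Finset.card_le_card (Finset.filter_subset_filter _ h)

theorem dpabs_mem_P {lab : Sym2 ℕ → Option ℕ} {S : Finset (Sym2 ℕ)} {r : ℕ} {e : Sym2 ℕ} :
    e ∈ dpabs_P lab S r ↔ e ∈ S ∧ lab e = some r := by
  unfold dpabs_P
  rw [Finset.mem_filter]

/-- raw neighbours of `k` -/
def dpabs_R (lab : Sym2 ℕ → Option ℕ) (S : Finset (Sym2 ℕ)) (k : ℕ) : Finset ℕ :=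
  (Finset.range k).filter (fun y => s(k, y) ∈ S ∧ lab s(k, y) = none)

section step

variable {D : DP} {ws : Sym2 ℕ → ℕ} {k W : ℕ} {l : List ℕ} {lab : Sym2 ℕ → Option ℕ} {t : ℕ → ℕ}

theorem dpabs_other (hS : dpabs_St D ws (k + 1) W l lab t) {e : Sym2 ℕ} (he : e ∈ lset l)
    (hk : k ∈ e) : ∃ y, y < k ∧ e = s(k, y) := by
  obtain ⟨y, rfl⟩ := Sym2.mem_iff_exists.1 hk
  have hy : y ∈ l := lset_mem l _ he y (Sym2.mem_mk_right k y)
  have h1 := hS.lt y hy
  have h2 := lset_not_diag l hS.nd hS.len _ he
  rw [Sym2.mk_isDiag_iff] at h2
  exact ⟨y, by omega, rfl⟩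

theorem dpabs_mem_U (hS : dpabs_St D ws (k + 1) W l lab t) (e : Sym2 ℕ) :
    e ∈ D.uni k (dpabs_P lab (lset l)) (dpabs_R lab (lset l) k) ↔
      e ∈ lset l ∧ ((∃ r, lab e = some r ∧ D.p r = k) ∨ (lab e = none ∧ k ∈ e)) := by
  unfold DP.uni
  rw [Finset.mem_union, Finset.mem_biUnion, Finset.mem_image]
  constructor
  · rintro (⟨c, hc, he⟩ | ⟨y, hy, rfl⟩)
    · rw [dpabs_mem_P] at he
      unfold DP.ch at hc
      rw [Finset.mem_filter] at hc
      exact ⟨he.1, Or.inl ⟨c, he.2, hc.2⟩⟩
    · unfold dpabs_R at hy
      rw [Finset.mem_filter] at hy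
      exact ⟨hy.2.1, Or.inr ⟨hy.2.2, Sym2.mem_mk_left k y⟩⟩
  · rintro ⟨he, ⟨r, hr, hp⟩ | ⟨hn, hk⟩⟩
    · left
      obtain ⟨h1, h2, -⟩ := hS.lv e he r hr
      refine ⟨r, ?_, dpabs_mem_P.2 ⟨he, hr⟩⟩
      unfold DP.ch
      rw [Finset.mem_filter, Finset.mem_Ioo]
      exact ⟨⟨by omega, h2⟩, hp⟩
    · right
      obtain ⟨y, hy, rfl⟩ := dpabs_other hS he hk
      refine ⟨y, ?_, rfl⟩
      unfold dpabs_R
      rw [Finset.mem_filter, Finset.mem_range]
      exact ⟨hy, he, hn⟩

theorem dpabs_at (h : D.Sound) (hS : dpabs_St D ws (k + 1) W l lab t) {e : Sym2 ℕ}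
    (he : e ∈ lset l) (hk : k ∈ e) :
    e ∈ D.uni k (dpabs_P lab (lset l)) (dpabs_R lab (lset l) k) := by
  rw [dpabs_mem_U hS]
  refine ⟨he, ?_⟩
  cases hl : lab e with
  | none => exact Or.inr ⟨rfl, hk⟩
  | some r =>
    left
    obtain ⟨h1, h2, h3⟩ := hS.lv e he r hl
    have hP : e ∈ dpabs_P lab (lset l) r := dpabs_mem_P.2 ⟨he, hl⟩
    have hB := hS.bb r h1 h2 h3 (Finset.ne_empty_of_mem hP)
    have := h.lo r _ _ hB e hP k hk
    exact ⟨r, rfl, by omega⟩

theorem dpabs_good (h : D.Sound) (hw : ∀ x y, ws s(x, y) = D.w x y) (hkn : k < D.n)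
    (hS : dpabs_St D ws (k + 1) W l lab t) :
    D.Good k (D.uni k (dpabs_P lab (lset l)) (dpabs_R lab (lset l) k))
      (∑ c ∈ D.ch k, t c + ∑ y ∈ dpabs_R lab (lset l) k, D.w k y) := by
  have hsub : D.uni k (dpabs_P lab (lset l)) (dpabs_R lab (lset l) k) ⊆ lset l := by
    intro e he
    exact ((dpabs_mem_U hS e).1 he).1
  apply h.elim k hkn
  · intro c hc
    unfold DP.ch at hc
    rw [Finset.mem_filter, Finset.mem_Ioo] at hc
    by_cases hP : dpabs_P lab (lset l) c = ∅
    · exact Or.inl ⟨hP, hS.emp c (by omega) (by omega) (by omega) hP⟩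
    · exact Or.inr (hS.bb c (by omega) (by omega) (by omega) hP)
  · intro y hy
    unfold dpabs_R at hy
    rw [Finset.mem_filter, Finset.mem_range] at hy
    refine ⟨hy.1, ?_⟩
    rw [← hw]
    exact hS.raw _ hy.2.1 hy.2.2
  · intro c _ c' _ hcc
    rw [Finset.disjoint_left]
    intro e he he'
    rw [dpabs_mem_P] at he he'
    apply hcc
    have := he.2.symm.trans he'.2
    exact Option.some.inj this
  · intro c _ y hy hc
    unfold dpabs_R at hy
    rw [Finset.mem_filter] at hy
    rw [dpabs_mem_P] at hc
    rw [hy.2.2] at hc
    exact absurd hc.2 (by simp)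
  · intro x
    exact (dpabs_dg_mono hsub x).trans (dg_le l hS.nd hS.len x)
  · intro e he
    exact lset_not_diag l hS.nd hS.len e (hsub he)

theorem dpabs_sum (hw : ∀ x y, ws s(x, y) = D.w x y)
    (hS : dpabs_St D ws (k + 1) W l lab t) :
    W ≤ (∑ c ∈ D.ch k, t c + ∑ y ∈ dpabs_R lab (lset l) k, D.w k y) +
      ∑ r ∈ dpabs_OUT D k, t r +
      ∑ e ∈ (lset l \ D.uni k (dpabs_P lab (lset l)) (dpabs_R lab (lset l) k)).filter
        (fun e => lab e = none), ws e := by
  have h1 : ∑ r ∈ dpabs_LV D (k + 1), t r = ∑ c ∈ D.ch k, t c + ∑ r ∈ dpabs_OUT D k, t r := by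
    rw [← Finset.sum_filter_add_sum_filter_not (dpabs_LV D (k + 1)) (fun r => D.p r = k)]
    congr 1
    · apply Finset.sum_congr _ (fun _ _ => rfl)
      ext r
      unfold dpabs_LV DP.ch
      rw [Finset.mem_filter, Finset.mem_filter, Finset.mem_filter, Finset.mem_range,
        Finset.mem_Ioo]
      omega
    · apply Finset.sum_congr _ (fun _ _ => rfl)
      ext r
      unfold dpabs_LV dpabs_OUT
      rw [Finset.mem_filter, Finset.mem_filter, Finset.mem_filter, Finset.mem_range]
      omega
  have h2 : ∑ e ∈ (lset l).filter (fun e => lab e = none), ws e =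
      ∑ y ∈ dpabs_R lab (lset l) k, D.w k y +
      ∑ e ∈ (lset l \ D.uni k (dpabs_P lab (lset l)) (dpabs_R lab (lset l) k)).filter
        (fun e => lab e = none), ws e := by
    rw [← Finset.sum_filter_add_sum_filter_not ((lset l).filter (fun e => lab e = none))
      (fun e => k ∈ e)]
    congr 1
    · have e1 : ((lset l).filter (fun e => lab e = none)).filter (fun e => k ∈ e) =
          (dpabs_R lab (lset l) k).image (fun y => s(k, y)) := by
        ext e
        rw [Finset.mem_filter, Finset.mem_filter, Finset.mem_image]
        constructor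
        · rintro ⟨⟨he, hn⟩, hk⟩
          obtain ⟨y, hy, rfl⟩ := dpabs_other hS he hk
          refine ⟨y, ?_, rfl⟩
          unfold dpabs_R
          rw [Finset.mem_filter, Finset.mem_range]
          exact ⟨hy, he, hn⟩
        · rintro ⟨y, hy, rfl⟩
          unfold dpabs_R at hy
          rw [Finset.mem_filter] at hy
          exact ⟨⟨hy.2.1, hy.2.2⟩, Sym2.mem_mk_left k y⟩
      rw [e1, Finset.sum_image]
      · apply Finset.sum_congr rfl
        intro y _
        exact hw k y
      · intro y _ y' _ hyy
        exact Sym2.congr_right.1 hyy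
    · apply Finset.sum_congr _ (fun _ _ => rfl)
      ext e
      rw [Finset.mem_filter, Finset.mem_filter, Finset.mem_filter, Finset.mem_sdiff,
        dpabs_mem_U hS]
      constructor
      · rintro ⟨⟨he, hn⟩, hk⟩
        refine ⟨⟨he, ?_⟩, hn⟩
        rintro ⟨-, ⟨r, hr, -⟩ | ⟨-, hk'⟩⟩
        · rw [hn] at hr
          exact absurd hr (by simp)
        · exact hk hk'
      · rintro ⟨⟨he, hU⟩, hn⟩
        refine ⟨⟨he, hn⟩, fun hk => hU ⟨he, Or.inr ⟨hn, hk⟩⟩⟩
  have h3 := hS.sum
  rw [h1, h2] at h3
  omega

/-- the new state -/
theorem dpabs_next (hkn : k < D.n) (hpk : D.p k < k)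
    (hw : ∀ x y, ws s(x, y) = D.w x y) (hS : dpabs_St D ws (k + 1) W l lab t)
    (l' : List ℕ) (NU : Finset (Sym2 ℕ)) (hnd : l'.Nodup) (hlen : 3 ≤ l'.length)
    (hlt : ∀ x ∈ l', x < k)
    (hset : ∀ e, e ∈ lset l' ↔ e ∈ NU ∨
      e ∈ lset l \ D.uni k (dpabs_P lab (lset l)) (dpabs_R lab (lset l) k))
    (hdis : ∀ e ∈ NU, e ∉ lset l \ D.uni k (dpabs_P lab (lset l)) (dpabs_R lab (lset l) k))
    (h0 : NU = ∅ → ∑ c ∈ D.ch k, t c + ∑ y ∈ dpabs_R lab (lset l) k, D.w k y = 0)
    (h1 : NU ≠ ∅ → D.B k NU (∑ c ∈ D.ch k, t c + ∑ y ∈ dpabs_R lab (lset l) k, D.w k y)) :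
    dpabs_St D ws k W l' (fun e => if e ∈ NU then some k else lab e)
      (fun r => if r = k then ∑ c ∈ D.ch k, t c + ∑ y ∈ dpabs_R lab (lset l) k, D.w k y
        else t r) := by
  have hPk : dpabs_P (fun e => if e ∈ NU then some k else lab e) (lset l') k = NU := by
    ext e
    rw [dpabs_mem_P]
    constructor
    · rintro ⟨he, hl⟩
      by_contra hNU
      rw [if_neg hNU] at hl
      rcases (hset e).1 he with h | h
      · exact hNU h
      · have := (hS.lv e (Finset.mem_sdiff.1 h).1 k hl).1
        omega
    · intro he
      exact ⟨(hset e).2 (Or.inl he), if_pos he⟩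
  have hPr : ∀ r, r ≠ k → D.p r < k →
      dpabs_P (fun e => if e ∈ NU then some k else lab e) (lset l') r =
        dpabs_P lab (lset l) r := by
    intro r hr hpr
    ext e
    rw [dpabs_mem_P, dpabs_mem_P]
    constructor
    · rintro ⟨he, hl⟩
      by_cases hNU : e ∈ NU
      · rw [if_pos hNU] at hl
        exact absurd (Option.some.inj hl).symm hr
      · rw [if_neg hNU] at hl
        rcases (hset e).1 he with h | h
        · exact absurd h hNU
        · exact ⟨(Finset.mem_sdiff.1 h).1, hl⟩
    · rintro ⟨he, hl⟩
      have hd : e ∈ lset l \ D.uni k (dpabs_P lab (lset l)) (dpabs_R lab (lset l) k) := by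
        rw [Finset.mem_sdiff, dpabs_mem_U hS]
        refine ⟨he, ?_⟩
        rintro ⟨-, ⟨r', hr', hp⟩ | ⟨hn, -⟩⟩
        · rw [hl] at hr'
          have := Option.some.inj hr'
          rw [← this] at hp
          omega
        · rw [hl] at hn
          exact absurd hn (by simp)
      have hNU : e ∉ NU := fun h => hdis e h hd
      exact ⟨(hset e).2 (Or.inr hd), by rw [if_neg hNU]; exact hl⟩
  refine ⟨hnd, hlen, hlt, ?_, ?_, ?_, ?_, ?_⟩
  · intro e he hl
    by_cases hNU : e ∈ NU
    · rw [if_pos hNU] at hl
      exact absurd hl (by simp)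
    · rw [if_neg hNU] at hl
      rcases (hset e).1 he with h | h
      · exact absurd h hNU
      · exact hS.raw e (Finset.mem_sdiff.1 h).1 hl
  · intro e he r hl
    by_cases hNU : e ∈ NU
    · rw [if_pos hNU] at hl
      have := Option.some.inj hl
      subst this
      exact ⟨le_rfl, hkn, hpk⟩
    · rw [if_neg hNU] at hl
      rcases (hset e).1 he with h | h
      · exact absurd h hNU
      · rw [Finset.mem_sdiff, dpabs_mem_U hS] at h
        obtain ⟨a1, a2, a3⟩ := hS.lv e h.1 r hl
        have : D.p r ≠ k := fun hp => h.2 ⟨h.1, Or.inl ⟨r, hl, hp⟩⟩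
        exact ⟨by omega, a2, by omega⟩
  · intro r hr1 hr2 hr3 hP
    by_cases hr : r = k
    · subst hr
      rw [if_pos rfl]
      rw [hPk] at hP
      exact h0 hP
    · rw [if_neg hr]
      rw [hPr r hr hr3] at hP
      exact hS.emp r (by omega) hr2 (by omega) hP
  · intro r hr1 hr2 hr3 hP
    by_cases hr : r = k
    · subst hr
      rw [if_pos rfl, hPk]
      rw [hPk] at hP
      exact h1 hP
    · rw [if_neg hr, hPr r hr hr3]
      rw [hPr r hr hr3] at hP
      exact hS.bb r (by omega) hr2 (by omega) hP
  · have e1 : dpabs_LV D k = insert k (dpabs_OUT D k) := by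
      ext r
      unfold dpabs_LV dpabs_OUT
      rw [Finset.mem_insert, Finset.mem_filter, Finset.mem_filter, Finset.mem_range]
      constructor
      · rintro ⟨a1, a2, a3⟩
        by_cases hr : r = k
        · exact Or.inl hr
        · exact Or.inr ⟨a1, by omega, a3⟩
      · rintro (rfl | ⟨a1, a2, a3⟩)
        · exact ⟨hkn, le_rfl, hpk⟩
        · exact ⟨a1, by omega, a3⟩
    have e2 : k ∉ dpabs_OUT D k := by
      unfold dpabs_OUT
      rw [Finset.mem_filter]
      omega
    have e3 : (lset l').filter (fun e => (if e ∈ NU then some k else lab e) = none) =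
        (lset l \ D.uni k (dpabs_P lab (lset l)) (dpabs_R lab (lset l) k)).filter
          (fun e => lab e = none) := by
      ext e
      rw [Finset.mem_filter, Finset.mem_filter, hset]
      constructor
      · rintro ⟨he, hl⟩
        by_cases hNU : e ∈ NU
        · rw [if_pos hNU] at hl
          exact absurd hl (by simp)
        · rw [if_neg hNU] at hl
          rcases he with he | he
          · exact absurd he hNU
          · exact ⟨he, hl⟩
      · rintro ⟨he, hl⟩
        have hNU : e ∉ NU := fun h => hdis e h he
        exact ⟨Or.inr he, by rw [if_neg hNU]; exact hl⟩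
    rw [e1, Finset.sum_insert e2, e3]
    have e4 : ∑ r ∈ dpabs_OUT D k, (if r = k then ∑ c ∈ D.ch k, t c +
        ∑ y ∈ dpabs_R lab (lset l) k, D.w k y else t r) = ∑ r ∈ dpabs_OUT D k, t r := by
      apply Finset.sum_congr rfl
      intro r hr
      rw [if_neg]
      rintro rfl
      exact e2 hr
    rw [e4]
    simp only [if_true]
    exact dpabs_sum hw hS

end step

theorem dpabs_main (D : DP) (h : D.Sound) (ws : Sym2 ℕ → ℕ) (hw : ∀ x y, ws s(x, y) = D.w x y)
    (W : ℕ) : ∀ k, k ≤ D.n → ∀ (l : List ℕ) (lab : Sym2 ℕ → Option ℕ) (t : ℕ → ℕ),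
      dpabs_St D ws k W l lab t → W ≤ D.M := by
  intro k
  induction k with
  | zero =>
    intro _ l lab t hS
    have hlen := hS.len
    obtain ⟨x, hx⟩ := List.exists_mem_of_length_pos (show 0 < l.length by omega)
    exact absurd (hS.lt x hx) (by omega)
  | succ k ih =>
    intro hkn l lab t hS
    have hkn' : k < D.n := by omega
    have hgood := dpabs_good h hw hkn' hS
    have hU := dpabs_mem_U hS
    have hat := fun {e} (he : e ∈ lset l) (hk : k ∈ e) => dpabs_at h hS he hk
    have hsum := dpabs_sum hw hS
    by_cases hkl : k ∈ l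
    · by_cases h4 : 4 ≤ l.length
      · -- remove the vertex
        obtain ⟨l', x, y, hnd', hlen', hmem', hxy, hx', hy', hix, hiy, hxyS, hati, hset'⟩ :=
          remove l hS.nd h4 k hkl
        have hxk : x ≠ k := ((hmem' x).1 hx').2
        have hyk : y ≠ k := ((hmem' y).1 hy').2
        have hkx : s(k, x) ∈ D.uni k (dpabs_P lab (lset l)) (dpabs_R lab (lset l) k) :=
          hat hix (Sym2.mem_mk_left k x)
        have hky : s(k, y) ∈ D.uni k (dpabs_P lab (lset l)) (dpabs_R lab (lset l) k) :=
          hat hiy (Sym2.mem_mk_left k y)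
        have hxyU : s(x, y) ∉ D.uni k (dpabs_P lab (lset l)) (dpabs_R lab (lset l) k) := by
          intro hh
          exact hxyS ((hU _).1 hh).1
        have hB := (hgood.2 x y hxy hkx hky).1 hxyU
        have hlt' : ∀ z ∈ l', z < k := by
          intro z hz
          obtain ⟨z1, z2⟩ := (hmem' z).1 hz
          have := hS.lt z z1
          omega
        have hpk : D.p k < k := by
          apply h.parent k _ hkn'
          have := hlt' x hx'
          omega
        have hex : s(x, y) ≠ s(k, x) := by
          intro hh
          have : k ∈ s(x, y) := by rw [hh]; exact Sym2.mem_mk_left k x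
          rw [Sym2.mem_iff] at this
          rcases this with h1 | h1
          · exact hxk h1.symm
          · exact hyk h1.symm
        have hey : s(x, y) ≠ s(k, y) := by
          intro hh
          have : k ∈ s(x, y) := by rw [hh]; exact Sym2.mem_mk_left k y
          rw [Sym2.mem_iff] at this
          rcases this with h1 | h1
          · exact hxk h1.symm
          · exact hyk h1.symm
        refine ih (by omega) l' _ _ (dpabs_next hkn' hpk hw hS l'
          (insert s(x, y) (((D.uni k (dpabs_P lab (lset l)) (dpabs_R lab (lset l) k)).erase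
            s(k, x)).erase s(k, y))) hnd' (by omega) hlt' ?_ ?_ ?_ ?_)
        · intro e
          rw [hset', Finset.mem_insert, Finset.mem_erase, Finset.mem_erase, Finset.mem_insert,
            Finset.mem_erase, Finset.mem_erase, Finset.mem_sdiff]
          constructor
          · rintro (rfl | ⟨e1, e2, e3⟩)
            · exact Or.inl (Or.inl rfl)
            · by_cases hUe : e ∈ D.uni k (dpabs_P lab (lset l)) (dpabs_R lab (lset l) k)
              · exact Or.inl (Or.inr ⟨e1, e2, hUe⟩)
              · exact Or.inr ⟨e3, hUe⟩
          · rintro ((rfl | ⟨e1, e2, e3⟩) | ⟨e1, e2⟩)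
            · exact Or.inl rfl
            · exact Or.inr ⟨e1, e2, ((hU e).1 e3).1⟩
            · refine Or.inr ⟨?_, ?_, e1⟩
              · rintro rfl
                exact e2 hky
              · rintro rfl
                exact e2 hkx
        · intro e he hd
          rw [Finset.mem_insert, Finset.mem_erase, Finset.mem_erase] at he
          rw [Finset.mem_sdiff] at hd
          rcases he with rfl | ⟨-, -, he⟩
          · exact hxyS hd.1
          · exact hd.2 he
        · intro hemp
          exact absurd hemp (Finset.insert_ne_empty _ _)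
        · intro _
          exact hB
      · -- the triangle
        have h3 : l.length = 3 := by
          have := hS.len
          omega
        obtain ⟨x, y, hxy, hxk, hyk, hx, hy, hS3⟩ := triangle l hS.nd h3 k hkl
        have hix : s(k, x) ∈ lset l := by rw [hS3]; simp
        have hiy : s(k, y) ∈ lset l := by rw [hS3]; simp
        have hxyS : s(x, y) ∈ lset l := by rw [hS3]; simp
        have hkx : s(k, x) ∈ D.uni k (dpabs_P lab (lset l)) (dpabs_R lab (lset l) k) :=
          hat hix (Sym2.mem_mk_left k x)
        have hky : s(k, y) ∈ D.uni k (dpabs_P lab (lset l)) (dpabs_R lab (lset l) k) :=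
          hat hiy (Sym2.mem_mk_left k y)
        have hknot : k ∉ s(x, y) := by
          intro hh
          rw [Sym2.mem_iff] at hh
          rcases hh with h1 | h1
          · exact hxk h1.symm
          · exact hyk h1.symm
        obtain ⟨-, hg2, hg3⟩ := hgood.2 x y hxy hkx hky
        have hS3' : ∀ e ∈ lset l, e = s(k, x) ∨ e = s(k, y) ∨ e = s(x, y) := by
          intro e he
          rw [hS3] at he
          simpa using he
        by_cases hxyU : s(x, y) ∈ D.uni k (dpabs_P lab (lset l)) (dpabs_R lab (lset l) k)
        · -- all links are in U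
          have hUeq : D.uni k (dpabs_P lab (lset l)) (dpabs_R lab (lset l) k) =
              {s(k, x), s(k, y), s(x, y)} := by
            ext e
            constructor
            · intro he
              rw [← hS3]
              exact ((hU e).1 he).1
            · intro he
              rw [Finset.mem_insert, Finset.mem_insert, Finset.mem_singleton] at he
              rcases he with rfl | rfl | rfl
              · exact hkx
              · exact hky
              · exact hxyU
          have hM := hg3 hUeq
          have hsd : lset l \ D.uni k (dpabs_P lab (lset l)) (dpabs_R lab (lset l) k) = ∅ := by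
            rw [Finset.sdiff_eq_empty_iff_subset]
            intro e he
            rcases hS3' e he with rfl | rfl | rfl
            · exact hkx
            · exact hky
            · exact hxyU
          have hout : ∑ r ∈ dpabs_OUT D k, t r = 0 := by
            apply Finset.sum_eq_zero
            intro r hr
            unfold dpabs_OUT at hr
            rw [Finset.mem_filter, Finset.mem_range] at hr
            apply hS.emp r (by omega) hr.1 (by omega)
            rw [Finset.eq_empty_iff_forall_notMem]
            intro e he
            rw [dpabs_mem_P] at he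
            have hUe : e ∈ D.uni k (dpabs_P lab (lset l)) (dpabs_R lab (lset l) k) := by
              rcases hS3' e he.1 with rfl | rfl | rfl
              · exact hkx
              · exact hky
              · exact hxyU
            rcases ((hU e).1 hUe).2 with ⟨r', hr', hp⟩ | ⟨hn, -⟩
            · rw [he.2] at hr'
              have := Option.some.inj hr'
              rw [← this] at hp
              omega
            · rw [he.2] at hn
              exact absurd hn (by simp)
          rw [hsd, hout] at hsum
          simp only [Finset.filter_empty, Finset.sum_empty] at hsum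
          omega
        · have hUeq : D.uni k (dpabs_P lab (lset l)) (dpabs_R lab (lset l) k) =
              {s(k, x), s(k, y)} := by
            ext e
            constructor
            · intro he
              rcases hS3' e ((hU e).1 he).1 with h1 | h1 | h1
              · rw [h1]; simp
              · rw [h1]; simp
              · rw [h1] at he
                exact absurd he hxyU
            · intro he
              rw [Finset.mem_insert, Finset.mem_singleton] at he
              rcases he with rfl | rfl
              · exact hkx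
              · exact hky
          obtain ⟨hM1, hM2⟩ := hg2 hUeq
          have hsd : lset l \ D.uni k (dpabs_P lab (lset l)) (dpabs_R lab (lset l) k) =
              {s(x, y)} := by
            ext e
            rw [Finset.mem_sdiff, Finset.mem_singleton]
            constructor
            · rintro ⟨he, hn⟩
              rcases hS3' e he with rfl | rfl | rfl
              · exact absurd hkx hn
              · exact absurd hky hn
              · rfl
            · rintro rfl
              exact ⟨hxyS, hxyU⟩
          rw [hsd] at hsum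
          cases hl : lab s(x, y) with
          | none =>
            have hout : ∑ r ∈ dpabs_OUT D k, t r = 0 := by
              apply Finset.sum_eq_zero
              intro r hr
              unfold dpabs_OUT at hr
              rw [Finset.mem_filter, Finset.mem_range] at hr
              apply hS.emp r (by omega) hr.1 (by omega)
              rw [Finset.eq_empty_iff_forall_notMem]
              intro e he
              rw [dpabs_mem_P] at he
              by_cases hUe : e ∈ D.uni k (dpabs_P lab (lset l)) (dpabs_R lab (lset l) k)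
              · rcases ((hU e).1 hUe).2 with ⟨r', hr', hp⟩ | ⟨hn, -⟩
                · rw [he.2] at hr'
                  have := Option.some.inj hr'
                  rw [← this] at hp
                  omega
                · rw [he.2] at hn
                  exact absurd hn (by simp)
              · have : e ∈ lset l \ D.uni k (dpabs_P lab (lset l)) (dpabs_R lab (lset l) k) :=
                  Finset.mem_sdiff.2 ⟨he.1, hUe⟩
                rw [hsd, Finset.mem_singleton] at this
                rw [this, hl] at he
                exact absurd he.2 (by simp)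
            have e1 : ({s(x, y)} : Finset (Sym2 ℕ)).filter (fun e => lab e = none) =
                {s(x, y)} := by
              rw [Finset.filter_singleton, if_pos hl]
            rw [hout, e1, Finset.sum_singleton, hw] at hsum
            omega
          | some r =>
            obtain ⟨a1, a2, a3⟩ := hS.lv _ hxyS r hl
            have hpr : D.p r ≠ k := by
              intro hp
              exact hxyU ((hU _).2 ⟨hxyS, Or.inl ⟨r, hl, hp⟩⟩)
            have hne : dpabs_P lab (lset l) r ≠ ∅ :=
              Finset.ne_empty_of_mem (dpabs_mem_P.2 ⟨hxyS, hl⟩)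
            have htr := h.mx k r _ _ (by omega) a2 (by omega) (hS.bb r a1 a2 a3 hne)
            have hout : ∑ r' ∈ dpabs_OUT D k, t r' = t r := by
              apply Finset.sum_eq_single r
              · intro r' hr' hrr
                unfold dpabs_OUT at hr'
                rw [Finset.mem_filter, Finset.mem_range] at hr'
                apply hS.emp r' (by omega) hr'.1 (by omega)
                rw [Finset.eq_empty_iff_forall_notMem]
                intro e he
                rw [dpabs_mem_P] at he
                by_cases hUe : e ∈ D.uni k (dpabs_P lab (lset l)) (dpabs_R lab (lset l) k)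
                · rcases ((hU e).1 hUe).2 with ⟨r'', hr'', hp⟩ | ⟨hn, -⟩
                  · rw [he.2] at hr''
                    have := Option.some.inj hr''
                    rw [← this] at hp
                    omega
                  · rw [he.2] at hn
                    exact absurd hn (by simp)
                · have : e ∈ lset l \ D.uni k (dpabs_P lab (lset l)) (dpabs_R lab (lset l) k) :=
                    Finset.mem_sdiff.2 ⟨he.1, hUe⟩
                  rw [hsd, Finset.mem_singleton] at this
                  rw [this, hl] at he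
                  exact hrr (Option.some.inj he.2).symm
              · intro hr
                exfalso
                apply hr
                unfold dpabs_OUT
                rw [Finset.mem_filter, Finset.mem_range]
                exact ⟨a2, by omega, by omega⟩
            have e1 : ({s(x, y)} : Finset (Sym2 ℕ)).filter (fun e => lab e = none) = ∅ := by
              rw [Finset.filter_singleton, if_neg (by rw [hl]; simp)]
            rw [hout, e1, Finset.sum_empty] at hsum
            omega
    · -- the vertex is not on the cycle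
      have hlt' : ∀ z ∈ l, z < k := by
        intro z hz
        have := hS.lt z hz
        have : z ≠ k := by
          rintro rfl
          exact hkl hz
        omega
      have hpk : D.p k < k := by
        apply h.parent k _ hkn'
        have hlen := hS.len
        obtain ⟨x, hx⟩ := List.exists_mem_of_length_pos (show 0 < l.length by omega)
        have := hlt' x hx
        omega
      have hR : dpabs_R lab (lset l) k = ∅ := by
        rw [Finset.eq_empty_iff_forall_notMem]
        intro y hy
        unfold dpabs_R at hy
        rw [Finset.mem_filter] at hy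
        exact hkl (lset_mem l _ hy.2.1 k (Sym2.mem_mk_left k y))
      have hdg : dg (D.uni k (dpabs_P lab (lset l)) (dpabs_R lab (lset l) k)) k = 0 := by
        unfold dg
        rw [Finset.card_eq_zero, Finset.filter_eq_empty_iff]
        intro e he hke
        exact hkl (lset_mem l _ ((hU e).1 he).1 k hke)
      refine ih (by omega) l _ _ (dpabs_next hkn' hpk hw hS l
        (D.uni k (dpabs_P lab (lset l)) (dpabs_R lab (lset l) k)) hS.nd hS.len hlt' ?_ ?_ ?_ ?_)
      · intro e
        rw [Finset.mem_sdiff]
        constructor
        · intro he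
          by_cases hUe : e ∈ D.uni k (dpabs_P lab (lset l)) (dpabs_R lab (lset l) k)
          · exact Or.inl hUe
          · exact Or.inr ⟨he, hUe⟩
        · rintro (he | he)
          · exact ((hU e).1 he).1
          · exact he.1
      · intro e he hd
        exact (Finset.mem_sdiff.1 hd).2 he
      · intro hemp
        rw [hR, Finset.sum_empty, add_zero]
        apply Finset.sum_eq_zero
        intro c hc
        have hc' := hc
        unfold DP.ch at hc
        rw [Finset.mem_filter, Finset.mem_Ioo] at hc
        apply hS.emp c (by omega) (by omega) (by omega)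
        rw [Finset.eq_empty_iff_forall_notMem]
        intro e he
        have : e ∈ D.uni k (dpabs_P lab (lset l)) (dpabs_R lab (lset l) k) := by
          unfold DP.uni
          exact Finset.mem_union_left _ (Finset.mem_biUnion.2 ⟨c, hc', he⟩)
        rw [hemp] at this
        exact absurd this (Finset.notMem_empty e)
      · intro hne
        exact hgood.1 hdg hne

theorem DP.sound (D : DP) (h : D.Sound) (L : List ℕ) (hL : IsCyc (fun x y => 0 < D.w x y) L)
    (hn : ∀ x ∈ L, x < D.n) : wt D.w L ≤ D.M := by
  have hw : ∀ x y, Sym2.lift ⟨D.w, h.symm⟩ s(x, y) = D.w x y := fun x y => rfl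
  have hwt := wt_eq D.w h.symm L hL.1 hL.2.1
  refine dpabs_main D h (Sym2.lift ⟨D.w, h.symm⟩) hw (wt D.w L) D.n le_rfl L (fun _ => none)
    (fun _ => 0) ⟨hL.1, hL.2.1, hn, ?_, ?_, ?_, ?_, ?_⟩
  · intro e he _
    unfold lset at he
    rw [List.mem_toFinset, List.mem_map] at he
    obtain ⟨q, hq, rfl⟩ := he
    exact hL.2.2 q hq
  · intro e _ r hr
    exact absurd hr (by simp)
  · intro r _ _ _ _
    rfl
  · intro r _ _ _ hP
    exfalso
    apply hP
    rw [Finset.eq_empty_iff_forall_notMem]
    intro e he
    rw [dpabs_mem_P] at he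
    exact absurd he.2 (by simp)
  · rw [hwt, Finset.filter_true_of_mem (fun _ _ => rfl)]
    exact Nat.le_add_left _ _

end Pool.Agent.LC
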