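import Mathlib

/-!
# Definitions for the counterexample to the common vertex of longest cycles question
(2-connected chordal graphs).  A weighted graph `H` on `0, ..., n-1` is blown up: an edge of
weight `w` becomes a clique of `w - 1` new vertices joined to both ends.
-/

set_option autoImplicit false

namespace Pool.Agent.LC

/-- consecutive pairs of a list, the last entry being linked to `z` -/
def lnk {α : Type*} : List α → α → List (α × α)
  | [], _ => []
  | [x], z => [(x, z)]
  | x :: y :: t, z => (x, y) :: lnk (y :: t) z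

/-- cyclically consecutive pairs of a list -/
def clnk {α : Type*} : List α → List (α × α)
  | [] => []
  | x :: t => lnk (x :: t) x

/-- the list, read cyclically, is a cycle of the relation `R` -/
def IsCyc {α : Type*} (R : α → α → Prop) (l : List α) : Prop :=
  l.Nodup ∧ 3 ≤ l.length ∧ ∀ q ∈ clnk l, R q.1 q.2

/-- total weight of a cyclic list of natural numbers -/
def wt (w : ℕ → ℕ → ℕ) (l : List ℕ) : ℕ := ((clnk l).map (fun q => w q.1 q.2)).sum

/-- the set of (unordered) links of a cyclic list -/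
def lset (l : List ℕ) : Finset (Sym2 ℕ) := ((clnk l).map (fun q => s(q.1, q.2))).toFinset

/-- number of links of `U` at the vertex `x` -/
def dg (U : Finset (Sym2 ℕ)) (x : ℕ) : ℕ := (U.filter (fun e => x ∈ e)).card

/-! ## The blow-up graph -/

/-- size of the clique put on the pair `(x, y)` (only used for `y < x`) -/
def bsz (w : ℕ → ℕ → ℕ) (x y : ℕ) : ℕ := if y < x then w x y - 1 else 0

/-- vertices of the blow-up: the old vertices and, for each pair `y < x`, `w x y - 1` new ones -/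
abbrev BV (n : ℕ) (w : ℕ → ℕ → ℕ) : Type :=
  Fin n ⊕ (Σ e : Fin n × Fin n, Fin (bsz w e.1 e.2))

/-- adjacency of the blow-up -/
def BAdj (n : ℕ) (w : ℕ → ℕ → ℕ) : BV n w → BV n w → Prop
  | Sum.inl x, Sum.inl y => x ≠ y ∧ 0 < w x y
  | Sum.inl x, Sum.inr s => x = s.1.1 ∨ x = s.1.2
  | Sum.inr s, Sum.inl x => x = s.1.1 ∨ x = s.1.2
  | Sum.inr s, Sum.inr t => s.1 = t.1 ∧ s ≠ t

/-- the blow-up graph -/
def BG (n : ℕ) (w : ℕ → ℕ → ℕ) (hw : ∀ x y, w x y = w y x) : SimpleGraph (BV n w) where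
  Adj := BAdj n w
  symm := ⟨by
    rintro (x | s) (y | t) h
    · exact ⟨h.1.symm, by rw [hw]; exact h.2⟩
    · exact h
    · exact h
    · exact ⟨h.1.symm, h.2.symm⟩⟩
  loopless := ⟨by
    rintro (x | s) h
    · exact h.1 rfl
    · exact h.2 rfl⟩

/-! ## The abstract dynamic programme (vertices are eliminated in decreasing order) -/

/-- data of an elimination scheme: `p r` is the step (a smaller number) at which the label `r` is
merged, `B r P t` says that the set `P` of links may carry the label `r` with accumulated weight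
`t`, and `out i` bounds every weight carried by a label that is alive but not merged at step `i` -/
structure DP where
  n : ℕ
  w : ℕ → ℕ → ℕ
  p : ℕ → ℕ
  M : ℕ
  out : ℕ → ℕ
  B : ℕ → Finset (Sym2 ℕ) → ℕ → Prop

/-- the labels merged at step `i` -/
def DP.ch (D : DP) (i : ℕ) : Finset ℕ := (Finset.Ioo i D.n).filter (fun c => D.p c = i)

/-- all links seen at step `i`: those of the merged labels and the raw ones at `i` -/
def DP.uni (D : DP) (i : ℕ) (P : ℕ → Finset (Sym2 ℕ)) (R : Finset ℕ) : Finset (Sym2 ℕ) :=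
  (D.ch i).biUnion P ∪ R.image (fun y => s(i, y))

/-- what has to hold for the union `U` of links seen at step `i`, of accumulated weight `t` -/
def DP.Good (D : DP) (i : ℕ) (U : Finset (Sym2 ℕ)) (t : ℕ) : Prop :=
  (dg U i = 0 → U ≠ ∅ → D.B i U t) ∧
  (∀ x y : ℕ, x ≠ y → s(i, x) ∈ U → s(i, y) ∈ U →
    (s(x, y) ∉ U → D.B i (insert s(x, y) ((U.erase s(i, x)).erase s(i, y))) t) ∧
    (U = {s(i, x), s(i, y)} → t + D.w x y ≤ D.M ∧ t + D.out i ≤ D.M) ∧
    (U = {s(i, x), s(i, y), s(x, y)} → t ≤ D.M))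

/-- the elimination scheme is sound -/
structure DP.Sound (D : DP) : Prop where
  symm : ∀ x y, D.w x y = D.w y x
  parent : ∀ r, 0 < r → r < D.n → D.p r < r
  lo : ∀ r P t, D.B r P t → ∀ e ∈ P, ∀ x ∈ e, x ≤ D.p r
  mx : ∀ i r P t, i < r → r < D.n → D.p r < i → D.B r P t → t ≤ D.out i
  elim : ∀ i < D.n, ∀ (P : ℕ → Finset (Sym2 ℕ)) (t : ℕ → ℕ) (R : Finset ℕ),
    (∀ c ∈ D.ch i, (P c = ∅ ∧ t c = 0) ∨ D.B c (P c) (t c)) →
    (∀ y ∈ R, y < i ∧ 0 < D.w i y) →
    (∀ c ∈ D.ch i, ∀ c' ∈ D.ch i, c ≠ c' → Disjoint (P c) (P c')) →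
    (∀ c ∈ D.ch i, ∀ y ∈ R, s(i, y) ∉ P c) →
    (∀ x, dg (D.uni i P R) x ≤ 2) →
    (∀ e ∈ D.uni i P R, ¬ e.IsDiag) →
    D.Good i (D.uni i P R) (∑ c ∈ D.ch i, t c + ∑ y ∈ R, D.w i y)

end Pool.Agent.LC
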