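import Pool.Agent.LC.Num
import Pool.Agent.LC.Basic

/-!
# Numerical lemmas, part 1
-/

set_option autoImplicit false

namespace Pool.Agent.LC

theorem land_digits (K : ℕ) (f : ℕ → ℕ) (hf : ∀ k < K, f k ≤ 3) :
    Nat.land (∑ k ∈ Finset.range K, f k * 8 ^ k) (∑ k ∈ Finset.range K, 4 * 8 ^ k) = 0 := by
  induction K generalizing f with
  | zero => simp
  | succ K ih =>
    have e1 : ∑ k ∈ Finset.range (K + 1), f k * 8 ^ k =
        f 0 + 8 * ∑ k ∈ Finset.range K, f (k + 1) * 8 ^ k := by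
      rw [Finset.sum_range_succ', Finset.mul_sum, pow_zero, mul_one, add_comm]
      congr 1
      refine Finset.sum_congr rfl fun k _ => ?_
      rw [pow_succ]
      ring
    have e2 : ∑ k ∈ Finset.range (K + 1), 4 * 8 ^ k =
        4 + 8 * ∑ k ∈ Finset.range K, 4 * 8 ^ k := by
      rw [Finset.sum_range_succ', Finset.mul_sum, pow_zero, mul_one, add_comm]
      congr 1
      refine Finset.sum_congr rfl fun k _ => ?_
      rw [pow_succ]
      ring
    have h0 := hf 0 (Nat.succ_pos K)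
    have ih' := ih (fun k => f (k + 1)) (fun k hk => hf (k + 1) (by omega))
    rw [e1, e2]
    set A := ∑ k ∈ Finset.range K, f (k + 1) * 8 ^ k with hA
    set B := ∑ k ∈ Finset.range K, 4 * 8 ^ k with hB
    change (f 0 + 8 * A) &&& (4 + 8 * B) = 0
    change A &&& B = 0 at ih'
    have hdiv : ((f 0 + 8 * A) &&& (4 + 8 * B)) / 2 ^ 3 = 0 := by
      rw [Nat.and_div_two_pow]
      have h1 : (f 0 + 8 * A) / 2 ^ 3 = A := by norm_num; omega
      have h2 : (4 + 8 * B) / 2 ^ 3 = B := by norm_num; omega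
      rw [h1, h2, ih']
    have hmod : ((f 0 + 8 * A) &&& (4 + 8 * B)) % 2 ^ 3 = 0 := by
      rw [Nat.and_mod_two_pow]
      have h1 : (f 0 + 8 * A) % 2 ^ 3 = f 0 := by norm_num; omega
      have h2 : (4 + 8 * B) % 2 ^ 3 = 4 := by norm_num
      rw [h1, h2]
      generalize f 0 = m at h0
      interval_cases m <;> rfl
    have h3 := Nat.div_add_mod ((f 0 + 8 * A) &&& (4 + 8 * B)) (2 ^ 3)
    rw [hdiv, hmod] at h3
    omega

theorem digitsAux_div_one (K : ℕ) (f : ℕ → ℕ) (hf : ∀ k < K, f k ≤ 7) :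
    (∑ k ∈ Finset.range K, f k * 8 ^ k) / 8 = ∑ k ∈ Finset.range (K - 1), f (k + 1) * 8 ^ k := by
  cases K with
  | zero => simp
  | succ K =>
    have e1 : ∑ k ∈ Finset.range (K + 1), f k * 8 ^ k =
        f 0 + 8 * ∑ k ∈ Finset.range K, f (k + 1) * 8 ^ k := by
      rw [Finset.sum_range_succ', Finset.mul_sum, pow_zero, mul_one, add_comm]
      congr 1
      refine Finset.sum_congr rfl fun k _ => ?_
      rw [pow_succ]
      ring
    have h0 := hf 0 (Nat.succ_pos K)
    rw [e1, Nat.add_sub_cancel]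
    omega

theorem div_digits (K j : ℕ) (f : ℕ → ℕ) (hf : ∀ k < K, f k ≤ 7) :
    (∑ k ∈ Finset.range K, f k * 8 ^ k) / 8 ^ j
      = ∑ k ∈ Finset.range (K - j), f (k + j) * 8 ^ k := by
  induction j with
  | zero => simp
  | succ j ih =>
    rw [pow_succ, ← Nat.div_div_eq_div_mul, ih,
      digitsAux_div_one (K - j) (fun k => f (k + j)) (fun k hk => hf (k + j) (by omega))]
    have e : K - j - 1 = K - (j + 1) := by omega
    rw [e]
    refine Finset.sum_congr rfl fun k _ => ?_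
    have e2 : k + 1 + j = k + (j + 1) := by omega
    rw [e2]

theorem log2_pow8 (x : ℕ) : Nat.log2 (8 ^ x) / 3 = x := by
  have h : (8 : ℕ) ^ x = 2 ^ (3 * x) := by
    rw [pow_mul]
    norm_num
  rw [h, Nat.log2_two_pow]
  omega

theorem log2_pow8_add (x y : ℕ) (h : x < y) : Nat.log2 (8 ^ x + 8 ^ y) / 3 = y := by
  have h8 : ∀ z : ℕ, (8 : ℕ) ^ z = 2 ^ (3 * z) := fun z => by
    rw [pow_mul]
    norm_num
  have h1 : (8 : ℕ) ^ x < 8 ^ y := Nat.pow_lt_pow_right (by norm_num) h
  have h2 : Nat.log2 (8 ^ x + 8 ^ y) = 3 * y := by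
    rw [Nat.log2_eq_iff (by positivity)]
    rw [pow_succ, ← h8]
    generalize (8 : ℕ) ^ x = a at h1
    generalize (8 : ℕ) ^ y = b at h1
    omega
  rw [h2]
  omega

theorem cd_succ (x : ℕ) : cd (x + 1) 0 = cd x 0 + (x + 1) := by
  change (x + 1) * (x + 1 + 1) / 2 + 0 = x * (x + 1) / 2 + 0 + (x + 1)
  have h : (x + 1) * (x + 1 + 1) = x * (x + 1) + (x + 1) * 2 := by ring
  rw [h, Nat.add_mul_div_right _ _ (by norm_num)]
  omega

theorem cd_eq (x y : ℕ) : cd x y = cd x 0 + y := by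
  change x * (x + 1) / 2 + y = x * (x + 1) / 2 + 0 + y
  omega

theorem digitsAux_cd_mono {x x' : ℕ} (h : x ≤ x') : cd x 0 ≤ cd x' 0 := by
  induction x', h using Nat.le_induction with
  | base => exact le_rfl
  | succ m _ ih =>
    rw [cd_succ]
    omega

/-- the position determines the pair -/
theorem cd_inj {x y x' y' : ℕ} (h : y ≤ x) (h' : y' ≤ x') (he : cd x y = cd x' y') :
    x = x' ∧ y = y' := by
  rw [cd_eq x y, cd_eq x' y'] at he
  have hx : x = x' := by
    rcases lt_trichotomy x x' with h1 | h1 | h1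
    · exfalso
      have h2 := digitsAux_cd_mono (Nat.succ_le_of_lt h1)
      rw [Nat.succ_eq_add_one, cd_succ] at h2
      omega
    · exact h1
    · exfalso
      have h2 := digitsAux_cd_mono (Nat.succ_le_of_lt h1)
      rw [Nat.succ_eq_add_one, cd_succ] at h2
      omega
  subst hx
  exact ⟨rfl, by omega⟩

end Pool.Agent.LC
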