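import Pool.Agent.LC.Digits

/-!
# Codes of sets of links
-/

set_option autoImplicit false

namespace Pool.Agent.LC

/-- the larger end -/
def enc_hi (e : Sym2 ℕ) : ℕ := Sym2.lift ⟨fun x y => max x y, fun x y => max_comm x y⟩ e

/-- the smaller end -/
def enc_lo (e : Sym2 ℕ) : ℕ := Sym2.lift ⟨fun x y => min x y, fun x y => min_comm x y⟩ e

theorem enc_hi_mk (x y : ℕ) : enc_hi s(x, y) = max x y := rfl

theorem enc_lo_mk (x y : ℕ) : enc_lo s(x, y) = min x y := rfl

theorem encS_eq (e : Sym2 ℕ) : encS e = 8 ^ (cd (enc_hi e) (enc_lo e)) +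
    (8 ^ (cd (enc_hi e) (enc_hi e)) + 8 ^ (cd (enc_lo e) (enc_lo e))) := by
  induction e using Sym2.ind with
  | _ x y => rfl

theorem enc_hi_mem (e : Sym2 ℕ) : enc_hi e ∈ e := by
  induction e using Sym2.ind with
  | _ x y =>
    rw [enc_hi_mk, Sym2.mem_iff]
    rcases le_total x y with h | h
    · right; exact max_eq_right h
    · left; exact max_eq_left h

theorem enc_lo_mem (e : Sym2 ℕ) : enc_lo e ∈ e := by
  induction e using Sym2.ind with
  | _ x y =>
    rw [enc_lo_mk, Sym2.mem_iff]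
    rcases le_total x y with h | h
    · left; exact min_eq_left h
    · right; exact min_eq_right h

theorem enc_mem_iff (e : Sym2 ℕ) (x : ℕ) : x ∈ e ↔ x = enc_hi e ∨ x = enc_lo e := by
  induction e using Sym2.ind with
  | _ a b =>
    rw [enc_hi_mk, enc_lo_mk, Sym2.mem_iff]
    rcases le_total a b with h | h
    · rw [max_eq_right h, min_eq_left h, or_comm]
    · rw [max_eq_left h, min_eq_right h]

theorem enc_lo_lt_hi {e : Sym2 ℕ} (h : ¬ e.IsDiag) : enc_lo e < enc_hi e := by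
  induction e using Sym2.ind with
  | _ a b =>
    rw [enc_hi_mk, enc_lo_mk]
    have hab : a ≠ b := fun hc => h (Sym2.mk_isDiag_iff.2 hc)
    exact min_lt_max.2 hab

theorem enc_lo_le_hi (e : Sym2 ℕ) : enc_lo e ≤ enc_hi e := by
  induction e using Sym2.ind with
  | _ a b => exact min_le_max

theorem enc_eq_iff {e : Sym2 ℕ} {x y : ℕ} (hyx : y < x) :
    s(x, y) = e ↔ x = enc_hi e ∧ y = enc_lo e := by
  induction e using Sym2.ind with
  | _ a b =>
    rw [enc_hi_mk, enc_lo_mk, Sym2.eq_iff]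
    constructor
    · rintro (⟨rfl, rfl⟩ | ⟨rfl, rfl⟩)
      · exact ⟨(max_eq_left hyx.le).symm, (min_eq_right hyx.le).symm⟩
      · exact ⟨(max_eq_right hyx.le).symm, (min_eq_left hyx.le).symm⟩
    · rintro ⟨h1, h2⟩
      rcases le_total a b with h | h
      · rw [max_eq_right h] at h1
        rw [min_eq_left h] at h2
        exact Or.inr ⟨h1, h2⟩
      · rw [max_eq_left h] at h1
        rw [min_eq_right h] at h2
        exact Or.inl ⟨h1, h2⟩

/-- multiplicity of the position `k` in the code of `e` -/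
def enc_pos (e : Sym2 ℕ) (k : ℕ) : ℕ :=
  (if k = cd (enc_hi e) (enc_lo e) then 1 else 0) +
    ((if k = cd (enc_hi e) (enc_hi e) then 1 else 0) + (if k = cd (enc_lo e) (enc_lo e) then 1 else 0))

theorem enc_cd_lt {x y z : ℕ} (h : y ≤ x) (hz : x < z) : cd x y < cd z 0 := by
  induction z with
  | zero => omega
  | succ z ih =>
    rw [cd_succ]
    rcases Nat.lt_or_ge x z with h1 | h1
    · exact lt_of_lt_of_le (ih h1) (Nat.le_add_right _ _)
    · have h2 : x = z := by omega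
      rw [h2, cd_eq z y]
      omega

theorem enc_cd_mono {x z : ℕ} (h : x ≤ z) : cd x 0 ≤ cd z 0 := by
  rcases Nat.lt_or_ge x z with h1 | h1
  · exact (enc_cd_lt (Nat.zero_le x) h1).le
  · have : x = z := le_antisymm h h1
    rw [this]

theorem enc_cd_surj (i k : ℕ) (hk : k < cd (i + 1) 0) : ∃ x y, y ≤ x ∧ x ≤ i ∧ k = cd x y := by
  induction i with
  | zero =>
    rw [cd_succ] at hk
    have h0 : cd 0 0 = 0 := rfl
    refine ⟨0, 0, le_refl _, le_refl _, ?_⟩
    omega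
  | succ i ih =>
    rw [cd_succ] at hk
    rcases Nat.lt_or_ge k (cd (i + 1) 0) with h | h
    · obtain ⟨x, y, h1, h2, h3⟩ := ih h
      exact ⟨x, y, h1, by omega, h3⟩
    · refine ⟨i + 1, k - cd (i + 1) 0, by omega, le_refl _, ?_⟩
      rw [cd_eq (i + 1) (k - cd (i + 1) 0)]
      omega

theorem enc_sum_pos (K : ℕ) (e : Sym2 ℕ) (h1 : cd (enc_hi e) (enc_lo e) < K)
    (h2 : cd (enc_hi e) (enc_hi e) < K) (h3 : cd (enc_lo e) (enc_lo e) < K) :
    ∑ k ∈ Finset.range K, enc_pos e k * 8 ^ k = encS e := by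
  unfold enc_pos
  simp only [add_mul, Finset.sum_add_distrib, ite_mul, one_mul, zero_mul]
  rw [Finset.sum_ite_eq', Finset.sum_ite_eq', Finset.sum_ite_eq', if_pos (Finset.mem_range.2 h1),
    if_pos (Finset.mem_range.2 h2), if_pos (Finset.mem_range.2 h3), encS_eq]

theorem encU_digits (i : ℕ) (U : Finset (Sym2 ℕ)) (hnd : ∀ e ∈ U, ¬ e.IsDiag)
    (hi : ∀ e ∈ U, ∀ x ∈ e, x ≤ i) :
    ∃ f : ℕ → ℕ, encU U = ∑ k ∈ Finset.range (cd (i + 1) 0), f k * 8 ^ k ∧
      (∀ x ≤ i, f (cd x x) = dg U x) ∧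
      (∀ x ≤ i, ∀ y < x, f (cd x y) = if s(x, y) ∈ U then 1 else 0) := by
  refine ⟨fun k => ∑ e ∈ U, enc_pos e k, ?_, ?_, ?_⟩
  · simp only [Finset.sum_mul]
    rw [Finset.sum_comm]
    unfold encU
    refine Finset.sum_congr rfl fun e he => ?_
    have hh : enc_hi e ≤ i := hi e he _ (enc_hi_mem e)
    have hl : enc_lo e ≤ i := hi e he _ (enc_lo_mem e)
    exact (enc_sum_pos _ e (enc_cd_lt (enc_lo_le_hi e) (by omega)) (enc_cd_lt (le_refl _) (by omega))
      (enc_cd_lt (le_refl _) (by omega))).symm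
  · intro x hx
    unfold dg
    rw [Finset.card_filter]
    refine Finset.sum_congr rfl fun e he => ?_
    have hlt := enc_lo_lt_hi (hnd e he)
    unfold enc_pos
    have e1 : ¬ cd x x = cd (enc_hi e) (enc_lo e) := by
      intro hc
      obtain ⟨h1, h2⟩ := cd_inj (le_refl x) hlt.le hc
      omega
    have e2 : (cd x x = cd (enc_hi e) (enc_hi e)) ↔ x = enc_hi e :=
      ⟨fun hc => (cd_inj (le_refl x) (le_refl _) hc).1, fun hc => by rw [hc]⟩
    have e3 : (cd x x = cd (enc_lo e) (enc_lo e)) ↔ x = enc_lo e :=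
      ⟨fun hc => (cd_inj (le_refl x) (le_refl _) hc).1, fun hc => by rw [hc]⟩
    rw [if_neg e1]
    simp only [e2, e3, enc_mem_iff]
    by_cases h1 : x = enc_hi e
    · have h2 : ¬ x = enc_lo e := by omega
      rw [if_pos h1, if_neg h2, if_pos (Or.inl h1)]
    · by_cases h2 : x = enc_lo e
      · rw [if_neg h1, if_pos h2, if_pos (Or.inr h2)]
      · rw [if_neg h1, if_neg h2, if_neg (fun h => h.elim h1 h2)]
  · intro x hx y hy
    have key : ∀ e ∈ U, enc_pos e (cd x y) = if s(x, y) = e then 1 else 0 := by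
      intro e he
      have hlt := enc_lo_lt_hi (hnd e he)
      unfold enc_pos
      have e2 : ¬ cd x y = cd (enc_hi e) (enc_hi e) := by
        intro hc
        obtain ⟨h1, h2⟩ := cd_inj hy.le (le_refl _) hc
        omega
      have e3 : ¬ cd x y = cd (enc_lo e) (enc_lo e) := by
        intro hc
        obtain ⟨h1, h2⟩ := cd_inj hy.le (le_refl _) hc
        omega
      have e1 : (cd x y = cd (enc_hi e) (enc_lo e)) ↔ s(x, y) = e := by
        rw [enc_eq_iff hy]
        exact ⟨fun hc => cd_inj hy.le hlt.le hc, fun hc => by rw [hc.1, hc.2]⟩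
      rw [if_neg e2, if_neg e3]
      simp only [e1, add_zero]
    show ∑ e ∈ U, enc_pos e (cd x y) = _
    rw [Finset.sum_congr rfl key, Finset.sum_ite_eq]

/-- digits of the constant `Cst` -/
noncomputable def enc_c (k : ℕ) : ℕ := by
  classical
  exact if ∃ x, k = cd x x then 1 else 2

theorem enc_c_diag (x : ℕ) : enc_c (cd x x) = 1 := by
  unfold enc_c
  exact if_pos ⟨x, rfl⟩

theorem enc_c_off {x y : ℕ} (h : y < x) : enc_c (cd x y) = 2 := by
  unfold enc_c
  refine if_neg ?_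
  rintro ⟨z, hz⟩
  obtain ⟨h1, h2⟩ := cd_inj h.le (le_refl z) hz
  omega

theorem enc_geom (n : ℕ) : (8 ^ n - 1) / 7 = ∑ k ∈ Finset.range n, 8 ^ k := by
  have h := Nat.geomSum_eq (m := 8) (by norm_num) n
  rw [h]

theorem enc_Cst (i : ℕ) : Cst i = ∑ k ∈ Finset.range (cd (i + 1) 0), enc_c k * 8 ^ k := by
  induction i with
  | zero =>
    have h0 : cd (0 + 1) 0 = 1 := rfl
    have h1 : enc_c 0 = 1 := enc_c_diag 0
    rw [h0, Finset.sum_range_one, h1]
    rfl
  | succ i ih =>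
    rw [cd_succ (i + 1), Finset.sum_range_add, ← ih]
    show Cst i + 8 ^ (cd (i + 1) 0) * (2 * ((8 ^ (i + 1) - 1) / 7) + 8 ^ (i + 1)) = _
    congr 1
    rw [Finset.sum_range_succ]
    have e1 : ∀ y ∈ Finset.range (i + 1), enc_c (cd (i + 1) 0 + y) * 8 ^ (cd (i + 1) 0 + y) =
        8 ^ (cd (i + 1) 0) * (2 * 8 ^ y) := by
      intro y hy
      rw [← cd_eq, enc_c_off (Finset.mem_range.1 hy), cd_eq, pow_add]
      ring
    have e2 : enc_c (cd (i + 1) 0 + (i + 1)) = 1 := by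
      rw [← cd_eq]
      exact enc_c_diag (i + 1)
    rw [Finset.sum_congr rfl e1, ← Finset.mul_sum, ← Finset.mul_sum, ← enc_geom, e2, pow_add]
    ring

theorem enc_Dst (i : ℕ) : Dst i = ∑ k ∈ Finset.range (cd (i + 1) 0), 4 * 8 ^ k := by
  rw [← Finset.mul_sum, ← enc_geom]
  rfl

theorem ok_encU (i : ℕ) (U : Finset (Sym2 ℕ)) (hnd : ∀ e ∈ U, ¬ e.IsDiag)
    (hi : ∀ e ∈ U, ∀ x ∈ e, x ≤ i) (hd : ∀ x, dg U x ≤ 2) :
    ok (Cst i) (Dst i) (encU U) = true := by
  obtain ⟨f, h1, h2, h3⟩ := encU_digits i U hnd hi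
  have e : Nat.add (encU U) (Cst i) =
      ∑ k ∈ Finset.range (cd (i + 1) 0), (f k + enc_c k) * 8 ^ k := by
    show encU U + Cst i = _
    rw [h1, enc_Cst, ← Finset.sum_add_distrib]
    refine Finset.sum_congr rfl fun k _ => ?_
    ring
  unfold ok
  rw [e, enc_Dst, land_digits]
  · rfl
  · intro k hk
    obtain ⟨x, y, hyx, hx, rfl⟩ := enc_cd_surj i k hk
    rcases Nat.lt_or_ge y x with h | h
    · rw [h3 x hx y h, enc_c_off h]
      split_ifs <;> omega
    · have hxy : y = x := by omega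
      rw [hxy, h2 x hx, enc_c_diag]
      have := hd x
      omega

theorem row_encU (i : ℕ) (U : Finset (Sym2 ℕ)) (hnd : ∀ e ∈ U, ¬ e.IsDiag)
    (hi : ∀ e ∈ U, ∀ x ∈ e, x ≤ i) (hd : ∀ x, dg U x ≤ 2) :
    encU U / 8 ^ (cd i 0)
      = (∑ y ∈ (Finset.range i).filter (fun y => s(i, y) ∈ U), 8 ^ y) + dg U i * 8 ^ i := by
  obtain ⟨f, h1, h2, h3⟩ := encU_digits i U hnd hi
  have hf : ∀ k < cd (i + 1) 0, f k ≤ 7 := by
    intro k hk
    obtain ⟨x, y, hyx, hx, rfl⟩ := enc_cd_surj i k hk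
    rcases Nat.lt_or_ge y x with h | h
    · rw [h3 x hx y h]
      split_ifs <;> omega
    · have hxy : y = x := by omega
      rw [hxy, h2 x hx]
      have := hd x
      omega
  rw [h1, div_digits _ _ f hf, cd_succ]
  have e1 : cd i 0 + (i + 1) - cd i 0 = i + 1 := by omega
  rw [e1, Finset.sum_range_succ]
  have e2 : i + cd i 0 = cd i i := by
    rw [cd_eq i i]
    omega
  rw [e2, h2 i (le_refl i), Finset.sum_filter]
  congr 1
  refine Finset.sum_congr rfl fun y hy => ?_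
  have e3 : y + cd i 0 = cd i y := by
    rw [cd_eq i y]
    omega
  rw [e3, h3 i (le_refl i) y (Finset.mem_range.1 hy)]
  split_ifs with h
  · exact one_mul _
  · exact zero_mul _

theorem enc_le (P : Finset (Sym2 ℕ)) (e : Sym2 ℕ) (he : e ∈ P) : encS e ≤ encU P :=
  Finset.single_le_sum (f := encS) (fun _ _ => Nat.zero_le _) he

theorem lo_encU (P : Finset (Sym2 ℕ)) (k : ℕ) (h : encU P < 8 ^ (cd (k + 1) 0)) :
    ∀ e ∈ P, ∀ x ∈ e, x ≤ k := by
  intro e he x hx
  by_contra hc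
  have h1 := enc_le P e he
  rw [encS_eq] at h1
  have h2 : cd (k + 1) 0 ≤ cd x x := by
    rw [cd_eq x x]
    have := enc_cd_mono (show k + 1 ≤ x by omega)
    omega
  have h3 : 8 ^ (cd (k + 1) 0) ≤ 8 ^ (cd x x) := Nat.pow_le_pow_right (by norm_num) h2
  rcases (enc_mem_iff e x).1 hx with h4 | h4
  · rw [← h4] at h1
    have h5 : 8 ^ (cd x x) ≤ encU P :=
      le_trans (le_trans (Nat.le_add_right _ _) (Nat.le_add_left _ _)) h1
    exact absurd (lt_of_lt_of_le h h3) (not_lt.2 h5)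
  · rw [← h4] at h1
    have h5 : 8 ^ (cd x x) ≤ encU P :=
      le_trans (le_trans (Nat.le_add_left _ _) (Nat.le_add_left _ _)) h1
    exact absurd (lt_of_lt_of_le h h3) (not_lt.2 h5)

theorem encU_pos (U : Finset (Sym2 ℕ)) (h : U.Nonempty) : 0 < encU U := by
  obtain ⟨e, he⟩ := h
  refine lt_of_lt_of_le ?_ (enc_le U e he)
  rw [encS_eq]
  have h0 : 0 < 8 ^ (cd (enc_hi e) (enc_lo e)) := Nat.pow_pos (by norm_num)
  exact lt_of_lt_of_le h0 (Nat.le_add_right _ _)

end Pool.Agent.LC
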