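import Pool.Agent.LC.Over

/-!
# Soundness of the final test of one combination
-/

set_option autoImplicit false

namespace Pool.Agent.LC

private theorem fs_bc_and {b x : Bool} (h : bc b x false = true) : b = true ∧ x = true := by
  rw [bc_eq] at h
  by_cases h1 : b = true
  · rw [if_pos h1] at h; exact ⟨h1, h⟩
  · rw [if_neg h1] at h; exact absurd h (by simp)

private theorem fs_bc_imp {b x : Bool} (h : bc b x true = true) (hb : b = true) : x = true := by
  rw [bc_eq, if_pos hb] at h; exact h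

private theorem fs_encS_lt (i y : ℕ) (h : y < i) : encS s(i, y) = lc i y := by
  show lc (max i y) (min i y) = lc i y
  rw [max_eq_left h.le, min_eq_right h.le]

private theorem fs_w_symm (N : Num) (x y : ℕ) : N.w x y = N.w y x := by
  unfold Num.w
  rcases lt_trichotomy x y with h | h | h
  · rw [if_neg (by omega), if_pos h, if_pos h]
  · rw [h]
  · rw [if_pos h, if_neg (by omega), if_pos h]

/-- the row of `i` if the links at `i` are `{i, x}` and `{i, y}` -/
private theorem fs_row (i : ℕ) (U : Finset (Sym2 ℕ)) (hnd : ∀ e ∈ U, ¬ e.IsDiag)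
    (hi : ∀ e ∈ U, ∀ x ∈ e, x ≤ i) (hd : ∀ x, dg U x ≤ 2) (x y : ℕ) (hxy : x < y)
    (hx : s(i, x) ∈ U) (hy : s(i, y) ∈ U) :
    y < i ∧ encU U / 8 ^ (cd i 0) = 8 ^ x + 8 ^ y + 2 * 8 ^ i := by
  have hyi : y < i := by
    have h1 : y ≤ i := hi _ hy y (Sym2.mem_mk_right i y)
    have h2 : i ≠ y := fun h => hnd _ hy (Sym2.mk_isDiag_iff.2 h)
    omega
  refine ⟨hyi, ?_⟩
  have hne : s(i, x) ≠ s(i, y) := by
    intro h
    rw [Sym2.eq_iff] at h
    rcases h with ⟨-, h⟩ | ⟨h, -⟩ <;> omega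
  have hsub : ({s(i, x), s(i, y)} : Finset (Sym2 ℕ)) ⊆ U.filter (fun e => i ∈ e) := by
    intro e he
    rw [Finset.mem_insert, Finset.mem_singleton] at he
    rcases he with he | he
    · rw [he, Finset.mem_filter]
      exact ⟨hx, Sym2.mem_mk_left i x⟩
    · rw [he, Finset.mem_filter]
      exact ⟨hy, Sym2.mem_mk_left i y⟩
  have hcard : ({s(i, x), s(i, y)} : Finset (Sym2 ℕ)).card = 2 := Finset.card_pair hne
  have heq : ({s(i, x), s(i, y)} : Finset (Sym2 ℕ)) = U.filter (fun e => i ∈ e) := by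
    refine Finset.eq_of_subset_of_card_le hsub ?_
    rw [hcard]
    exact hd i
  have hdg : dg U i = 2 := by
    unfold dg
    rw [← heq, hcard]
  have hfil : (Finset.range i).filter (fun z => s(i, z) ∈ U) = {x, y} := by
    ext z
    rw [Finset.mem_filter, Finset.mem_insert, Finset.mem_singleton, Finset.mem_range]
    constructor
    · rintro ⟨hz, hzU⟩
      have h1 : s(i, z) ∈ U.filter (fun e => i ∈ e) :=
        Finset.mem_filter.mpr ⟨hzU, Sym2.mem_mk_left i z⟩
      rw [← heq, Finset.mem_insert, Finset.mem_singleton] at h1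
      rcases h1 with h1 | h1
      · rw [Sym2.eq_iff] at h1
        rcases h1 with ⟨-, h1⟩ | ⟨h1, h2⟩ <;> omega
      · rw [Sym2.eq_iff] at h1
        rcases h1 with ⟨-, h1⟩ | ⟨h1, h2⟩ <;> omega
    · rintro (rfl | rfl)
      · exact ⟨by omega, hx⟩
      · exact ⟨hyi, hy⟩
  rw [row_encU i U hnd hi hd, hdg, hfil, Finset.sum_pair (by omega)]

/-- the code after replacing the two links at `i` -/
private theorem fs_enc (i : ℕ) (U : Finset (Sym2 ℕ)) (x y : ℕ) (hxy : x < y) (hyi : y < i)
    (hx : s(i, x) ∈ U) (hy : s(i, y) ∈ U) :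
    encU U = lc i x + lc i y + encU ((U.erase s(i, x)).erase s(i, y)) := by
  have hne : s(i, y) ≠ s(i, x) := by
    intro h
    rw [Sym2.eq_iff] at h
    rcases h with ⟨-, h⟩ | ⟨h, -⟩ <;> omega
  have h1 : encU U = encS s(i, x) + encU (U.erase s(i, x)) := by
    unfold encU
    exact (Finset.add_sum_erase U encS hx).symm
  have h2 : encU (U.erase s(i, x)) = encS s(i, y) + encU ((U.erase s(i, x)).erase s(i, y)) := by
    unfold encU
    exact (Finset.add_sum_erase _ encS (Finset.mem_erase.mpr ⟨hne, hy⟩)).symm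
  rw [h1, h2, fs_encS_lt i x (by omega), fs_encS_lt i y hyi]
  omega

private theorem fs_dg (i : ℕ) (U : Finset (Sym2 ℕ)) (x y : ℕ) (hxy : x < y) (hyi : y < i)
    (hx : s(i, x) ∈ U) (hy : s(i, y) ∈ U) (hd : ∀ x, dg U x ≤ 2) (z : ℕ) :
    dg (insert s(x, y) ((U.erase s(i, x)).erase s(i, y))) z ≤ 2 := by
  have hne : s(i, y) ≠ s(i, x) := by
    intro h
    rw [Sym2.eq_iff] at h
    rcases h with ⟨-, h⟩ | ⟨h, -⟩ <;> omega
  by_cases hz : z = x ∨ z = y
  · -- one link is removed at z
    have hex : ∃ e0 ∈ U, z ∈ e0 ∧ (e0 = s(i, x) ∨ e0 = s(i, y)) := by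
      rcases hz with hz | hz
      · exact ⟨s(i, x), hx, by rw [hz]; exact Sym2.mem_mk_right i x, Or.inl rfl⟩
      · exact ⟨s(i, y), hy, by rw [hz]; exact Sym2.mem_mk_right i y, Or.inr rfl⟩
    obtain ⟨e0, he0, hze, hor⟩ := hex
    have hsub : ((insert s(x, y) ((U.erase s(i, x)).erase s(i, y))).filter (fun e => z ∈ e)) ⊆
        insert s(x, y) ((U.filter (fun e => z ∈ e)).erase e0) := by
      intro e he
      rw [Finset.mem_filter, Finset.mem_insert] at he
      obtain ⟨h1 | h1, h2⟩ := he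
      · rw [h1]; exact Finset.mem_insert_self _ _
      · rw [Finset.mem_erase, Finset.mem_erase] at h1
        refine Finset.mem_insert_of_mem ?_
        rw [Finset.mem_erase, Finset.mem_filter]
        refine ⟨?_, h1.2.2, h2⟩
        rcases hor with h3 | h3
        · rw [h3]; exact h1.2.1
        · rw [h3]; exact h1.1
    have h3 : e0 ∈ U.filter (fun e => z ∈ e) := Finset.mem_filter.mpr ⟨he0, hze⟩
    have h4 := Finset.card_erase_add_one h3
    have h5 : (U.filter (fun e => z ∈ e)).card ≤ 2 := hd z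
    calc dg (insert s(x, y) ((U.erase s(i, x)).erase s(i, y))) z
        ≤ (insert s(x, y) ((U.filter (fun e => z ∈ e)).erase e0)).card := Finset.card_le_card hsub
      _ ≤ ((U.filter (fun e => z ∈ e)).erase e0).card + 1 := Finset.card_insert_le _ _
      _ ≤ 2 := by omega
  · have hsub : ((insert s(x, y) ((U.erase s(i, x)).erase s(i, y))).filter (fun e => z ∈ e)) ⊆
        U.filter (fun e => z ∈ e) := by
      intro e he
      rw [Finset.mem_filter, Finset.mem_insert] at he
      obtain ⟨h1 | h1, h2⟩ := he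
      · rw [h1, Sym2.mem_iff] at h2
        exact absurd h2 hz
      · rw [Finset.mem_erase, Finset.mem_erase] at h1
        exact Finset.mem_filter.mpr ⟨h1.2.2, h2⟩
    exact (Finset.card_le_card hsub).trans (hd z)

private theorem fs_main (N : Num) (i : ℕ) (hin : i < N.n) (U : Finset (Sym2 ℕ)) (s t : ℕ)
    (ht : t ≤ s) (hnd : ∀ e ∈ U, ¬ e.IsDiag) (hi : ∀ e ∈ U, ∀ x ∈ e, x ≤ i)
    (hd : ∀ x, dg U x ≤ 2)
    (h : fin (Cst i) (Dst i) i N.M (N.out i) N.w (N.T i) (encU U) s = true)
    (x y : ℕ) (hxy : x < y) (hx : s(i, x) ∈ U) (hy : s(i, y) ∈ U) :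
    (s(x, y) ∉ U → N.toDP.B i (insert s(x, y) ((U.erase s(i, x)).erase s(i, y))) t) ∧
    (U = {s(i, x), s(i, y)} → t + N.toDP.w x y ≤ N.toDP.M ∧ t + N.toDP.out i ≤ N.toDP.M) ∧
    (U = {s(i, x), s(i, y), s(x, y)} → t ≤ N.toDP.M) := by
  obtain ⟨hyi, hrow⟩ := fs_row i U hnd hi hd x y hxy hx hy
  have henc := fs_enc i U x y hxy hyi hx hy
  have hdg' := fs_dg i U x y hxy hyi hx hy hd
  have h8 : ∀ a b : ℕ, a < b → (8 : ℕ) ^ a < 8 ^ b :=
    fun a b hab => Nat.pow_lt_pow_right (by norm_num) hab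
  have hxy8 := h8 x y hxy
  have hyi8 := h8 y i hyi
  have hy1 : (8 : ℕ) ^ (y + 1) ≤ 8 ^ i := Nat.pow_le_pow_right (by norm_num) hyi
  rw [pow_succ] at hy1
  have hxpos : 0 < (8 : ℕ) ^ x := by positivity
  have hipos : 0 < (8 : ℕ) ^ i := by positivity
  have hlog1 : Nat.log2 (8 ^ x + 8 ^ y) / 3 = y := log2_pow8_add x y hxy
  have hlog2 : Nat.log2 (8 ^ x) / 3 = x := log2_pow8 x
  -- unfold the test
  unfold fin at h
  rw [nf_eq] at h
  have e1 : Nat.div (encU U) (Nat.pow 8 (cd i 0)) = 8 ^ x + 8 ^ y + 2 * 8 ^ i := hrow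
  rw [e1, bc_eq] at h
  have e2 : ¬ Nat.beq (8 ^ x + 8 ^ y + 2 * 8 ^ i) 0 = true := by
    intro hc
    have := Nat.eq_of_beq_eq_true hc
    omega
  rw [if_neg e2, nf_eq, bc_eq] at h
  have e3 : Nat.div (8 ^ x + 8 ^ y + 2 * 8 ^ i) (Nat.pow 8 i) = 2 := by
    change (8 ^ x + 8 ^ y + 2 * 8 ^ i) / 8 ^ i = 2
    rw [Nat.add_mul_div_right _ _ hipos, Nat.div_eq_of_lt (by omega)]
  rw [e3, if_pos (Nat.beq_refl 2), nf_eq] at h
  have e4 : Nat.sub (8 ^ x + 8 ^ y + 2 * 8 ^ i) (Nat.mul 2 (Nat.pow 8 i)) = 8 ^ x + 8 ^ y :=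
    Nat.add_sub_cancel _ _
  rw [e4, nf_eq] at h
  have e5 : Nat.div (Nat.log2 (8 ^ x + 8 ^ y)) 3 = y := hlog1
  rw [e5, nf_eq] at h
  have e6 : Nat.sub (8 ^ x + 8 ^ y) (Nat.pow 8 y) = 8 ^ x := Nat.add_sub_cancel _ _
  have e7 : Nat.div (Nat.log2 (8 ^ x)) 3 = x := hlog2
  rw [e6, e7, nf_eq, nf_eq] at h
  have e8 : Nat.sub (Nat.add (encU U) (lc y x)) (Nat.add (lc i x) (lc i y)) =
      lc y x + encU ((U.erase s(i, x)).erase s(i, y)) := by
    change encU U + lc y x - (lc i x + lc i y) = _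
    rw [henc]
    omega
  rw [e8] at h
  obtain ⟨h1, h2⟩ := fs_bc_and h
  have hsxy : encS s(x, y) = lc y x := by
    rw [Sym2.eq_swap]
    exact fs_encS_lt y x hxy
  -- not in U
  have hA : s(x, y) ∉ U → N.toDP.B i (insert s(x, y) ((U.erase s(i, x)).erase s(i, y))) t ∧
      bc (Nat.beq (lc y x + encU ((U.erase s(i, x)).erase s(i, y))) (lc y x))
            (bc (Nat.ble (Nat.add s (N.w x y)) N.M) (Nat.ble (Nat.add s (N.out i)) N.M) false) true
        = true := by
    intro hnot
    have hnot' : s(x, y) ∉ (U.erase s(i, x)).erase s(i, y) := by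
      intro hm
      rw [Finset.mem_erase, Finset.mem_erase] at hm
      exact hnot hm.2.2
    have hencU : encU (insert s(x, y) ((U.erase s(i, x)).erase s(i, y))) =
        lc y x + encU ((U.erase s(i, x)).erase s(i, y)) := by
      have : encU (insert s(x, y) ((U.erase s(i, x)).erase s(i, y))) =
          encS s(x, y) + encU ((U.erase s(i, x)).erase s(i, y)) := by
        unfold encU
        exact Finset.sum_insert hnot'
      rw [this, hsxy]
    have hok : ok (Cst i) (Dst i) (lc y x + encU ((U.erase s(i, x)).erase s(i, y))) = true := by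
      rw [← hencU]
      refine ok_encU i _ ?_ ?_ hdg'
      · intro e he
        rcases Finset.mem_insert.mp he with he | he
        · rw [he, Sym2.mk_isDiag_iff]
          show ¬ x = y
          omega
        · rw [Finset.mem_erase, Finset.mem_erase] at he
          exact hnd e he.2.2
      · intro e he z hz
        rcases Finset.mem_insert.mp he with he | he
        · rw [he, Sym2.mem_iff] at hz
          rcases hz with hz | hz <;> omega
        · rw [Finset.mem_erase, Finset.mem_erase] at he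
          exact hi e he.2.2 z hz
    have h3 := fs_bc_imp h2 hok
    obtain ⟨h4, h5⟩ := fs_bc_and h3
    obtain ⟨v, hv, hHas⟩ := find_sound _ _ _ h4
    refine ⟨⟨hin, v, ht.trans hv, ?_⟩, h5⟩
    rw [hencU]
    exact hHas
  refine ⟨fun hnot => (hA hnot).1, ?_, ?_⟩
  · intro hU
    have hnot : s(x, y) ∉ U := by
      rw [hU, Finset.mem_insert, Finset.mem_singleton]
      rintro (hh | hh)
      · rw [Sym2.eq_iff] at hh
        rcases hh with ⟨hh, -⟩ | ⟨hh, hh2⟩ <;> omega
      · rw [Sym2.eq_iff] at hh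
        rcases hh with ⟨hh, -⟩ | ⟨hh, hh2⟩ <;> omega
    have h5 := (hA hnot).2
    have hemp : (U.erase s(i, x)).erase s(i, y) = ∅ := by
      rw [Finset.eq_empty_iff_forall_notMem]
      intro e he
      rw [Finset.mem_erase, Finset.mem_erase, hU, Finset.mem_insert, Finset.mem_singleton] at he
      rcases he.2.2 with h6 | h6
      · exact he.2.1 h6
      · exact he.1 h6
    have h0 : encU (∅ : Finset (Sym2 ℕ)) = 0 := rfl
    rw [hemp, h0, add_zero] at h5
    have h6 := fs_bc_imp h5 (Nat.beq_refl _)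
    obtain ⟨h7, h8'⟩ := fs_bc_and h6
    have h9 : s + N.w x y ≤ N.M := Nat.le_of_ble_eq_true h7
    have h10 : s + N.out i ≤ N.M := Nat.le_of_ble_eq_true h8'
    refine ⟨?_, ?_⟩
    · show t + N.w x y ≤ N.M
      omega
    · show t + N.out i ≤ N.M
      omega
  · intro hU
    have h3 : (U.erase s(i, x)).erase s(i, y) = {s(x, y)} := by
      ext e
      rw [Finset.mem_erase, Finset.mem_erase, hU, Finset.mem_insert, Finset.mem_insert,
        Finset.mem_singleton]
      constructor
      · rintro ⟨ha, hb, hc | hc | hc⟩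
        · exact absurd hc hb
        · exact absurd hc ha
        · exact hc
      · intro hc
        refine ⟨?_, ?_, Or.inr (Or.inr hc)⟩
        · rw [hc]
          intro hh
          rw [Sym2.eq_iff] at hh
          rcases hh with ⟨hh, -⟩ | ⟨hh, hh2⟩ <;> omega
        · rw [hc]
          intro hh
          rw [Sym2.eq_iff] at hh
          rcases hh with ⟨hh, -⟩ | ⟨hh, hh2⟩ <;> omega
    have h4 : encU ({s(x, y)} : Finset (Sym2 ℕ)) = lc y x := by
      unfold encU
      rw [Finset.sum_singleton, hsxy]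
    rw [h3, h4] at h1
    have h5 := fs_bc_imp h1 (Nat.beq_refl _)
    have h6 : s ≤ N.M := Nat.le_of_ble_eq_true h5
    show t ≤ N.M
    omega

theorem fin_sound (N : Num) (i : ℕ) (hin : i < N.n) (U : Finset (Sym2 ℕ)) (s t : ℕ)
    (ht : t ≤ s) (hnd : ∀ e ∈ U, ¬ e.IsDiag) (hi : ∀ e ∈ U, ∀ x ∈ e, x ≤ i)
    (hd : ∀ x, dg U x ≤ 2)
    (h : fin (Cst i) (Dst i) i N.M (N.out i) N.w (N.T i) (encU U) s = true) :
    N.toDP.Good i U t := by
  refine ⟨?_, ?_⟩
  · intro hdg hne
    have hfil : (Finset.range i).filter (fun z => s(i, z) ∈ U) = ∅ := by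
      rw [Finset.eq_empty_iff_forall_notMem]
      intro z hz
      rw [Finset.mem_filter] at hz
      have h1 : s(i, z) ∈ U.filter (fun e => i ∈ e) :=
        Finset.mem_filter.mpr ⟨hz.2, Sym2.mem_mk_left i z⟩
      have h2 : U.filter (fun e => i ∈ e) = ∅ := Finset.card_eq_zero.mp hdg
      rw [h2] at h1
      exact absurd h1 (Finset.notMem_empty _)
    have hrow : encU U / 8 ^ (cd i 0) = 0 := by
      rw [row_encU i U hnd hi hd, hdg, hfil, Finset.sum_empty, zero_mul, add_zero]
    unfold fin at h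
    rw [nf_eq] at h
    have e1 : Nat.div (encU U) (Nat.pow 8 (cd i 0)) = 0 := hrow
    rw [e1, bc_eq, if_pos (Nat.beq_refl 0), bc_eq] at h
    have hpos : 0 < encU U := encU_pos U (Finset.nonempty_iff_ne_empty.mpr hne)
    have e2 : ¬ Nat.beq (encU U) 0 = true := by
      intro hc
      have := Nat.eq_of_beq_eq_true hc
      omega
    rw [if_neg e2] at h
    obtain ⟨v, hv, hHas⟩ := find_sound _ _ _ h
    exact ⟨hin, v, ht.trans hv, hHas⟩
  · intro x y hxy hx hy
    rcases Nat.lt_or_gt_of_ne hxy with hlt | hlt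
    · exact fs_main N i hin U s t ht hnd hi hd h x y hlt hx hy
    · obtain ⟨h1, h2, h3⟩ := fs_main N i hin U s t ht hnd hi hd h y x hlt hy hx
      refine ⟨?_, ?_, ?_⟩
      · intro hnot
        have h4 : s(y, x) ∉ U := by
          rw [Sym2.eq_swap]; exact hnot
        have h5 := h1 h4
        have h6 : insert s(y, x) ((U.erase s(i, y)).erase s(i, x)) =
            insert s(x, y) ((U.erase s(i, x)).erase s(i, y)) := by
          rw [Sym2.eq_swap, Finset.erase_right_comm]
        rw [h6] at h5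
        exact h5
      · intro hU
        have h4 : U = {s(i, y), s(i, x)} := by
          rw [hU, Finset.pair_comm]
        have h5 := h2 h4
        have h6 : N.toDP.w x y = N.toDP.w y x := fs_w_symm N x y
        rw [h6]
        exact h5
      · intro hU
        apply h3
        rw [hU, Sym2.eq_swap (a := y) (b := x)]
        exact Finset.insert_comm _ _ _

end Pool.Agent.LC
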