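import Pool.Agent.LC.Defs

/-!
# The numerical elimination scheme
Sets of links are encoded by octal digits: row `x` has the digits `cd x 0, ..., cd x x`; the digit
`cd x y` (`y < x`) is the multiplicity of the link `{x, y}`, the digit `cd x x` is the degree of `x`.
All the functions below are written for evaluation by the kernel.
-/

set_option autoImplicit false

namespace Pool.Agent.LC

/-- tables: binary trees of (key, value) pairs -/
inductive Tr where
  | nil : Tr
  | node : Tr → ℕ → ℕ → Tr → Tr

/-- `(m, s)` is an entry of the tree -/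
def Tr.Has : Tr → ℕ → ℕ → Prop
  | Tr.nil, _, _ => False
  | Tr.node l k v r, m, s => l.Has m s ∨ (m = k ∧ s = v) ∨ r.Has m s

/-- boolean choice -/
noncomputable def bc (b x y : Bool) : Bool := Bool.rec (motive := fun _ => Bool) y x b

/-- evaluate `n`, then apply `k` -/
noncomputable def nf (n : ℕ) (k : ℕ → Bool) : Bool :=
  Nat.rec (motive := fun _ => Bool) (k 0) (fun m _ => k (Nat.succ m)) n

/-- some entry with key `m` (found by binary search) has value at least `s` -/
noncomputable def Tr.find (t : Tr) (m s : ℕ) : Bool :=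
  Tr.rec (motive := fun _ => Bool) false
    (fun _ k v _ fl fr => bc (Nat.beq m k) (Nat.ble s v) (bc (Nat.ble m k) fl fr)) t

/-- all entries satisfy `f` -/
noncomputable def Tr.all (f : ℕ → ℕ → Bool) (t : Tr) : Bool :=
  Tr.rec (motive := fun _ => Bool) true (fun _ k v _ fl fr => bc (f k v) (bc fl fr false) false) t

/-- position of the digit `(x, y)`, `y ≤ x` -/
def cd (x y : ℕ) : ℕ := Nat.add (Nat.div (Nat.mul x (Nat.succ x)) 2) y

/-- code of the link `{x, y}`, `y < x` -/
def lc (x y : ℕ) : ℕ :=
  Nat.add (Nat.pow 8 (cd x y)) (Nat.add (Nat.pow 8 (cd x x)) (Nat.pow 8 (cd y y)))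

/-- code of a link -/
def encS (e : Sym2 ℕ) : ℕ :=
  Sym2.lift ⟨fun x y => lc (max x y) (min x y), fun x y => by
    simp only [max_comm x y, min_comm x y]⟩ e

/-- code of a set of links -/
def encU (U : Finset (Sym2 ℕ)) : ℕ := ∑ e ∈ U, encS e

/-- constant for the digit test, rows `0, ..., i` -/
def Cst : ℕ → ℕ
  | 0 => 1
  | i + 1 => Cst i + 8 ^ (cd (i + 1) 0) * (2 * ((8 ^ (i + 1) - 1) / 7) + 8 ^ (i + 1))

/-- mask for the digit test, rows `0, ..., i` -/
def Dst (i : ℕ) : ℕ := 4 * ((8 ^ (cd (i + 1) 0) - 1) / 7)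

/-- digit test -/
noncomputable def ok (C D m : ℕ) : Bool := Nat.beq (Nat.land (Nat.add m C) D) 0

/-- all ways to add entries of the tables -/
noncomputable def overT (C D : ℕ) (k : ℕ → ℕ → Bool) (ts : List Tr) : ℕ → ℕ → Bool :=
  List.rec (motive := fun _ => ℕ → ℕ → Bool) k
    (fun t _ ih => fun m s => bc (ih m s)
      (t.all (fun m' s' => nf (Nat.add m m') (fun mm => bc (ok C D mm)
        (nf (Nat.add s s') (fun ss => ih mm ss)) true))) false) ts

/-- all ways to add raw links at `i` -/
noncomputable def overR (C D i : ℕ) (k : ℕ → ℕ → Bool) (l : List (ℕ × ℕ)) : ℕ → ℕ → Bool :=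
  List.rec (motive := fun _ => ℕ → ℕ → Bool) k
    (fun q _ ih => fun m s => bc (ih m s)
      (nf (Nat.add m (lc i q.1)) (fun mm => bc (ok C D mm)
        (nf (Nat.add s q.2) (fun ss => ih mm ss)) true)) false) l

/-- the test for one combination -/
noncomputable def fin (C D i M o : ℕ) (w : ℕ → ℕ → ℕ) (T : Tr) (m s : ℕ) : Bool :=
  nf (Nat.div m (Nat.pow 8 (cd i 0))) fun row =>
  bc (Nat.beq row 0) (bc (Nat.beq m 0) true (T.find m s))
   (nf (Nat.pow 8 i) fun pi =>
    bc (Nat.beq (Nat.div row pi) 2)
     (nf (Nat.sub row (Nat.mul 2 pi)) fun e =>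
      nf (Nat.div (Nat.log2 e) 3) fun y =>
      nf (Nat.div (Nat.log2 (Nat.sub e (Nat.pow 8 y))) 3) fun x =>
      nf (lc y x) fun l =>
      nf (Nat.sub (Nat.add m l) (Nat.add (lc i x) (lc i y))) fun r =>
      bc (bc (Nat.beq r (Nat.add l l)) (Nat.ble s M) true)
        (bc (ok C D r)
          (bc (T.find r s)
            (bc (Nat.beq r l)
              (bc (Nat.ble (Nat.add s (w x y)) M) (Nat.ble (Nat.add s o) M) false) true) false)
          true) false)
     true)

/-- look up a key in an association list (0 if absent) -/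
def look (y : ℕ) : List (ℕ × ℕ) → ℕ
  | [] => 0
  | q :: t => if q.1 = y then q.2 else look y t

/-- numerical data of an elimination scheme; `nb x` lists the smaller neighbours of `x` with the
weights -/
structure Num where
  n : ℕ
  nb : ℕ → List (ℕ × ℕ)
  p : ℕ → ℕ
  M : ℕ
  out : ℕ → ℕ
  T : ℕ → Tr

/-- the weight function -/
def Num.w (N : Num) (x y : ℕ) : ℕ :=
  if y < x then look y (N.nb x) else if x < y then look x (N.nb y) else 0

/-- list of the labels merged at step `i` -/
def Num.chl (N : Num) (i : ℕ) : List ℕ :=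
  (List.range N.n).filter (fun c => decide (i < c) && decide (N.p c = i))

/-- the test of step `i` -/
noncomputable def Num.step (N : Num) (i : ℕ) : Bool :=
  nf (Cst i) fun C => nf (Dst i) fun D =>
    overT C D (overR C D i (fin C D i N.M (N.out i) N.w (N.T i)) (N.nb i))
      ((N.chl i).map N.T) 0 0

/-- the side conditions -/
structure Num.Side (N : Num) : Prop where
  parent : ∀ r < N.n, 0 < r → N.p r < r
  nbs : ∀ i < N.n, ((N.nb i).map Prod.fst).Nodup ∧ ∀ q ∈ N.nb i, q.1 < i
  lo : ∀ r < N.n, (N.T r).all (fun k _ => Nat.ble (Nat.succ k) (Nat.pow 8 (cd (N.p r + 1) 0))) = true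
  mx : ∀ i < N.n, ∀ r < N.n, i < r → N.p r < i →
    (N.T r).all (fun _ v => Nat.ble v (N.out i)) = true

/-- the elimination scheme given by the numerical data -/
def Num.toDP (N : Num) : DP where
  n := N.n
  w := N.w
  p := N.p
  M := N.M
  out := N.out
  B := fun r P t => r < N.n ∧ ∃ s, t ≤ s ∧ (N.T r).Has (encU P) s

end Pool.Agent.LC
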