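import Pool.Agent.LC.FinS

/-!
# Soundness of the numerical scheme
-/

set_option autoImplicit false

namespace Pool.Agent.LC

private theorem look_mem (y : ℕ) (l : List (ℕ × ℕ)) (h : 0 < look y l) : y ∈ l.map Prod.fst := by
  induction l with
  | nil => simp [look] at h
  | cons q t ih =>
    rw [look] at h
    by_cases hq : q.1 = y
    · simp [hq]
    · rw [if_neg hq] at h
      rw [List.map_cons, List.mem_cons]
      exact Or.inr (ih h)

private theorem dg_mono {U V : Finset (Sym2 ℕ)} (h : U ⊆ V) (x : ℕ) : dg U x ≤ dg V x := by
  unfold dg
  exact Finset.card_le_card (Finset.filter_subset_filter _ h)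

private theorem mem_chl (N : Num) (i c : ℕ) : c ∈ N.chl i ↔ c ∈ N.toDP.ch i := by
  simp only [Num.chl, DP.ch, Num.toDP, List.mem_filter, List.mem_range, Finset.mem_filter,
    Finset.mem_Ioo, Bool.and_eq_true, decide_eq_true_eq]
  tauto

private theorem chl_toFinset (N : Num) (i : ℕ) : (N.chl i).toFinset = N.toDP.ch i := by
  ext c
  rw [List.mem_toFinset, mem_chl]

private theorem sound_lo (N : Num) (h1 : N.Side) (r : ℕ) (P : Finset (Sym2 ℕ)) (t : ℕ)
    (h : N.toDP.B r P t) : ∀ e ∈ P, ∀ x ∈ e, x ≤ N.p r := by
  obtain ⟨hr, s, hs, hh⟩ := h
  have h3 := all_sound _ _ (h1.lo r hr) _ _ hh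
  have h4 : encU P < 8 ^ (cd (N.p r + 1) 0) := by
    have := Nat.le_of_ble_eq_true h3
    exact this
  exact lo_encU P (N.p r) h4

theorem Num.sound (N : Num) (h1 : N.Side) (h2 : ∀ i < N.n, N.step i = true) :
    N.toDP.Sound := by
  constructor
  · intro x y
    change N.w x y = N.w y x
    unfold Num.w
    rcases lt_trichotomy x y with h | h | h
    · rw [if_neg (by omega), if_pos h, if_pos h]
    · subst h; rfl
    · rw [if_pos h, if_neg (by omega), if_pos h]
  · intro r h0 hr
    exact h1.parent r hr h0
  · intro r P t h
    exact sound_lo N h1 r P t h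
  · intro i r P t hir hr hp h
    obtain ⟨_, s, hs, hh⟩ := h
    have hin : i < N.n := lt_trans hir hr
    have h3 := all_sound _ _ (h1.mx i hin r hr hir hp) _ _ hh
    exact le_trans hs (Nat.le_of_ble_eq_true h3)
  · intro i hin P t R hP hR hPP hPR hd hnd
    have hin' : i < N.n := hin
    have hst := h2 i hin'
    unfold Num.step at hst
    rw [nf_eq, nf_eq] at hst
    have hsub1 : (N.chl i).toFinset.biUnion P ⊆ N.toDP.uni i P R := by
      rw [chl_toFinset]
      exact Finset.subset_union_left
    have hempty : encU (∅ : Finset (Sym2 ℕ)) = 0 := by simp [encU]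
    have hloU : ∀ e ∈ (N.chl i).toFinset.biUnion P, ∀ x ∈ e, x ≤ i := by
      intro e he x hx
      rw [Finset.mem_biUnion] at he
      obtain ⟨c, hc, hec⟩ := he
      rw [chl_toFinset] at hc
      rcases hP c hc with h | h
      · rw [h.1] at hec; simp at hec
      · have h4 := sound_lo N h1 c _ _ h e hec x hx
        have h5 : N.p c = i := (Finset.mem_filter.mp hc).2
        omega
    have hA := overT_sound i _ (N.chl i)
      (List.Nodup.filter _ List.nodup_range) N.T P t
      (by
        intro c hc
        rw [mem_chl] at hc
        rcases hP c hc with h | h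
        · exact Or.inl h
        · exact Or.inr h.2)
      ∅ (by intro c _; exact Finset.disjoint_empty_left _)
      (by
        intro c hc c' hc' hne
        rw [mem_chl] at hc hc'
        exact hPP c hc c' hc' hne)
      (by
        intro e he
        rw [Finset.empty_union] at he
        exact hnd e (hsub1 he))
      (by
        intro e he
        rw [Finset.empty_union] at he
        exact hloU e he)
      (by
        intro x
        rw [Finset.empty_union]
        exact le_trans (dg_mono hsub1 x) (hd x))
      0 (by rw [hempty]; exact hst)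
    obtain ⟨s', hs', hk⟩ := hA
    rw [Finset.empty_union] at hk
    have huni : N.toDP.uni i P R
        = (N.chl i).toFinset.biUnion P ∪ R.image (fun y => s(i, y)) := by
      rw [chl_toFinset]
      rfl
    have hwi : ∀ y ∈ R, look y (N.nb i) = N.w i y := by
      intro y hy
      have := (hR y hy).1
      unfold Num.w
      rw [if_pos this]
    have hB := overR_sound i _ (N.nb i) (h1.nbs i hin').1 (h1.nbs i hin').2
      ((N.chl i).toFinset.biUnion P) R
      (by
        intro y hy
        apply look_mem
        rw [hwi y hy]
        exact (hR y hy).2)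
      (by
        intro y hy hmem
        rw [Finset.mem_biUnion] at hmem
        obtain ⟨c, hc, hec⟩ := hmem
        rw [chl_toFinset] at hc
        exact hPR c hc y hy hec)
      (by
        intro e he
        exact hnd e (hsub1 he))
      hloU
      (by
        intro x
        rw [← huni]
        exact hd x)
      s' hk
    rw [← huni] at hB
    refine fin_sound N i hin' (N.toDP.uni i P R) _ _ ?_ hnd ?_ hd hB
    · have e1 : ∑ y ∈ R, look y (N.nb i) = ∑ y ∈ R, N.toDP.w i y :=
        Finset.sum_congr rfl (fun y hy => hwi y hy)
      rw [e1]
      rw [chl_toFinset] at hs'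
      omega
    · intro e he x hx
      rw [huni, Finset.mem_union] at he
      rcases he with he | he
      · exact hloU e he x hx
      · rw [Finset.mem_image] at he
        obtain ⟨y, hy, rfl⟩ := he
        rw [Sym2.mem_iff] at hx
        have := (hR y hy).1
        rcases hx with rfl | rfl
        · exact le_refl _
        · omega

end Pool.Agent.LC
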