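import Pool.Agent.LC.Enc

/-!
# Soundness of the enumeration of unions
-/

set_option autoImplicit false

namespace Pool.Agent.LC

theorem bc_eq (b x y : Bool) : bc b x y = if b = true then x else y := by
  cases b <;> rfl

theorem nf_eq (n : ℕ) (k : ℕ → Bool) : nf n k = k n := by
  cases n <;> rfl

private theorem find_node (l : Tr) (k v : ℕ) (r : Tr) (m s : ℕ) :
    (Tr.node l k v r).find m s
      = bc (Nat.beq m k) (Nat.ble s v) (bc (Nat.ble m k) (l.find m s) (r.find m s)) := rfl

private theorem all_node (f : ℕ → ℕ → Bool) (l : Tr) (k v : ℕ) (r : Tr) :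
    (Tr.node l k v r).all f = bc (f k v) (bc (l.all f) (r.all f) false) false := rfl

theorem find_sound (t : Tr) (m s : ℕ) (h : t.find m s = true) : ∃ v, s ≤ v ∧ t.Has m v := by
  induction t with
  | nil => exact absurd h (by simp [Tr.find])
  | node l k v r ihl ihr =>
    rw [find_node, bc_eq] at h
    by_cases h1 : Nat.beq m k = true
    · rw [if_pos h1] at h
      exact ⟨v, Nat.le_of_ble_eq_true h, Or.inr (Or.inl ⟨Nat.eq_of_beq_eq_true h1, rfl⟩)⟩
    · rw [if_neg h1, bc_eq] at h
      by_cases h2 : Nat.ble m k = true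
      · rw [if_pos h2] at h
        obtain ⟨v', h3, h4⟩ := ihl h
        exact ⟨v', h3, Or.inl h4⟩
      · rw [if_neg h2] at h
        obtain ⟨v', h3, h4⟩ := ihr h
        exact ⟨v', h3, Or.inr (Or.inr h4)⟩

theorem all_sound (t : Tr) (f : ℕ → ℕ → Bool) (h : t.all f = true) (m v : ℕ)
    (hm : t.Has m v) : f m v = true := by
  induction t with
  | nil => exact absurd hm (by simp [Tr.Has])
  | node l k w r ihl ihr =>
    rw [all_node, bc_eq] at h
    by_cases h1 : f k w = true
    · rw [if_pos h1, bc_eq] at h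
      by_cases h2 : l.all f = true
      · rw [if_pos h2] at h
        rcases hm with hm | ⟨hm, hv⟩ | hm
        · exact ihl h2 hm
        · rw [hm, hv]; exact h1
        · exact ihr h hm
      · rw [if_neg h2] at h
        exact absurd h (by simp)
    · rw [if_neg h1] at h
      exact absurd h (by simp)

private theorem overR_cons (C D i : ℕ) (k : ℕ → ℕ → Bool) (q : ℕ × ℕ) (l : List (ℕ × ℕ)) (m s : ℕ) :
    overR C D i k (q :: l) m s
      = bc (overR C D i k l m s) (nf (Nat.add m (lc i q.1)) (fun mm => bc (ok C D mm)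
        (nf (Nat.add s q.2) (fun ss => overR C D i k l mm ss)) true)) false := rfl

private theorem overT_cons (C D : ℕ) (k : ℕ → ℕ → Bool) (t : Tr) (ts : List Tr) (m s : ℕ) :
    overT C D k (t :: ts) m s
      = bc (overT C D k ts m s)
      (t.all (fun m' s' => nf (Nat.add m m') (fun mm => bc (ok C D mm)
        (nf (Nat.add s s') (fun ss => overT C D k ts mm ss)) true))) false := rfl

private theorem bc_and {b x : Bool} (h : bc b x false = true) : b = true ∧ x = true := by
  rw [bc_eq] at h
  by_cases h1 : b = true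
  · rw [if_pos h1] at h; exact ⟨h1, h⟩
  · rw [if_neg h1] at h; exact absurd h (by simp)

private theorem bc_imp {b x : Bool} (h : bc b x true = true) (hb : b = true) : x = true := by
  rw [bc_eq, if_pos hb] at h; exact h

private theorem dg_mono {U V : Finset (Sym2 ℕ)} (h : U ⊆ V) (x : ℕ) : dg U x ≤ dg V x :=
  Finset.card_le_card (Finset.filter_subset_filter _ h)

private theorem encS_lt (i y : ℕ) (h : y < i) : encS s(i, y) = lc i y := by
  show lc (max i y) (min i y) = lc i y
  rw [max_eq_left h.le, min_eq_right h.le]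

theorem overR_sound (i : ℕ) (k : ℕ → ℕ → Bool) (l : List (ℕ × ℕ))
    (hl : (l.map Prod.fst).Nodup) (hlt : ∀ q ∈ l, q.1 < i)
    (U : Finset (Sym2 ℕ)) (R : Finset ℕ) (hR : ∀ y ∈ R, y ∈ l.map Prod.fst)
    (hdisj : ∀ y ∈ R, s(i, y) ∉ U)
    (hnd : ∀ e ∈ U, ¬ e.IsDiag) (hi : ∀ e ∈ U, ∀ x ∈ e, x ≤ i)
    (hd : ∀ x, dg (U ∪ R.image (fun y => s(i, y))) x ≤ 2) (s : ℕ)
    (h : overR (Cst i) (Dst i) i k l (encU U) s = true) :
    k (encU (U ∪ R.image (fun y => s(i, y)))) (s + ∑ y ∈ R, look y l) = true := by
  induction l generalizing U R s with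
  | nil =>
    have hR0 : R = ∅ := by
      apply Finset.eq_empty_of_forall_notMem
      intro y hy
      have := hR y hy
      simp at this
    subst hR0
    have h' : k (encU U) s = true := h
    simpa using h'
  | cons q l ih =>
    rw [overR_cons] at h
    obtain ⟨h1, h2⟩ := bc_and h
    have hl' : (l.map Prod.fst).Nodup := by
      rw [List.map_cons, List.nodup_cons] at hl; exact hl.2
    have hq : q.1 ∉ l.map Prod.fst := by
      rw [List.map_cons, List.nodup_cons] at hl; exact hl.1
    have hlt' : ∀ q' ∈ l, q'.1 < i := fun q' hq' => hlt q' (List.mem_cons_of_mem _ hq')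
    have hqi : q.1 < i := hlt q List.mem_cons_self
    by_cases hqR : q.1 ∈ R
    · -- the link is used
      have hU' : encU (insert s(i, q.1) U) = Nat.add (encU U) (lc i q.1) := by
        unfold encU
        rw [Finset.sum_insert (hdisj q.1 hqR), encS_lt i q.1 hqi, add_comm]
        rfl
      have hunion : insert s(i, q.1) U ∪ (R.erase q.1).image (fun y => s(i, y))
          = U ∪ R.image (fun y => s(i, y)) := by
        ext e
        simp only [Finset.mem_union, Finset.mem_insert, Finset.mem_image, Finset.mem_erase]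
        constructor
        · rintro ((h | h) | ⟨y, ⟨-, hy⟩, rfl⟩)
          · exact Or.inr ⟨q.1, hqR, h.symm⟩
          · exact Or.inl h
          · exact Or.inr ⟨y, hy, rfl⟩
        · rintro (h | ⟨y, hy, rfl⟩)
          · exact Or.inl (Or.inr h)
          · by_cases hy' : y = q.1
            · exact Or.inl (Or.inl (by rw [hy']))
            · exact Or.inr ⟨y, ⟨hy', hy⟩, rfl⟩
      have hnd' : ∀ e ∈ insert s(i, q.1) U, ¬ e.IsDiag := by
        intro e he
        rcases Finset.mem_insert.mp he with he | he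
        · rw [he, Sym2.mk_isDiag_iff]
          show ¬ i = q.1
          omega
        · exact hnd e he
      have hi' : ∀ e ∈ insert s(i, q.1) U, ∀ x ∈ e, x ≤ i := by
        intro e he x hx
        rcases Finset.mem_insert.mp he with he | he
        · rw [he, Sym2.mem_iff] at hx
          rcases hx with hx | hx
          · exact hx.le
          · rw [hx]; exact hqi.le
        · exact hi e he x hx
      have hsub : insert s(i, q.1) U ⊆ U ∪ R.image (fun y => s(i, y)) := by
        rw [← hunion]; exact Finset.subset_union_left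
      have hd' : ∀ x, dg (insert s(i, q.1) U) x ≤ 2 := fun x => (dg_mono hsub x).trans (hd x)
      rw [nf_eq, ← hU'] at h2
      have h3 := bc_imp h2 (ok_encU i _ hnd' hi' hd')
      rw [nf_eq] at h3
      have h4 := ih hl' hlt' (insert s(i, q.1) U) (R.erase q.1) ?_ ?_ hnd' hi' ?_
        (Nat.add s q.2) h3
      · rw [hunion] at h4
        have hsum : Nat.add s q.2 + ∑ y ∈ R.erase q.1, look y l = s + ∑ y ∈ R, look y (q :: l) := by
          rw [← Finset.add_sum_erase R (fun y => look y (q :: l)) hqR]
          have e1 : look q.1 (q :: l) = q.2 := by simp [look]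
          have e2 : ∑ y ∈ R.erase q.1, look y (q :: l) = ∑ y ∈ R.erase q.1, look y l := by
            refine Finset.sum_congr rfl fun y hy => ?_
            have : q.1 ≠ y := fun h => (Finset.mem_erase.mp hy).1 h.symm
            simp [look, this]
          rw [e1, e2]
          show s + q.2 + _ = _
          omega
        rw [hsum] at h4
        exact h4
      · intro y hy
        obtain ⟨hy1, hy2⟩ := Finset.mem_erase.mp hy
        have := hR y hy2
        rw [List.map_cons, List.mem_cons] at this
        exact this.resolve_left hy1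
      · intro y hy hmem
        obtain ⟨hy1, hy2⟩ := Finset.mem_erase.mp hy
        rcases Finset.mem_insert.mp hmem with he | he
        · rw [Sym2.eq_iff] at he
          rcases he with ⟨-, he⟩ | ⟨he, -⟩
          · exact hy1 he
          · omega
        · exact hdisj y hy2 he
      · rw [hunion]; exact hd
    · -- the link is not used
      have h4 := ih hl' hlt' U R ?_ hdisj hnd hi hd s h1
      · have e2 : ∑ y ∈ R, look y (q :: l) = ∑ y ∈ R, look y l := by
          refine Finset.sum_congr rfl fun y hy => ?_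
          have : q.1 ≠ y := fun h => hqR (h ▸ hy)
          simp [look, this]
        rw [e2]
        exact h4
      · intro y hy
        have := hR y hy
        rw [List.map_cons, List.mem_cons] at this
        exact this.resolve_left (fun h => hqR (h ▸ hy))

theorem overT_sound (i : ℕ) (k : ℕ → ℕ → Bool) (cs : List ℕ) (hcs : cs.Nodup) (T : ℕ → Tr)
    (P : ℕ → Finset (Sym2 ℕ)) (t : ℕ → ℕ)
    (hP : ∀ c ∈ cs, (P c = ∅ ∧ t c = 0) ∨ ∃ v, t c ≤ v ∧ (T c).Has (encU (P c)) v)
    (U : Finset (Sym2 ℕ)) (hU : ∀ c ∈ cs, Disjoint U (P c))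
    (hPP : ∀ c ∈ cs, ∀ c' ∈ cs, c ≠ c' → Disjoint (P c) (P c'))
    (hnd : ∀ e ∈ U ∪ cs.toFinset.biUnion P, ¬ e.IsDiag)
    (hi : ∀ e ∈ U ∪ cs.toFinset.biUnion P, ∀ x ∈ e, x ≤ i)
    (hd : ∀ x, dg (U ∪ cs.toFinset.biUnion P) x ≤ 2) (s : ℕ)
    (h : overT (Cst i) (Dst i) k (cs.map T) (encU U) s = true) :
    ∃ s', s + ∑ c ∈ cs.toFinset, t c ≤ s' ∧ k (encU (U ∪ cs.toFinset.biUnion P)) s' = true := by
  induction cs generalizing U s with
  | nil =>
    refine ⟨s, by simp, ?_⟩
    have : U ∪ ([] : List ℕ).toFinset.biUnion P = U := by simp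
    rw [this]
    exact h
  | cons c cs ih =>
    rw [List.map_cons, overT_cons] at h
    obtain ⟨h1, h2⟩ := bc_and h
    rw [List.nodup_cons] at hcs
    obtain ⟨hc, hcs'⟩ := hcs
    have hcF : c ∉ cs.toFinset := by rw [List.mem_toFinset]; exact hc
    have hP' : ∀ c' ∈ cs, (P c' = ∅ ∧ t c' = 0) ∨ ∃ v, t c' ≤ v ∧ (T c').Has (encU (P c')) v :=
      fun c' h => hP c' (List.mem_cons_of_mem _ h)
    have hPP' : ∀ c1 ∈ cs, ∀ c2 ∈ cs, c1 ≠ c2 → Disjoint (P c1) (P c2) :=
      fun c1 h1 c2 h2 => hPP c1 (List.mem_cons_of_mem _ h1) c2 (List.mem_cons_of_mem _ h2)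
    have hun : U ∪ (c :: cs).toFinset.biUnion P = (U ∪ P c) ∪ cs.toFinset.biUnion P := by
      rw [List.toFinset_cons, Finset.biUnion_insert, Finset.union_assoc]
    have hsum : ∑ c' ∈ (c :: cs).toFinset, t c' = t c + ∑ c' ∈ cs.toFinset, t c' := by
      rw [List.toFinset_cons, Finset.sum_insert hcF]
    rw [hun] at hnd hi hd
    rw [hun, hsum]
    rcases hP c List.mem_cons_self with ⟨he, ht⟩ | ⟨v, hv, hHas⟩
    · rw [he, Finset.union_empty] at hnd hi hd ⊢
      obtain ⟨s', h3, h4⟩ := ih hcs' hP' U (fun c' h => hU c' (List.mem_cons_of_mem _ h)) hPP'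
        hnd hi hd s h1
      refine ⟨s', ?_, h4⟩
      omega
    · have h3 := all_sound _ _ h2 _ _ hHas
      have hdis : Disjoint U (P c) := hU c List.mem_cons_self
      have henc : Nat.add (encU U) (encU (P c)) = encU (U ∪ P c) := by
        unfold encU
        rw [Finset.sum_union hdis]
        rfl
      have hsub : U ∪ P c ⊆ (U ∪ P c) ∪ cs.toFinset.biUnion P := Finset.subset_union_left
      rw [nf_eq, henc] at h3
      have h4 := bc_imp h3 (ok_encU i _ (fun e he => hnd e (hsub he)) (fun e he => hi e (hsub he))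
        (fun x => (dg_mono hsub x).trans (hd x)))
      rw [nf_eq] at h4
      have hU' : ∀ c' ∈ cs, Disjoint (U ∪ P c) (P c') := by
        intro c' hc'
        rw [Finset.disjoint_union_left]
        refine ⟨hU c' (List.mem_cons_of_mem _ hc'), ?_⟩
        exact hPP c List.mem_cons_self c' (List.mem_cons_of_mem _ hc')
          (fun h => hc (h ▸ hc'))
      obtain ⟨s', h5, h6⟩ := ih hcs' hP' (U ∪ P c) hU' hPP' hnd hi hd (Nat.add s v) h4
      refine ⟨s', ?_, h6⟩
      have e5 : Nat.add s v = s + v := rfl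
      rw [e5] at h5
      omega

end Pool.Agent.LC
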