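import Pool.Agent.LC.Data

/-!
# The kernel checks all steps of the elimination scheme
-/

set_option autoImplicit false

namespace Pool.Agent.LC

theorem steps0 : ∀ i < N0.n, N0.step i = true := by decide +kernel

end Pool.Agent.LC
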