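import Pool.Agent.LC.Basic

/-!
# List lemmas on the unordered links of a cyclic list
-/

set_option autoImplicit false

namespace Pool.Agent.LC

theorem symn_lnk_fst (l : List ℕ) (z : ℕ) : (lnk l z).map Prod.fst = l := by
  induction l with
  | nil => simp
  | cons x t ih =>
    cases t with
    | nil => simp
    | cons y t =>
      rw [lnk_cons_cons, List.map_cons, ih]

theorem symn_clnk_fst (l : List ℕ) : (clnk l).map Prod.fst = l := by
  cases l with
  | nil => simp
  | cons x t => rw [clnk_cons, symn_lnk_fst]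

/-- in a nodup list the link starting at the head is the first one -/
theorem symn_head (x : ℕ) (t : List ℕ) (z b : ℕ) (h : (x :: t).Nodup)
    (hb : (x, b) ∈ lnk (x :: t) z) : (t = [] ∧ b = z) ∨ ∃ t', t = b :: t' := by
  cases t with
  | nil => simp at hb; exact Or.inl ⟨rfl, hb⟩
  | cons y t =>
    right
    rw [lnk_cons_cons, List.mem_cons] at hb
    rcases hb with hb | hb
    · have : b = y := by simpa using hb
      exact ⟨t, by rw [this]⟩
    · exact absurd (mem_lnk hb).1 (List.nodup_cons.mp h).1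

theorem symn_opp (l : List ℕ) (h : l.Nodup) (h3 : 3 ≤ l.length) (a b : ℕ)
    (h1 : (a, b) ∈ clnk l) (h2 : (b, a) ∈ clnk l) : False := by
  obtain ⟨k, t, hk⟩ := exists_rotate_cons l a (mem_clnk h1).1
  have hn : (a :: t).Nodup := by rw [← hk]; exact List.nodup_rotate.mpr h
  have hl : 3 ≤ (a :: t).length := by rw [← hk, List.length_rotate]; exact h3
  have e1 : (a, b) ∈ lnk (a :: t) a := by
    rw [← clnk_cons, ← hk]
    exact (clnk_rotate l k).mem_iff.mpr h1
  have e2 : (b, a) ∈ lnk (a :: t) a := by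
    rw [← clnk_cons, ← hk]
    exact (clnk_rotate l k).mem_iff.mpr h2
  rcases symn_head a t a b hn e1 with ⟨ht, _⟩ | ⟨t', rfl⟩
  · subst ht
    simp at hl
  · have hab : a ≠ b := by
      intro hab
      subst hab
      exact (List.nodup_cons.mp hn).1 (List.mem_cons_self)
    rw [lnk_cons_cons, List.mem_cons] at e2
    rcases e2 with e2 | e2
    · exact hab (by simpa using (congrArg Prod.fst e2).symm)
    · rcases symn_head b t' a a (List.nodup_cons.mp hn).2 e2 with ⟨ht, _⟩ | ⟨t'', rfl⟩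
      · subst ht
        simp at hl
      · exact (List.nodup_cons.mp hn).1 (by simp)

theorem sym_nodup (l : List ℕ) (h : l.Nodup) (h3 : 3 ≤ l.length) :
    ((clnk l).map (fun q => s(q.1, q.2))).Nodup := by
  have hc : (clnk l).Nodup := by
    refine List.Nodup.of_map Prod.fst ?_
    rw [symn_clnk_fst]
    exact h
  refine List.Nodup.map_on ?_ hc
  rintro ⟨a, b⟩ hx ⟨c, d⟩ hy hxy
  rw [Sym2.eq_iff] at hxy
  rcases hxy with ⟨hac, hbd⟩ | ⟨had, hbc⟩
  · simp only at hac hbd
    rw [hac, hbd]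
  · simp only at had hbc
    subst had
    subst hbc
    exact (symn_opp l h h3 _ _ hx hy).elim

theorem wt_eq (w : ℕ → ℕ → ℕ) (hw : ∀ x y, w x y = w y x) (l : List ℕ) (h : l.Nodup)
    (h3 : 3 ≤ l.length) : wt w l = ∑ e ∈ lset l, Sym2.lift ⟨w, hw⟩ e := by
  unfold wt lset
  rw [List.sum_toFinset _ (sym_nodup l h h3), List.map_map]
  rfl

theorem lset_mem (l : List ℕ) (e : Sym2 ℕ) (he : e ∈ lset l) (x : ℕ) (hx : x ∈ e) : x ∈ l := by
  unfold lset at he
  rw [List.mem_toFinset, List.mem_map] at he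
  obtain ⟨q, hq, rfl⟩ := he
  rw [Sym2.mem_iff] at hx
  rcases hx with rfl | rfl
  · exact (mem_clnk hq).1
  · exact (mem_clnk hq).2

theorem lset_not_diag (l : List ℕ) (h : l.Nodup) (h3 : 3 ≤ l.length) (e : Sym2 ℕ)
    (he : e ∈ lset l) : ¬ e.IsDiag := by
  unfold lset at he
  rw [List.mem_toFinset, List.mem_map] at he
  obtain ⟨⟨a, b⟩, hq, rfl⟩ := he
  rw [Sym2.mk_isDiag_iff]
  simp only
  intro hab
  subst hab
  exact symn_opp l h h3 a a hq hq

end Pool.Agent.LC
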