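import Pool.Agent.LC.Basic

/-!
# Cycles of a graph as cyclic lists
-/

set_option autoImplicit false

namespace Pool.Agent.LC

theorem walk1_links {V : Type*} (G : SimpleGraph V) {v u : V} (p : G.Walk v u) (z : V)
    (hz : G.Adj u z) : ∀ q ∈ lnk p.support z, G.Adj q.1 q.2 := by
  induction p with
  | nil =>
    intro q hq
    rw [SimpleGraph.Walk.support_nil, lnk_single, List.mem_singleton] at hq
    rw [hq]
    exact hz
  | cons h p ih =>
    intro q hq
    rw [SimpleGraph.Walk.support_cons, SimpleGraph.Walk.support_eq_cons p, lnk_cons_cons,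
      List.mem_cons] at hq
    rcases hq with hq | hq
    · rw [hq]
      exact h
    · rw [← SimpleGraph.Walk.support_eq_cons p] at hq
      exact ih hz q hq

theorem cyc_of_walk {V : Type*} (G : SimpleGraph V) {u : V} (c : G.Walk u u) (hc : c.IsCycle) :
    ∃ l : List V, IsCyc G.Adj l ∧ l.length = c.length ∧ ∀ x, x ∈ l ↔ x ∈ c.support := by
  cases c with
  | nil => exact absurd hc SimpleGraph.Walk.IsCycle.not_of_nil
  | cons h p =>
    have h3 := hc.three_le_length
    have hnd := hc.support_nodup
    rw [SimpleGraph.Walk.length_cons] at h3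
    rw [SimpleGraph.Walk.support_cons, List.tail_cons] at hnd
    refine ⟨p.support, ⟨hnd, ?_, ?_⟩, ?_, ?_⟩
    · rw [SimpleGraph.Walk.length_support]
      exact h3
    · have h1 := walk1_links G p _ h
      rw [SimpleGraph.Walk.support_eq_cons p] at h1 ⊢
      exact h1
    · rw [SimpleGraph.Walk.length_support, SimpleGraph.Walk.length_cons]
    · intro x
      rw [SimpleGraph.Walk.support_cons, List.mem_cons]
      constructor
      · intro hx
        exact Or.inr hx
      · rintro (rfl | hx)
        · exact SimpleGraph.Walk.end_mem_support p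
        · exact hx

end Pool.Agent.LC
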