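import Pool.Agent.LC.Basic

/-!
# A cyclic list of a graph is the support of a cycle walk
-/

set_option autoImplicit false

namespace Pool.Agent.LC

/-- the walk along a nonempty list, ending at `z` -/
theorem walk2_aux {V : Type*} (G : SimpleGraph V) (t : List V) :
    ∀ (x z : V), (∀ q ∈ lnk (x :: t) z, G.Adj q.1 q.2) →
      ∃ p : G.Walk x z, p.support = x :: t ++ [z] := by
  induction t with
  | nil =>
    intro x z h
    have hx : G.Adj x z := h (x, z) (by simp)
    exact ⟨SimpleGraph.Walk.cons hx SimpleGraph.Walk.nil, by simp⟩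
  | cons y t ih =>
    intro x z h
    rw [lnk_cons_cons] at h
    have hx : G.Adj x y := h (x, y) (by simp)
    obtain ⟨p, hp⟩ := ih y z (fun q hq => h q (List.mem_cons_of_mem _ hq))
    exact ⟨SimpleGraph.Walk.cons hx p, by simp [hp]⟩

theorem walk_of_cyc {V : Type*} (G : SimpleGraph V) (l : List V) (h : IsCyc G.Adj l) :
    ∃ (u : V) (c : G.Walk u u), c.IsCycle ∧ c.length = l.length ∧
      ∀ x, x ∈ c.support ↔ x ∈ l := by
  obtain ⟨hn, h3, ha⟩ := h
  match l, hn, h3, ha with
  | [], _, h3, _ => simp at h3
  | [_], _, h3, _ => simp at h3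
  | [_, _], _, h3, _ => simp at h3
  | a :: b :: c :: t, hn, _, ha =>
    rw [clnk_cons, lnk_cons_cons, lnk_cons_cons] at ha
    have hab : G.Adj a b := ha (a, b) (by simp)
    have hbc : G.Adj b c := ha (b, c) (by simp)
    obtain ⟨p, hp⟩ := walk2_aux G t c a (fun q hq => ha q (by simp [hq]))
    have hnc : a ≠ c := by
      rintro rfl
      simp at hn
    have hpath : (SimpleGraph.Walk.cons hbc p).IsPath := by
      rw [SimpleGraph.Walk.isPath_def, SimpleGraph.Walk.support_cons, hp]
      have : (b :: (c :: t ++ [a])).Perm (a :: b :: c :: t) := by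
        have h1 : b :: (c :: t ++ [a]) = (b :: c :: t) ++ [a] := by simp
        rw [h1]
        exact List.perm_append_comm
      exact this.nodup_iff.mpr hn
    refine ⟨a, SimpleGraph.Walk.cons hab (SimpleGraph.Walk.cons hbc p), ?_, ?_, ?_⟩
    · rw [SimpleGraph.Walk.cons_isCycle_iff]
      refine ⟨hpath, ?_⟩
      rw [SimpleGraph.Walk.edges_cons, List.mem_cons, not_or]
      constructor
      · intro hc
        rw [Sym2.eq_iff] at hc
        rcases hc with ⟨h1, _⟩ | ⟨h1, _⟩
        · exact hab.ne h1
        · exact hnc h1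
      · intro hc
        have h1 := SimpleGraph.Walk.snd_mem_support_of_mem_edges p hc
        have h2 := (SimpleGraph.Walk.cons_isPath_iff hbc p).mp hpath
        exact h2.2 h1
    · have h1 : p.length + 1 = (c :: t ++ [a]).length := by
        rw [← hp, SimpleGraph.Walk.length_support]
      simp at h1 ⊢
      omega
    · intro x
      simp only [SimpleGraph.Walk.support_cons, hp, List.mem_cons, List.mem_append,
        List.not_mem_nil, or_false]
      tauto

end Pool.Agent.LC
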